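import Mathlib

/-!
Large values of an analytic function at a point imply large values on a set of positive proportion
of a small disc around the point.
-/

open Complex Metric MeasureTheory Set Filter Topology

namespace DH31

/-- subharmonicity of `log |f|` -/
lemma log_le_circleAverage {c : ℂ} {R : ℝ} {f : ℂ → ℂ} (hR : 0 < R)
    (hf : AnalyticOnNhd ℂ f (closedBall c R)) (hc : f c ≠ 0) :
    Real.log ‖f c‖ ≤ Real.circleAverage (fun z => Real.log ‖f z‖) c R := by
  have hf' : AnalyticOnNhd ℂ f (closedBall c |R|) := by rwa [abs_of_pos hR]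
  rw [AnalyticOnNhd.circleAverage_log_norm hR.ne' hf' hc]
  have : 0 ≤ ∑ᶠ u, ((MeromorphicOn.divisor f (closedBall c |R|) u : ℤ) : ℝ) *
      Real.log (R * ‖c - u‖⁻¹) := by
    refine finsum_nonneg fun u => ?_
    by_cases hu : u ∈ closedBall c |R|
    · have h1 : (0 : ℤ) ≤ MeromorphicOn.divisor f (closedBall c |R|) u :=
        (MeromorphicOn.AnalyticOnNhd.divisor_nonneg hf') u
      have h2 : (0 : ℝ) ≤ (MeromorphicOn.divisor f (closedBall c |R|) u : ℤ) := by exact_mod_cast h1
      refine mul_nonneg h2 ?_
      by_cases huc : u = c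
      · subst huc; simp
      · have h3 : 0 < ‖c - u‖ := norm_pos_iff.2 (sub_ne_zero.2 (Ne.symm huc))
        apply Real.log_nonneg
        rw [← div_eq_mul_inv, le_div_iff₀ h3, one_mul]
        rw [mem_closedBall, dist_comm, dist_eq_norm, abs_of_pos hR] at hu
        exact hu
    · rw [Function.locallyFinsuppWithin.apply_eq_zero_of_notMem _ hu]
      simp
  linarith

/-- on each circle a positive proportion of the points is good -/
lemma proportion {c : ℂ} {R L η A : ℝ} {f : ℂ → ℂ} (hR : 0 < R) (hL : 0 < L) (hη : 0 < η)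
    (hA : 0 < A) (hf : AnalyticOnNhd ℂ f (closedBall c R)) (hc : η * L ≤ Real.log ‖f c‖)
    (hM : ∀ z ∈ sphere c R, Real.log ‖f z‖ ≤ A * L) :
    ENNReal.ofReal (Real.pi * η / A) ≤
      ∫⁻ θ in Ioo (-Real.pi) Real.pi,
        ({θ : ℝ | η / 2 * L < Real.log ‖f (circleMap c R θ)‖}).indicator 1 θ := by
  have hfc : f c ≠ 0 := by
    intro h
    rw [h, norm_zero, Real.log_zero] at hc
    have : 0 < η * L := by positivity
    linarith
  have hpi := Real.pi_pos
  have h1 := log_le_circleAverage hR hf hfc
  set g : ℝ → ℝ := fun θ => Real.log ‖f (circleMap c R θ)‖ with hg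
  have hper : Function.Periodic g (2 * Real.pi) := by
    intro θ
    simp only [hg, periodic_circleMap c R θ]
  have hmer : MeromorphicOn f (sphere c |R|) := by
    rw [abs_of_pos hR]
    exact fun z hz => (hf z (sphere_subset_closedBall hz)).meromorphicAt
  have hint0 : CircleIntegrable (fun z => Real.log ‖f z‖) c R :=
    hmer.circleIntegrable_log_norm
  have hintI : ∀ a b : ℝ, IntervalIntegrable g volume a b := by
    have : IntervalIntegrable g volume 0 (2 * Real.pi) := hint0
    intro a b
    exact hper.intervalIntegrable₀ (by positivity) this a b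
  have h2 : 2 * Real.pi * (η * L) ≤ ∫ θ in (-Real.pi)..Real.pi, g θ := by
    have e1 : ∫ θ in (-Real.pi)..Real.pi, g θ = ∫ θ in (0:ℝ)..(2 * Real.pi), g θ := by
      have := hper.intervalIntegral_add_eq (-Real.pi) 0
      rw [zero_add] at this
      rw [← this]
      congr 1
      ring
    rw [e1]
    have h3 : Real.circleAverage (fun z => Real.log ‖f z‖) c R =
        (2 * Real.pi)⁻¹ * ∫ θ in (0:ℝ)..(2 * Real.pi), g θ := by
      rw [Real.circleAverage_def, smul_eq_mul]
    rw [h3] at h1
    have h4 : η * L ≤ (2 * Real.pi)⁻¹ * ∫ θ in (0:ℝ)..(2 * Real.pi), g θ := hc.trans h1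
    have h5 := mul_le_mul_of_nonneg_left h4 (show 0 ≤ 2 * Real.pi by positivity)
    rwa [← mul_assoc (2 * Real.pi) (2 * Real.pi)⁻¹, mul_inv_cancel₀ (by positivity), one_mul] at h5
  set S : Set ℝ := {θ : ℝ | θ ∈ Ioo (-Real.pi) Real.pi ∧ η / 2 * L < g θ} with hS
  have hgmeas : AEStronglyMeasurable g (volume.restrict (Ioc (-Real.pi) Real.pi)) :=
    ((hintI _ _).1).aestronglyMeasurable
  have hcont : ContinuousOn (fun θ : ℝ => ‖f (circleMap c R θ)‖) univ := by
    apply Continuous.continuousOn
    have h0 : ContinuousOn f (closedBall c R) := hf.continuousOn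
    have h1 : Continuous (fun θ : ℝ => f (circleMap c R θ)) :=
      h0.comp_continuous (continuous_circleMap c R) (fun θ => circleMap_mem_closedBall c hR.le θ)
    exact h1.norm
  have hmeasg : Measurable g := by
    rw [continuousOn_univ] at hcont
    exact Real.measurable_log.comp hcont.measurable
  have hSm : MeasurableSet S := by
    have : S = Ioo (-Real.pi) Real.pi ∩ g ⁻¹' (Ioi (η / 2 * L)) := by
      ext θ; simp [hS]
    rw [this]
    exact measurableSet_Ioo.inter (hmeasg measurableSet_Ioi)
  have hSfin : volume S ≠ ⊤ := by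
    refine ne_top_of_le_ne_top ?_ (measure_mono (show S ⊆ Ioo (-Real.pi) Real.pi from fun θ h => h.1))
    rw [Real.volume_Ioo]; exact ENNReal.ofReal_ne_top
  have hindint : IntervalIntegrable (S.indicator (fun _ => A * L)) volume (-Real.pi) Real.pi := by
    rw [intervalIntegrable_iff_integrableOn_Ioc_of_le (by linarith)]
    exact (integrableOn_const (by rw [Real.volume_Ioc]; exact ENNReal.ofReal_ne_top)).indicator hSm
  have h6 : ∫ θ in (-Real.pi)..Real.pi, g θ ≤
      ∫ θ in (-Real.pi)..Real.pi, (η / 2 * L + S.indicator (fun _ => A * L) θ) := by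
    refine intervalIntegral.integral_mono_on_of_le_Ioo (by linarith) (hintI _ _)
      (intervalIntegrable_const.add hindint) ?_
    intro θ hθ
    by_cases hθS : θ ∈ S
    · rw [indicator_of_mem hθS]
      have := hM (circleMap c R θ) (circleMap_mem_sphere c hR.le θ)
      have : 0 < η / 2 * L := by positivity
      simp only [hg]
      linarith
    · rw [indicator_of_notMem hθS]
      simp only [hS, mem_ofPred_eq, not_and, not_lt] at hθS
      have := hθS hθ
      linarith
  have h7 : ∫ θ in (-Real.pi)..Real.pi, (η / 2 * L + S.indicator (fun _ => A * L) θ) =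
      2 * Real.pi * (η / 2 * L) + A * L * volume.real S := by
    rw [intervalIntegral.integral_add intervalIntegrable_const hindint,
      intervalIntegral.integral_const, intervalIntegral.integral_of_le (by linarith),
      setIntegral_indicator hSm, setIntegral_const]
    have e1 : Ioc (-Real.pi) Real.pi ∩ S = S := by
      apply inter_eq_right.2
      exact fun θ h => Ioo_subset_Ioc_self h.1
    rw [e1, smul_eq_mul, smul_eq_mul]
    ring
  have h8 : Real.pi * η / A ≤ volume.real S := by
    rw [div_le_iff₀ hA]
    have h9 : 2 * Real.pi * (η * L) ≤ 2 * Real.pi * (η / 2 * L) + A * L * volume.real S := by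
      rw [← h7]; exact h2.trans h6
    have h10 : L * (Real.pi * η) ≤ L * (volume.real S * A) := by linarith
    exact le_of_mul_le_mul_left h10 hL
  calc ENNReal.ofReal (Real.pi * η / A) ≤ ENNReal.ofReal (volume.real S) := ENNReal.ofReal_le_ofReal h8
    _ = volume S := ENNReal.ofReal_toReal hSfin
    _ = _ := by
        have hm' : MeasurableSet {θ : ℝ | η / 2 * L < Real.log ‖f (circleMap c R θ)‖} :=
          hmeasg measurableSet_Ioi
        rw [lintegral_indicator_one hm', Measure.restrict_apply hm']
        congr 1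
        ext θ
        simp [hS, hg, and_comm]

/-- the area lemma -/
theorem area {c : ℂ} {δ L η A : ℝ} {f : ℂ → ℂ} (hδ : 0 < δ) (hL : 0 < L) (hη : 0 < η)
    (hA : 0 < A) (hf : AnalyticOnNhd ℂ f (closedBall c δ)) (hc : η * L ≤ Real.log ‖f c‖)
    (hM : ∀ z ∈ closedBall c δ, Real.log ‖f z‖ ≤ A * L) :
    ENNReal.ofReal (δ ^ 2 / 2 * (Real.pi * η / A)) ≤
      volume {z : ℂ | z ∈ ball c δ ∧ Real.exp (η / 2 * L) < ‖f z‖} := by
  set S : Set ℂ := {z : ℂ | z ∈ ball c δ ∧ Real.exp (η / 2 * L) < ‖f z‖} with hS
  have hSo : IsOpen S := by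
    have h1 : ContinuousOn (fun z => ‖f z‖) (ball c δ) :=
      (hf.continuousOn.mono ball_subset_closedBall).norm
    have : S = ball c δ ∩ (fun z => ‖f z‖) ⁻¹' (Ioi (Real.exp (η / 2 * L))) := by
      ext z; simp [hS]
    rw [this]
    exact h1.isOpen_inter_preimage isOpen_ball isOpen_Ioi
  have hSm : MeasurableSet S := hSo.measurableSet
  have h1 : volume S = ∫⁻ z, S.indicator 1 z := by
    rw [lintegral_indicator_one hSm]
  have h2 : ∫⁻ z, S.indicator (1 : ℂ → ENNReal) z = ∫⁻ z, S.indicator (1 : ℂ → ENNReal) (z + c) :=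
    (lintegral_add_right_eq_self _ c).symm
  have h3 : ∫⁻ z, S.indicator (1 : ℂ → ENNReal) (z + c) =
      ∫⁻ p in polarCoord.target, ENNReal.ofReal p.1 •
        S.indicator (1 : ℂ → ENNReal) (Complex.polarCoord.symm p + c) :=
    (Complex.lintegral_comp_polarCoord_symm (fun z => S.indicator (1 : ℂ → ENNReal) (z + c))).symm
  rw [h1, h2, h3]
  have htgt : polarCoord.target = Ioi (0:ℝ) ×ˢ Ioo (-Real.pi) Real.pi := rfl
  have hsub : Ioo (0:ℝ) δ ×ˢ Ioo (-Real.pi) Real.pi ⊆ polarCoord.target := by
    rw [htgt]
    exact prod_mono (fun x hx => hx.1) subset_rfl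
  refine le_trans ?_ (lintegral_mono_set hsub)
  rw [Measure.volume_eq_prod, ← Measure.prod_restrict]
  have hmeas : Measurable (fun p : ℝ × ℝ => ENNReal.ofReal p.1 •
        S.indicator (1 : ℂ → ENNReal) (Complex.polarCoord.symm p + c)) := by
    have h0 : Measurable (fun p : ℝ × ℝ => Complex.polarCoord.symm p + c) := by
      have : (fun p : ℝ × ℝ => Complex.polarCoord.symm p + c) =
          fun p : ℝ × ℝ => (p.1 : ℂ) * (Real.cos p.2 + Real.sin p.2 * Complex.I) + c := by
        funext p
        rw [Complex.polarCoord_symm_apply]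
      rw [this]
      fun_prop
    have h4 : Measurable (S.indicator (1 : ℂ → ENNReal)) := measurable_one.indicator hSm
    exact (ENNReal.measurable_ofReal.comp measurable_fst).mul (h4.comp h0)
  rw [lintegral_prod _ hmeas.aemeasurable]
  have h5 : ∀ r ∈ Ioo (0:ℝ) δ, ENNReal.ofReal r * ENNReal.ofReal (Real.pi * η / A) ≤
      ∫⁻ θ in Ioo (-Real.pi) Real.pi, ENNReal.ofReal r •
        S.indicator (1 : ℂ → ENNReal) (Complex.polarCoord.symm (r, θ) + c) := by
    intro r hr
    simp only [smul_eq_mul]
    have hm2 : Measurable (fun θ : ℝ => S.indicator (1 : ℂ → ENNReal)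
        (Complex.polarCoord.symm (r, θ) + c)) := by
      have h0 : Measurable (fun θ : ℝ => Complex.polarCoord.symm (r, θ) + c) := by
        have : (fun θ : ℝ => Complex.polarCoord.symm (r, θ) + c) =
            fun θ : ℝ => (r : ℂ) * (Real.cos θ + Real.sin θ * Complex.I) + c := by
          funext θ
          rw [Complex.polarCoord_symm_apply]
        rw [this]
        fun_prop
      have h4 : Measurable (S.indicator (1 : ℂ → ENNReal)) := measurable_one.indicator hSm
      exact h4.comp h0
    rw [lintegral_const_mul _ hm2]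
    gcongr
    have h6 := proportion (c := c) (R := r) (L := L) (η := η) (A := A) (f := f) hr.1 hL hη hA
      (fun z hz => hf z (closedBall_subset_closedBall hr.2.le hz)) hc
      (fun z hz => hM z (closedBall_subset_closedBall hr.2.le (sphere_subset_closedBall hz)))
    refine h6.trans (setLIntegral_mono' measurableSet_Ioo fun θ hθI => ?_)
    by_cases hθ : θ ∈ {θ : ℝ | η / 2 * L < Real.log ‖f (circleMap c r θ)‖}
    · have : Complex.polarCoord.symm (r, θ) + c ∈ S := by
        have e1 : Complex.polarCoord.symm (r, θ) + c = circleMap c r θ := by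
          rw [Complex.polarCoord_symm_apply, circleMap, Complex.exp_mul_I]
          push_cast
          ring
        rw [e1]
        refine ⟨?_, ?_⟩
        · rw [mem_ball, dist_eq_norm, circleMap_sub_center, norm_circleMap_zero,
            abs_of_pos hr.1]
          exact hr.2
        · rw [← Real.lt_log_iff_exp_lt]
          · exact hθ
          · by_contra hcon
            have h0 : ‖f (circleMap c r θ)‖ = 0 := le_antisymm (not_lt.1 hcon) (norm_nonneg _)
            have := hθ
            rw [mem_ofPred_eq, h0, Real.log_zero] at this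
            have : 0 < η / 2 * L := by positivity
            linarith
      rw [indicator_of_mem this]
      exact indicator_le_self' (by simp) θ
    · rw [indicator_of_notMem hθ]
      exact zero_le
  calc ENNReal.ofReal (δ ^ 2 / 2 * (Real.pi * η / A))
      = ∫⁻ r in Ioo (0:ℝ) δ, ENNReal.ofReal r * ENNReal.ofReal (Real.pi * η / A) := by
        rw [lintegral_mul_const _ ENNReal.measurable_ofReal,
          ENNReal.ofReal_mul (by positivity)]
        congr 1
        rw [← ofReal_integral_eq_lintegral_ofReal]
        · rw [← integral_Ioc_eq_integral_Ioo, ← intervalIntegral.integral_of_le hδ.le, integral_id]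
          congr 1
          ring
        · exact (intervalIntegrable_iff_integrableOn_Ioo_of_le hδ.le).1
            (continuous_id.intervalIntegrable 0 δ)
        · exact (ae_restrict_mem measurableSet_Ioo).mono fun x hx => hx.1.le
    _ ≤ _ := setLIntegral_mono' measurableSet_Ioo h5

end DH31
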