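import Pool.Agent.H31R2.DH.CountB
import Pool.Agent.H370R2.DirGood

/-!
From unit intervals to numbers of zeros.
-/

open Complex Metric MeasureTheory Set Filter Topology

namespace DH31

/-- the zeros of zeta in the set `A`, counted with multiplicity -/
noncomputable def cnt (A : Set ℂ) : ℕ := ∑ᶠ s ∈ A, analyticOrderNatAt riemannZeta s

/-- zeros of zeta with real part at least `σ` and ordinate in `(0, T]` -/
def zeros (σ T : ℝ) : Set ℂ := {s : ℂ | riemannZeta s = 0 ∧ σ ≤ s.re ∧ 0 < s.im ∧ s.im ≤ T}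

/-- zeros of zeta in a compact set are finite -/
lemma finite_zeros_compact {K : Set ℂ} (hK : IsCompact K) :
    {s : ℂ | s ∈ K ∧ riemannZeta s = 0}.Finite := by
  have hF : ∀ s : ℂ, s ≠ 1 → AnalyticAt ℂ riemannZeta s := by
    intro s hs
    have : DifferentiableOn ℂ riemannZeta ({1}ᶜ : Set ℂ) := fun z hz =>
      (differentiableAt_riemannZeta hz).differentiableWithinAt
    exact this.analyticAt (isOpen_compl_singleton.mem_nhds hs)
  have h1 : ∀ᶠ s in 𝓝[≠] (1 : ℂ), riemannZeta s ≠ 0 := by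
    have h3 := riemannZeta_residue_one.eventually_ne (one_ne_zero : (1 : ℂ) ≠ 0)
    filter_upwards [h3] with s hs h0
    rw [h0, mul_zero] at hs
    exact hs rfl
  have h2 : riemannZeta 2 ≠ 0 := riemannZeta_ne_zero_of_one_le_re (by simp)
  by_contra hinf
  have hinf : {s : ℂ | s ∈ K ∧ riemannZeta s = 0}.Infinite := hinf
  obtain ⟨x, hx, hacc⟩ := hinf.exists_accPt_of_subset_isCompact hK (fun s hs => hs.1)
  have hfreq : ∃ᶠ z in 𝓝[≠] x, riemannZeta z = 0 := by
    rw [accPt_iff_frequently_nhdsNE] at hacc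
    exact hacc.mono fun z hz => hz.2
  by_cases hx1 : x = 1
  · subst hx1
    exact hfreq h1
  · have hU : IsPreconnected ({1}ᶜ : Set ℂ) := by
      refine (isConnected_compl_singleton_of_one_lt_rank ?_ 1).isPreconnected
      rw [Complex.rank_real_complex]
      norm_num
    have hz := AnalyticOnNhd.eqOn_zero_of_preconnected_of_frequently_eq_zero
      (f := riemannZeta) (U := ({1}ᶜ : Set ℂ)) (fun s hs => hF s hs) hU
      (show x ∈ ({1}ᶜ : Set ℂ) from hx1) hfreq
    exact h2 (hz (show (2 : ℂ) ∈ ({1}ᶜ : Set ℂ) by simp))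

lemma finite_region (a b c : ℝ) :
    {s : ℂ | riemannZeta s = 0 ∧ a ≤ s.re ∧ b ≤ s.im ∧ s.im ≤ c}.Finite := by
  have hcomp : IsCompact (Icc a 1 ×ℂ Icc b c) := isCompact_Icc.reProdIm isCompact_Icc
  refine (finite_zeros_compact hcomp).subset ?_
  rintro s ⟨h1, h2, h3, h4⟩
  refine ⟨⟨⟨h2, ?_⟩, ⟨h3, h4⟩⟩, h1⟩
  by_contra hcon
  push Not at hcon
  exact riemannZeta_ne_zero_of_one_le_re hcon.le h1

lemma zeros_finite (σ T : ℝ) : (zeros σ T).Finite :=
  (finite_region σ 0 T).subset fun _ hs => ⟨hs.1, hs.2.1, hs.2.2.1.le, hs.2.2.2⟩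

lemma cnt_eq {A : Set ℂ} (hA : A.Finite) :
    cnt A = ∑ s ∈ hA.toFinset, analyticOrderNatAt riemannZeta s :=
  finsum_mem_eq_finite_toFinset_sum _ hA

lemma cnt_mono {A B : Set ℂ} (hB : B.Finite) (h : A ⊆ B) : cnt A ≤ cnt B := by
  rw [cnt_eq (hB.subset h), cnt_eq hB]
  exact Finset.sum_le_sum_of_subset (by
    intro x hx
    rw [Set.Finite.mem_toFinset] at hx ⊢
    exact h hx)

lemma sum_le_cnt {A : Set ℂ} (hA : A.Finite) (S : Finset ℂ) (h : ∀ z ∈ S, z ∈ A) :
    ∑ s ∈ S, analyticOrderNatAt riemannZeta s ≤ cnt A := by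
  rw [cnt_eq hA]
  exact Finset.sum_le_sum_of_subset (by
    intro x hx
    rw [Set.Finite.mem_toFinset]
    exact h x hx)

/-- from unit intervals to zeros -/
theorem windows_to_count : ∃ C : ℝ, 0 < C ∧ ∀ T : ℝ, 3 ≤ T → ∀ A : Set ℂ,
    A ⊆ zeros (1 / 2) T → ∀ S : Finset ℕ,
    (∀ ρ ∈ A, 3 < ρ.im → ∃ n ∈ S, (n : ℝ) < ρ.im ∧ ρ.im ≤ n + 1) →
    (cnt A : ℝ) ≤ C + (S.card : ℝ) * (C * Real.log T) := by
  classical
  obtain ⟨C0, hC0, hz⟩ := H370.zcount (F := riemannZeta) H370.good_zeta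
  refine ⟨2 * C0 + cnt (zeros (1 / 2) 3) + 1, by positivity, ?_⟩
  intro T hT A hA S hS
  have hAf : A.Finite := (zeros_finite _ _).subset hA
  set f : ℂ → ℕ := fun s => analyticOrderNatAt riemannZeta s with hf
  set U := hAf.toFinset with hU
  have hlogT : 0 ≤ Real.log T := Real.log_nonneg (by linarith)
  -- splitting
  have h1 : cnt A = ∑ s ∈ U.filter (fun s => s.im ≤ 3), f s + ∑ s ∈ U.filter (fun s => ¬ s.im ≤ 3), f s := by
    rw [cnt_eq hAf, Finset.sum_filter_add_sum_filter_not]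
  have h2 : ∑ s ∈ U.filter (fun s => s.im ≤ 3), f s ≤ cnt (zeros (1 / 2) 3) := by
    refine sum_le_cnt (zeros_finite _ _) _ fun z hz => ?_
    rw [Finset.mem_filter, hU, Set.Finite.mem_toFinset] at hz
    have := hA hz.1
    exact ⟨this.1, this.2.1, this.2.2.1, hz.2⟩
  -- the windows
  set S' : Finset ℕ := S.filter (fun n : ℕ => 2 ≤ n ∧ (n : ℝ) ≤ T) with hS'
  set W : ℕ → Finset ℂ := fun n => U.filter (fun s => (n : ℝ) < s.im ∧ s.im ≤ n + 1) with hW
  have h3 : ∑ s ∈ U.filter (fun s => ¬ s.im ≤ 3), f s ≤ ∑ n ∈ S', ∑ s ∈ W n, f s := by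
    have hsub : U.filter (fun s => ¬ s.im ≤ 3) ⊆ S'.biUnion W := by
      intro s hs
      rw [Finset.mem_filter, hU, Set.Finite.mem_toFinset] at hs
      obtain ⟨hsA, hs3⟩ := hs
      push Not at hs3
      obtain ⟨n, hn, hn1, hn2⟩ := hS s hsA hs3
      rw [Finset.mem_biUnion]
      refine ⟨n, ?_, ?_⟩
      · rw [hS', Finset.mem_filter]
        refine ⟨hn, ?_, ?_⟩
        · have : (2 : ℝ) < n := by linarith
          exact_mod_cast this.le
        · have := (hA hsA).2.2.2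
          linarith
      · simp only [hW]
        rw [Finset.mem_filter, hU, Set.Finite.mem_toFinset]
        exact ⟨hsA, hn1, hn2⟩
    have hdisj : (S' : Set ℕ).PairwiseDisjoint W := by
      intro a _ b _ hab
      rw [Function.onFun, Finset.disjoint_left]
      intro s hsa hsb
      simp only [hW, Finset.mem_filter] at hsa hsb
      apply hab
      have e1 : (a : ℝ) < b + 1 := lt_of_lt_of_le hsa.2.1 hsb.2.2
      have e2 : (b : ℝ) < a + 1 := lt_of_lt_of_le hsb.2.1 hsa.2.2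
      have e3 : a < b + 1 := by exact_mod_cast e1
      have e4 : b < a + 1 := by exact_mod_cast e2
      omega
    calc _ ≤ ∑ s ∈ S'.biUnion W, f s := Finset.sum_le_sum_of_subset hsub
      _ = _ := Finset.sum_biUnion hdisj
  have h4 : ∀ n ∈ S', ((∑ s ∈ W n, f s : ℕ) : ℝ) ≤ 2 * C0 * Real.log T := by
    intro n hn
    rw [hS', Finset.mem_filter] at hn
    obtain ⟨-, hn2, hnT⟩ := hn
    have hn2r : (2 : ℝ) ≤ n := by exact_mod_cast hn2
    have h5 := hz (n + 1) (by linarith)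
    have h6 : ∑ s ∈ W n, f s ≤ H370.NN riemannZeta ((n : ℝ) + 1 - 1) (n + 1 + 1) := by
      unfold H370.NN H370.mult
      have hfin := H370.zset_finite H370.good_zeta ((n : ℝ) + 1 - 1) (n + 1 + 1) (by linarith)
      rw [finsum_mem_eq_finite_toFinset_sum _ hfin]
      refine Finset.sum_le_sum_of_subset ?_
      intro s hs
      simp only [hW, Finset.mem_filter, hU, Set.Finite.mem_toFinset] at hs
      rw [Set.Finite.mem_toFinset]
      have hsA := hA hs.1
      refine ⟨by have := hsA.2.1; linarith, ?_, by linarith [hs.2.1], by linarith [hs.2.2], hsA.1⟩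
      by_contra hcon
      push Not at hcon
      exact riemannZeta_ne_zero_of_one_le_re hcon hsA.1
    have h7 : Real.log (n + 1) ≤ 2 * Real.log T := by
      have : (n : ℝ) + 1 ≤ T ^ 2 := by nlinarith
      calc Real.log (n + 1) ≤ Real.log (T ^ 2) := Real.log_le_log (by linarith) this
        _ = _ := by rw [Real.log_pow]; norm_num
    calc ((∑ s ∈ W n, f s : ℕ) : ℝ) ≤ (H370.NN riemannZeta ((n : ℝ) + 1 - 1) (n + 1 + 1) : ℝ) := by
          exact_mod_cast h6
      _ ≤ C0 * Real.log (n + 1) := h5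
      _ ≤ C0 * (2 * Real.log T) := by gcongr
      _ = _ := by ring
  have h8 : ((∑ n ∈ S', ∑ s ∈ W n, f s : ℕ) : ℝ) ≤ (S.card : ℝ) * (2 * C0 * Real.log T) := by
    rw [Nat.cast_sum]
    calc ∑ n ∈ S', ((∑ s ∈ W n, f s : ℕ) : ℝ) ≤ ∑ n ∈ S', 2 * C0 * Real.log T :=
          Finset.sum_le_sum h4
      _ = (S'.card : ℝ) * (2 * C0 * Real.log T) := by
          rw [Finset.sum_const, nsmul_eq_mul]
      _ ≤ _ := by
          have : (S'.card : ℝ) ≤ S.card := by exact_mod_cast Finset.card_filter_le _ _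
          gcongr
  have h9 : (cnt A : ℝ) ≤ cnt (zeros (1 / 2) 3) + (S.card : ℝ) * (2 * C0 * Real.log T) := by
    have : (cnt A : ℝ) ≤ cnt (zeros (1 / 2) 3) + ((∑ n ∈ S', ∑ s ∈ W n, f s : ℕ) : ℝ) := by
      rw [h1]
      exact_mod_cast add_le_add h2 h3
    linarith
  refine h9.trans ?_
  have hc : (0 : ℝ) ≤ cnt (zeros (1 / 2) 3) := by positivity
  have h10 : (S.card : ℝ) * (2 * C0 * Real.log T) ≤
      (S.card : ℝ) * ((2 * C0 + cnt (zeros (1 / 2) 3) + 1) * Real.log T) := by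
    gcongr
    linarith
  linarith

end DH31
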