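import Pool.Agent.H31R2.DH.Circ
import Pool.Agent.H370R2.Local

/-!
A local form of the theorem of Backlund: few zeros imply small values.
-/

open Complex Metric Set Filter Topology

namespace DH31

open H370 H370.Loc

/-- logarithm of a zero free function on a disc -/
lemma exists_log {g : ℂ → ℂ} {c : ℂ} {r : ℝ} (hr : 0 < r)
    (hg : AnalyticOnNhd ℂ g (ball c r)) (hg0 : ∀ z ∈ ball c r, g z ≠ 0) :
    ∃ h : ℂ → ℂ, DifferentiableOn ℂ h (ball c r) ∧ h c = 0 ∧
      ∀ w ∈ ball c r, g w = g c * cexp (h w) := by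
  have hcr : c ∈ ball c r := mem_ball_self hr
  have hd : DifferentiableOn ℂ (logDeriv g) (ball c r) := by
    intro w hw
    have h1 : AnalyticAt ℂ (logDeriv g) w := (hg w hw).deriv.div (hg w hw) (hg0 w hw)
    exact h1.differentiableAt.differentiableWithinAt
  obtain ⟨h, hhc, hh⟩ := hd.isExactOn_ball.with_val_at c 0
  refine ⟨h, fun w hw => (hh w hw).differentiableAt.differentiableWithinAt, hhc, ?_⟩
  -- g = g c * exp h
  have hconst : ∀ w ∈ ball c r, g w * cexp (-h w) = g c := by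
    intro w hw
    have hderiv : ∀ x ∈ ball c r, HasDerivAt (fun y => g y * cexp (-h y)) 0 x := by
      intro x hx
      have e1 : HasDerivAt g (deriv g x) x := (hg x hx).differentiableAt.hasDerivAt
      have e2 : HasDerivAt (fun y => cexp (-h y)) (cexp (-h x) * (-(logDeriv g x))) x :=
        ((hh x hx).neg).cexp
      have e3 : HasDerivAt (fun y => g y * cexp (-h y))
          (deriv g x * cexp (-h x) + g x * (cexp (-h x) * (-(logDeriv g x)))) x := e1.mul e2
      have e4 : deriv g x * cexp (-h x) + g x * (cexp (-h x) * (-(logDeriv g x))) = 0 := by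
        have := hg0 x hx
        rw [logDeriv_apply]
        field_simp
        ring
      rwa [e4] at e3
    have hcv : Convex ℝ (ball c r) := convex_ball c r
    have := hcv.is_const_of_fderivWithin_eq_zero (𝕜 := ℂ) (f := fun y => g y * cexp (-h y))
      (fun x hx => (hderiv x hx).differentiableAt.differentiableWithinAt)
      (fun x hx => by
        have h5 := (hderiv x hx).hasFDerivAt.hasFDerivWithinAt (s := ball c r)
        rw [h5.fderivWithin (isOpen_ball.uniqueDiffWithinAt hx)]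
        ext; simp) hw hcr
    simp only [hhc, neg_zero, Complex.exp_zero, mul_one] at this
    exact this
  intro w hw
  rw [← hconst w hw, mul_assoc, ← Complex.exp_add, neg_add_cancel, Complex.exp_zero, mul_one]

/-- Borel-Caratheodory for the logarithm -/
lemma bc_log {g h : ℂ → ℂ} {c : ℂ} {r r' r1 B : ℝ} (hr1 : 0 < r1) (h1r : r1 < r') (hr'r : r' ≤ r)
    (hB : 0 ≤ B) (hgc : g c ≠ 0)
    (hh : DifferentiableOn ℂ h (ball c r)) (hhc : h c = 0)
    (hgh : ∀ w ∈ ball c r, g w = g c * cexp (h w))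
    (hb : ∀ z ∈ ball c r', ‖g z‖ ≤ Real.exp B * ‖g c‖) {w : ℂ} (hw : w ∈ closedBall c r1) :
    ‖h w‖ ≤ 2 * (B + 1) * r1 / (r' - r1) := by
  have hgc' : 0 < ‖g c‖ := norm_pos_iff.2 hgc
  have hre : ∀ w ∈ ball c r', (h w).re ≤ B + 1 := by
    intro w hw
    have h1 := hgh w (ball_subset_ball hr'r hw)
    have h3 := hb w hw
    rw [h1, norm_mul, Complex.norm_exp, mul_comm] at h3
    have h4 := le_of_mul_le_mul_right h3 hgc'
    have h5 := Real.exp_le_exp.1 h4
    linarith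
  have hw1 : ‖w - c‖ ≤ r1 := by rwa [mem_closedBall, dist_eq_norm] at hw
  have hw2 : w - c ∈ ball (0 : ℂ) r' := by rw [mem_ball_zero_iff]; linarith
  have hmap : ∀ x : ℂ, x ∈ ball (0 : ℂ) r' → c + x ∈ ball c r' := by
    intro x hx
    rw [mem_ball_zero_iff] at hx
    rw [mem_ball, dist_eq_norm, add_sub_cancel_left]
    exact hx
  have hbc := Complex.borelCaratheodory_zero (f := fun x => h (c + x)) (M := B + 1) (R := r')
    (z := w - c) (by linarith)
    (fun x hx => by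
      have h1 := hh.differentiableAt (isOpen_ball.mem_nhds (ball_subset_ball hr'r (hmap x hx)))
      have h2 : DifferentiableAt ℂ (fun y : ℂ => c + y) x := by fun_prop
      exact (DifferentiableAt.comp (g := h) (f := fun y : ℂ => c + y) x h1 h2).differentiableWithinAt)
    (fun x hx => hre (c + x) (hmap x hx)) (by linarith) hw2 (by simp [hhc])
  simp only [add_sub_cancel] at hbc
  refine hbc.trans ?_
  have h6 : 0 < r' - r1 := by linarith
  have h7 : r' - r1 ≤ r' - ‖w - c‖ := by linarith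
  exact div_le_div₀ (by positivity) (by gcongr) h6 h7

/-- few zeros imply small values, abstract form -/
lemma backlund_abs {f : ℂ → ℂ} {c : ℂ} {ϱ δ l n M A a : ℝ} (hl : 0 < l) (hl1 : l ≤ 1)
    (hϱ1 : l ≤ ϱ) (hϱ2 : ϱ + 3 * δ ≤ 1)
    (hδ : 0 < δ) (hM1 : 1 ≤ M) (hA1 : 1 ≤ A) (ha1 : 1 ≤ a) (hn0 : 0 ≤ n)
    (hf : AnalyticOnNhd ℂ f (closedBall c (ϱ + 3 * δ)))
    (hM : ∀ z ∈ closedBall c (ϱ + 3 * δ), ‖f z‖ ≤ M)
    (hA : ∀ z ∈ closedBall c (l / 2), ‖f z‖ ≤ A)
    (ha : 1 / a ≤ ‖f c‖)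
    (hz1 : ∀ z ∈ closedBall c (ϱ + 2 * δ), f z = 0 → l ≤ ‖z - c‖)
    (hn : ∀ S : Finset ℂ, (∀ z ∈ S, z ∈ closedBall c (ϱ + 2 * δ) ∧ f z = 0) →
      ∑ z ∈ S, (mult f z : ℝ) ≤ n) (K : ℕ) {z : ℂ} (hz : z ∈ closedBall c (ϱ + δ)) :
    ‖f z‖ ≤ A * Real.exp (n * Real.log (2 / l) +
      2 * (Real.log A + n * Real.log (2 / l) + Real.log a + 1) * (K * (4 / l) ^ K)
      + 4 * (Real.log M + n * Real.log (1 / δ) + Real.log a + 1) / δ *
        (1 - δ / 2) ^ K * (2 / δ)) := by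
  classical
  have hfc : f c ≠ 0 := by
    intro h
    rw [h, norm_zero] at ha
    have : 0 < 1 / a := by positivity
    linarith
  obtain ⟨s, g, hs1, hg, hfg, hg0, -⟩ := extract (r := ϱ + 2 * δ) (R := ϱ + 3 * δ) (by linarith)
    (by linarith) hM1 hf hfc hM
  set k := Multiset.card s with hk
  -- the number of extracted zeros
  have hkn : (k : ℝ) ≤ n := by
    refine le_trans ?_ (hn s.toFinset fun z hz => hs1 z (Multiset.mem_toFinset.1 hz))
    have h1 : Multiset.card s = ∑ z ∈ s.toFinset, s.count z := (Multiset.toFinset_sum_count_eq s).symm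
    rw [hk, h1]
    push_cast
    refine Finset.sum_le_sum fun z hz => ?_
    have hz0 := hs1 z (Multiset.mem_toFinset.1 hz)
    have hz' : z ∈ closedBall c (ϱ + 3 * δ) := closedBall_subset_closedBall (by linarith) hz0.1
    have hKp : IsPreconnected (closedBall c (ϱ + 3 * δ)) := (convex_closedBall c _).isPreconnected
    exact_mod_cast count_le_mult (hf z hz')
      (order_ne_top hKp hf (mem_closedBall_self (by linarith)) hfc hz') (hg z hz') hfg
  have hdist : ∀ ρ ∈ s, l ≤ ‖ρ - c‖ ∧ ‖ρ - c‖ ≤ ϱ + 2 * δ := by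
    intro ρ hρ
    obtain ⟨h1, h2⟩ := hs1 ρ hρ
    refine ⟨hz1 ρ h1 h2, ?_⟩
    rwa [mem_closedBall, dist_eq_norm] at h1
  -- bounds for Pf
  have hP1 : ∀ z ∈ sphere c (ϱ + 3 * δ), δ ^ k ≤ ‖Pf s z‖ := by
    intro z hz
    refine Pf_norm_ge hδ.le fun ρ hρ => ?_
    have h1 := (hdist ρ hρ).2
    rw [mem_sphere, dist_eq_norm] at hz
    have h2 : ‖z - c‖ ≤ ‖z - ρ‖ + ‖ρ - c‖ := by
      calc ‖z - c‖ = ‖(z - ρ) + (ρ - c)‖ := by congr 1; ring
        _ ≤ _ := norm_add_le _ _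
    linarith
  have hP2 : ‖Pf s c‖ ≤ 1 := by
    have := Pf_norm_le (s := s) (z := c) (a := 1) fun ρ hρ => by
      have h1 := (hdist ρ hρ).2
      rw [norm_sub_rev]; linarith
    simpa using this
  have hP3 : ∀ z ∈ ball c (l / 2), (l / 2) ^ k ≤ ‖Pf s z‖ := by
    intro z hz
    refine Pf_norm_ge (by positivity) fun ρ hρ => ?_
    have h1 := (hdist ρ hρ).1
    rw [mem_ball, dist_eq_norm] at hz
    have h2 : ‖ρ - c‖ ≤ ‖z - ρ‖ + ‖z - c‖ := by
      calc ‖ρ - c‖ = ‖(z - c) - (z - ρ)‖ := by congr 1; ring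
        _ ≤ ‖z - c‖ + ‖z - ρ‖ := norm_sub_le _ _
        _ = _ := add_comm _ _
    linarith
  have hP4 : l ^ k ≤ ‖Pf s c‖ := by
    refine Pf_norm_ge hl.le fun ρ hρ => ?_
    rw [norm_sub_rev]; exact (hdist ρ hρ).1
  have hP5 : ‖Pf s z‖ ≤ 2 ^ k := by
    refine Pf_norm_le fun ρ hρ => ?_
    have h1 := (hdist ρ hρ).2
    rw [mem_closedBall, dist_eq_norm] at hz
    have h2 : ‖z - ρ‖ ≤ ‖z - c‖ + ‖ρ - c‖ := by
      calc ‖z - ρ‖ = ‖(z - c) - (ρ - c)‖ := by congr 1; ring
        _ ≤ _ := norm_sub_le _ _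
    linarith
  -- bound for g at the centre
  have hgc : g c ≠ 0 := hg0 c (mem_closedBall_self (by linarith))
  have hgc1 : 1 / a ≤ ‖g c‖ := by
    have h1 : ‖f c‖ = ‖Pf s c‖ * ‖g c‖ := by rw [hfg c, norm_mul]
    rw [h1] at ha
    refine ha.trans ?_
    exact mul_le_of_le_one_left (norm_nonneg _) hP2
  have hgc2 : ‖g c‖ ≤ A * (1 / l) ^ k := by
    have h1 : ‖f c‖ = ‖Pf s c‖ * ‖g c‖ := by rw [hfg c, norm_mul]
    have h2 : ‖f c‖ ≤ A := hA c (mem_closedBall_self (by positivity))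
    have h3 : l ^ k * ‖g c‖ ≤ A := by
      rw [h1] at h2
      exact le_trans (by gcongr) h2
    rw [one_div, inv_pow, ← div_eq_mul_inv, le_div_iff₀ (by positivity)]
    linarith
  -- bound for g in the large ball
  have hδ1' : δ ≤ 1 := by linarith
  have hlog1δ : 0 ≤ Real.log (1 / δ) := Real.log_nonneg (by rw [le_div_iff₀ hδ]; linarith)
  have h2l1 : 1 ≤ 2 / l := by rw [le_div_iff₀ hl]; linarith
  have hlog2l : 0 ≤ Real.log (2 / l) := Real.log_nonneg h2l1
  have hlogA : 0 ≤ Real.log A := Real.log_nonneg hA1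
  have hloga : 0 ≤ Real.log a := Real.log_nonneg ha1
  have hlogM : 0 ≤ Real.log M := Real.log_nonneg hM1
  set B := Real.log M + n * Real.log (1 / δ) + Real.log a with hB
  set B0 := Real.log A + n * Real.log (2 / l) + Real.log a with hB0
  have hBnn : 0 ≤ B := by positivity
  have hB0nn : 0 ≤ B0 := by positivity
  have hpow : ∀ x : ℝ, 1 ≤ x → x ^ k ≤ Real.exp (n * Real.log x) := by
    intro x hx
    rw [← Real.rpow_natCast, Real.rpow_def_of_pos (by linarith)]
    apply Real.exp_le_exp.2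
    rw [mul_comm]
    exact mul_le_mul_of_nonneg_right hkn (Real.log_nonneg hx)
  have hgB : ∀ z ∈ closedBall c (ϱ + 3 * δ), ‖g z‖ ≤ M * (1 / δ) ^ k := by
    intro z hz
    have hcl : closedBall c (ϱ + 3 * δ) = closure (ball c (ϱ + 3 * δ)) :=
      (closure_ball c (by linarith)).symm
    refine Complex.norm_le_of_forall_mem_frontier_norm_le (U := ball c (ϱ + 3 * δ)) isBounded_ball
      ?_ ?_ (by rw [← hcl]; exact hz)
    · apply DifferentiableOn.diffContOnCl
      rw [← hcl]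
      exact hg.differentiableOn
    · intro w hw
      rw [frontier_ball _ (by linarith)] at hw
      have h1 := hM w (sphere_subset_closedBall hw)
      rw [hfg w, norm_mul] at h1
      have h2 := hP1 w hw
      have h3 : δ ^ k * ‖g w‖ ≤ M := le_trans (by gcongr) h1
      rw [one_div, inv_pow, ← div_eq_mul_inv, le_div_iff₀ (by positivity)]
      linarith
  have hexpB : ∀ z ∈ ball c (ϱ + 2 * δ), ‖g z‖ ≤ Real.exp B * ‖g c‖ := by
    intro z hz
    have h1 := hgB z (ball_subset_closedBall.trans (closedBall_subset_closedBall (by linarith)) hz)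
    refine h1.trans ?_
    have h2 : M * (1 / δ) ^ k * a ≤ Real.exp B := by
      rw [hB, Real.exp_add, Real.exp_add, Real.exp_log (by linarith),
        Real.exp_log (by linarith)]
      have h3 := hpow (1 / δ) (by rw [le_div_iff₀ hδ]; linarith)
      gcongr
    calc M * (1 / δ) ^ k = M * (1 / δ) ^ k * a * (1 / a) := by
          field_simp
      _ ≤ Real.exp B * ‖g c‖ := by gcongr
  have hexpB0 : ∀ z ∈ ball c (l / 2), ‖g z‖ ≤ Real.exp B0 * ‖g c‖ := by
    intro z hz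
    have h1 := hA z (ball_subset_closedBall hz)
    rw [hfg z, norm_mul] at h1
    have h2 := hP3 z hz
    have h3 : ‖g z‖ ≤ A * (2 / l) ^ k := by
      have h4 : (l / 2) ^ k * ‖g z‖ ≤ A := le_trans (by gcongr) h1
      rw [← inv_div, inv_pow, ← div_eq_mul_inv, le_div_iff₀ (by positivity)]
      linarith
    refine h3.trans ?_
    have h2 : A * (2 / l) ^ k * a ≤ Real.exp B0 := by
      rw [hB0, Real.exp_add, Real.exp_add, Real.exp_log (by linarith),
        Real.exp_log (by linarith)]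
      have h4 := hpow (2 / l) h2l1
      gcongr
    calc A * (2 / l) ^ k = A * (2 / l) ^ k * a * (1 / a) := by
          field_simp
      _ ≤ Real.exp B0 * ‖g c‖ := by gcongr
  -- the logarithm
  obtain ⟨h, hh, hhc, hgh⟩ := exists_log (g := g) (c := c) (r := ϱ + 2 * δ) (by linarith)
    (fun w hw => hg w (closedBall_subset_closedBall (by linarith) (ball_subset_closedBall hw)))
    (fun w hw => hg0 w (ball_subset_closedBall hw))
  have hb1 : ∀ w ∈ sphere c (l / 4), ‖h w‖ ≤ 2 * (B0 + 1) := by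
    intro w hw
    have := bc_log (r := ϱ + 2 * δ) (r' := l / 2) (r1 := l / 4) (B := B0) (by positivity)
      (by linarith) (by linarith) hB0nn hgc hh hhc hgh hexpB0 (sphere_subset_closedBall hw)
    refine this.trans (le_of_eq ?_)
    field_simp
    norm_num
  have hb2 : ∀ w ∈ sphere c (ϱ + 3 / 2 * δ), ‖h w‖ ≤ 4 * (B + 1) / δ := by
    intro w hw
    have := bc_log (r := ϱ + 2 * δ) (r' := ϱ + 2 * δ) (r1 := ϱ + 3 / 2 * δ) (B := B) (by linarith)
      (by linarith) le_rfl hBnn hgc hh hhc hgh hexpB (sphere_subset_closedBall hw)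
    refine this.trans ?_
    have e1 : ϱ + 2 * δ - (ϱ + 3 / 2 * δ) = δ / 2 := by ring
    rw [e1]
    rw [div_le_div_iff₀ (by positivity) hδ]
    have e2 : ϱ + 3 / 2 * δ ≤ 1 := by linarith
    have e3 : 0 ≤ (B + 1) * δ := by positivity
    nlinarith
  have hz' : ‖z - c‖ ≤ ϱ + δ := by rwa [mem_closedBall, dist_eq_norm] at hz
  have hcb := circle_bound (f := h) (c := c) (z := z) (r := ϱ + δ) (s0 := l / 4)
    (s := ϱ + 3 / 2 * δ) (R := ϱ + 2 * δ) (m := 2 * (B0 + 1)) (M := 4 * (B + 1) / δ)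
    (by positivity) (by linarith) (by linarith) (by linarith) (by linarith) (by linarith) hh hb1 hb2
    hz' K
  -- simplification
  have h4l : 1 ≤ 4 / l := by rw [le_div_iff₀ hl]; linarith
  have hsum : ∑ n ∈ Finset.range K, ((ϱ + δ) / (l / 4)) ^ n ≤ K * (4 / l) ^ K := by
    have h1 : ∀ n ∈ Finset.range K, ((ϱ + δ) / (l / 4)) ^ n ≤ (4 / l) ^ K := by
      intro n hn
      have h2 : (ϱ + δ) / (l / 4) ≤ 4 / l := by
        rw [div_le_div_iff₀ (by positivity) hl]; nlinarith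
      have h3 : 0 ≤ (ϱ + δ) / (l / 4) := div_nonneg (by linarith) (by positivity)
      calc ((ϱ + δ) / (l / 4)) ^ n ≤ (4 / l) ^ n := by gcongr
        _ ≤ (4 / l) ^ K := pow_le_pow_right₀ h4l (Finset.mem_range.1 hn).le
    refine (Finset.sum_le_sum h1).trans ?_
    rw [Finset.sum_const, Finset.card_range, nsmul_eq_mul]
  have hq : (ϱ + δ) / (ϱ + 3 / 2 * δ) ≤ 1 - δ / 2 := by
    rw [div_le_iff₀ (by linarith)]
    have e2 : ϱ + 3 / 2 * δ ≤ 1 := by linarith
    nlinarith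
  have hq0 : 0 ≤ (ϱ + δ) / (ϱ + 3 / 2 * δ) := by
    have : 0 < ϱ + 3 / 2 * δ := by linarith
    have : 0 < ϱ + δ := by linarith
    positivity
  have hlast : 4 * (B + 1) / δ * ((ϱ + δ) / (ϱ + 3 / 2 * δ)) ^ K /
      (1 - (ϱ + δ) / (ϱ + 3 / 2 * δ)) ≤ 4 * (B + 1) / δ * (1 - δ / 2) ^ K * (2 / δ) := by
    rw [div_eq_mul_inv _ (1 - _)]
    have h1 : δ / 2 ≤ 1 - (ϱ + δ) / (ϱ + 3 / 2 * δ) := by linarith
    have h2 : (1 - (ϱ + δ) / (ϱ + 3 / 2 * δ))⁻¹ ≤ 2 / δ := by
      have h2' := inv_anti₀ (by positivity) h1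
      rwa [inv_div] at h2'
    have h0 : 0 ≤ 1 - δ / 2 := by linarith
    have h3 : 0 ≤ (1 - (ϱ + δ) / (ϱ + 3 / 2 * δ))⁻¹ := inv_nonneg.2 (by linarith)
    gcongr
  have hhz : ‖h z‖ ≤ 2 * (B0 + 1) * (K * (4 / l) ^ K) +
      4 * (B + 1) / δ * (1 - δ / 2) ^ K * (2 / δ) := by
    refine hcb.trans (add_le_add ?_ hlast)
    gcongr
  have hzr : z ∈ ball c (ϱ + 2 * δ) := by
    rw [mem_ball, dist_eq_norm]; linarith
  rw [hfg z, norm_mul, hgh z hzr, norm_mul, Complex.norm_exp]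
  have h4 := hpow (2 / l) h2l1
  have h5 : (h z).re ≤ ‖h z‖ := Complex.re_le_norm _
  have h6 : Real.exp (h z).re ≤
      Real.exp (2 * (B0 + 1) * (K * (4 / l) ^ K) + 4 * (B + 1) / δ * (1 - δ / 2) ^ K * (2 / δ)) :=
    Real.exp_le_exp.2 (h5.trans hhz)
  calc ‖Pf s z‖ * (‖g c‖ * Real.exp (h z).re)
      ≤ 2 ^ k * ((A * (1 / l) ^ k) * Real.exp (2 * (B0 + 1) * (K * (4 / l) ^ K) +
        4 * (B + 1) / δ * (1 - δ / 2) ^ K * (2 / δ))) := by
        gcongr
    _ = (2 / l) ^ k * A * Real.exp (2 * (B0 + 1) * (K * (4 / l) ^ K) +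
        4 * (B + 1) / δ * (1 - δ / 2) ^ K * (2 / δ)) := by
        rw [show (2 / l) = 2 * (1 / l) by ring, mul_pow]; ring
    _ ≤ Real.exp (n * Real.log (2 / l)) * A * Real.exp (2 * (B0 + 1) * (K * (4 / l) ^ K) +
        4 * (B + 1) / δ * (1 - δ / 2) ^ K * (2 / δ)) := by
        gcongr
    _ = A * Real.exp (n * Real.log (2 / l) + (2 * (B0 + 1) * (K * (4 / l) ^ K) +
        4 * (B + 1) / δ * (1 - δ / 2) ^ K * (2 / δ))) := by
        rw [Real.exp_add (n * Real.log (2 / l))]; ring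
    _ ≤ _ := by
        apply le_of_eq
        congr 2
        rw [hB, hB0]
        ring

end DH31
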