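import Pool.Agent.H31R2.DH.Back
import Pool.Agent.H388LH.ZG

/-!
Few zeros of zeta near a point imply small values there.
-/

open Complex Metric Set Filter Topology

namespace DH31

open H370 H370.Loc

/-- crude series bound in `Re s ≥ a > 1` -/
lemma lseries_bound {a : ℝ} (ha : 1 < a) (f : ℕ → ℂ) (hf : ∀ n, ‖f n‖ ≤ 1) {s : ℂ}
    (hs : a ≤ s.re) : ‖LSeries f s‖ ≤ ∑' n : ℕ, 1 / (n:ℝ) ^ a := by
  have hsum : Summable (fun n : ℕ => 1 / (n:ℝ) ^ a) := Real.summable_one_div_nat_rpow.mpr ha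
  unfold LSeries
  refine tsum_of_norm_bounded hsum.hasSum ?_
  intro n
  rcases Nat.eq_zero_or_pos n with rfl | hn
  · simp [LSeries.term]
    positivity
  · rw [LSeries.norm_term_eq]
    rw [if_neg (by omega)]
    have hn1 : (1:ℝ) ≤ n := by exact_mod_cast hn
    have h1 : (n:ℝ) ^ a ≤ (n:ℝ) ^ s.re := Real.rpow_le_rpow_of_exponent_le hn1 hs
    have h2 : 0 < (n:ℝ) ^ a := by positivity
    calc ‖f n‖ / (n:ℝ) ^ s.re ≤ 1 / (n:ℝ) ^ s.re := by
          gcongr
          exact hf n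
      _ ≤ 1 / (n:ℝ) ^ a := by gcongr

/-- crude bounds in `Re s ≥ a > 1` -/
lemma zeta_bounds {a : ℝ} (ha : 1 < a) : ∃ A : ℝ, 1 ≤ A ∧ ∀ s : ℂ, a ≤ s.re →
    ‖riemannZeta s‖ ≤ A ∧ 1 / A ≤ ‖riemannZeta s‖ := by
  set K := ∑' n : ℕ, 1 / (n:ℝ) ^ a with hK
  refine ⟨max K 1, le_max_right _ _, fun s hs => ?_⟩
  have hs1 : 1 < s.re := by linarith
  have hA : 0 < max K 1 := lt_of_lt_of_le one_pos (le_max_right _ _)
  constructor
  · rw [← LSeries_one_eq_riemannZeta hs1]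
    exact (lseries_bound ha 1 (fun n => by simp) hs).trans (le_max_left _ _)
  · have h1 : riemannZeta s * LSeries (fun n => (ArithmeticFunction.moebius n : ℂ)) s = 1 := by
      rw [← LSeries_one_eq_riemannZeta hs1]
      exact LSeries_one_mul_Lseries_moebius hs1
    have h2 : ‖LSeries (fun n => (ArithmeticFunction.moebius n : ℂ)) s‖ ≤ max K 1 := by
      refine (lseries_bound ha _ (fun n => ?_) hs).trans (le_max_left _ _)
      have h : |ArithmeticFunction.moebius n| ≤ 1 := ArithmeticFunction.abs_moebius_le_one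
      rw [Complex.norm_intCast]
      exact_mod_cast h
    have h3 : ‖riemannZeta s‖ * ‖LSeries (fun n => (ArithmeticFunction.moebius n : ℂ)) s‖ = 1 := by
      rw [← norm_mul, h1, norm_one]
    rw [div_le_iff₀ hA]
    calc (1 : ℝ) = ‖riemannZeta s‖ * ‖LSeries (fun n => (ArithmeticFunction.moebius n : ℂ)) s‖ := h3.symm
      _ ≤ ‖riemannZeta s‖ * max K 1 := by gcongr

lemma zeta_analyticAt {s : ℂ} (hs : 0 < s.im) : AnalyticAt ℂ riemannZeta s := by
  have : DifferentiableOn ℂ riemannZeta ({1}ᶜ : Set ℂ) := fun z hz =>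
      (differentiableAt_riemannZeta hz).differentiableWithinAt
  refine this.analyticAt (isOpen_compl_singleton.mem_nhds ?_)
  intro h
  rw [mem_singleton_iff] at h
  rw [h] at hs
  simp at hs

/-- points of the ball with centre `a + i t` -/
lemma ball_re_im {a t r : ℝ} {z : ℂ} (hz : z ∈ closedBall (⟨a, t⟩ : ℂ) r) :
    a - r ≤ z.re ∧ |z.im - t| ≤ r := by
  rw [mem_closedBall, dist_eq_norm] at hz
  have h1 := Complex.abs_re_le_norm (z - ⟨a, t⟩)
  have h2 := Complex.abs_im_le_norm (z - ⟨a, t⟩)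
  simp only [Complex.sub_re, Complex.sub_im] at h1 h2
  have h3 := abs_le.1 (h1.trans hz)
  exact ⟨by linarith [h3.1], h2.trans hz⟩

theorem backlund_zeta {δ η : ℝ} (hδ : 0 < δ) (hδ1 : δ ≤ 1 / 12) (hη : 0 < η) :
    ∃ η' : ℝ, 0 < η' ∧ ∃ T0 : ℝ, ∀ T : ℝ, T0 ≤ T → ∀ t : ℝ, 3 ≤ t → t ≤ T → ∀ β : ℝ, 1 / 2 ≤ β →
      β ≤ 1 → (∀ S : Finset ℂ, (∀ z ∈ S, z ∈ closedBall (⟨1 + δ, t⟩ : ℂ) (1 + δ - β + 2 * δ) ∧
        riemannZeta z = 0) → ∑ z ∈ S, (mult riemannZeta z : ℝ) ≤ η' * Real.log T) →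
      ∀ z ∈ closedBall (⟨1 + δ, t⟩ : ℂ) (1 + δ - β + δ), ‖riemannZeta z‖ ≤ T ^ η := by
  obtain ⟨A, hA1, hA⟩ := zeta_bounds (a := 1 + δ / 2) (by linarith)
  have hlogδ : 0 ≤ Real.log (1 / δ) := Real.log_nonneg (by rw [le_div_iff₀ hδ]; linarith)
  have hlog2δ : 0 ≤ Real.log (2 / δ) := Real.log_nonneg (by rw [le_div_iff₀ hδ]; linarith)
  have hlogA : 0 ≤ Real.log A := Real.log_nonneg hA1
  set D : ℝ := 8 / δ ^ 2 * (2 + Real.log (1 / δ)) with hD
  have hD0 : 0 < D := by positivity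
  obtain ⟨K, hK⟩ := exists_pow_lt_of_lt_one (show 0 < η / 4 / D by positivity)
    (show 1 - δ / 2 < 1 by linarith)
  have hq0 : 0 ≤ 1 - δ / 2 := by linarith
  rw [lt_div_iff₀ hD0] at hK
  set G : ℝ := K * (4 / δ) ^ K with hG
  have hG0 : 0 ≤ G := by positivity
  set E : ℝ := Real.log (2 / δ) * (1 + 2 * G) + 1 with hE
  have hE0 : 0 < E := by positivity
  set C : ℝ := Real.log A + 2 * (2 * Real.log A + 1) * G +
    8 / δ ^ 2 * (Real.log A + 1) with hC
  have hC0 : 0 ≤ C := by positivity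
  refine ⟨min 1 (η / 4 / E), lt_min one_pos (by positivity), max 10 (Real.exp (4 * C / η)), ?_⟩
  intro T hT t ht3 htT β hβ1 hβ2 hN z hz
  set η' := min 1 (η / 4 / E) with hη'
  have hη'0 : 0 < η' := lt_min one_pos (by positivity)
  have hη'1 : η' ≤ 1 := min_le_left _ _
  have hη'2 : η' * E ≤ η / 4 := by
    have : η' ≤ η / 4 / E := min_le_right _ _
    rwa [le_div_iff₀ hE0] at this
  have hT10 : 10 ≤ T := (le_max_left _ _).trans hT
  have hT0 : 0 < T := by linarith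
  have hL : 4 * C / η ≤ Real.log T := by
    rw [Real.le_log_iff_exp_le hT0]
    exact (le_max_right _ _).trans hT
  have hL0 : 0 ≤ Real.log T := Real.log_nonneg (by linarith)
  rw [div_le_iff₀ hη] at hL
  have hsubim : ∀ w ∈ closedBall (⟨1 + δ, t⟩ : ℂ) (1 + δ - β + 3 * δ), 1 / 4 ≤ w.re ∧ 1 ≤ w.im ∧
      ‖w‖ ≤ T + 4 := by
    intro w hw
    have h1 := ball_re_im hw
    have h2 := abs_le.1 h1.2
    refine ⟨by linarith, by linarith, ?_⟩
    rw [mem_closedBall, dist_eq_norm] at hw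
    have h3 : ‖(⟨1 + δ, t⟩ : ℂ)‖ ≤ 1 + δ + t := by
      have := Complex.norm_le_abs_re_add_abs_im (⟨1 + δ, t⟩ : ℂ)
      simp only at this
      rwa [abs_of_nonneg (by linarith : 0 ≤ t), abs_of_nonneg (by linarith : 0 ≤ 1 + δ)] at this
    calc ‖w‖ = ‖(w - ⟨1 + δ, t⟩) + ⟨1 + δ, t⟩‖ := by congr 1; ring
      _ ≤ ‖w - ⟨1 + δ, t⟩‖ + ‖(⟨1 + δ, t⟩ : ℂ)‖ := norm_add_le _ _
      _ ≤ T + 4 := by linarith
  have key := backlund_abs (f := riemannZeta) (c := ⟨1 + δ, t⟩) (ϱ := 1 + δ - β) (δ := δ) (l := δ)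
    (n := η' * Real.log T) (M := T ^ 2) (A := A) (a := A) hδ (by linarith) (by linarith)
    (by linarith) hδ
    (by nlinarith) hA1 hA1 (by positivity)
    (fun w hw => zeta_analyticAt (by linarith [(hsubim w hw).2.1]))
    (fun w hw => by
      obtain ⟨h1, h2, h3⟩ := hsubim w hw
      refine (Pool.Agent.H388LH.zeta_growth h1 h2).trans ?_
      nlinarith)
    (fun w hw => (hA w (by have := (ball_re_im hw).1; linarith)).1)
    (hA _ (by simp only; linarith)).2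
    (by
      intro w hw hw0
      by_contra hcon
      push Not at hcon
      have h1 : w ∈ closedBall (⟨1 + δ, t⟩ : ℂ) δ := by
        rw [mem_closedBall, dist_eq_norm]; exact hcon.le
      have h2 := (ball_re_im h1).1
      exact riemannZeta_ne_zero_of_one_le_re (by linarith) hw0)
    (fun S hS => hN S hS) K hz
  refine key.trans ?_
  rw [Real.log_pow]
  push_cast
  set L := Real.log T with hLdef
  have hTη : T ^ η = Real.exp (η * L) := by
    rw [Real.rpow_def_of_pos hT0, mul_comm]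
  rw [hTη, ← Real.exp_log (show 0 < A by linarith), ← Real.exp_add, Real.log_exp]
  apply Real.exp_le_exp.2
  have hp : 0 ≤ (1 - δ / 2) ^ K := by positivity
  have hp1 : (1 - δ / 2) ^ K ≤ 1 := pow_le_one₀ hq0 (by linarith)
  -- main terms
  have e1 : η' * L * Real.log (2 / δ) + 2 * (η' * L * Real.log (2 / δ)) * G ≤ η / 4 * L := by
    have : η' * L * Real.log (2 / δ) + 2 * (η' * L * Real.log (2 / δ)) * G ≤ η' * E * L := by
      have e0 : η' * E * L = η' * L * Real.log (2 / δ) + 2 * (η' * L * Real.log (2 / δ)) * G +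
        η' * L := by rw [hE]; ring
      have : 0 ≤ η' * L := by positivity
      linarith
    exact this.trans (mul_le_mul_of_nonneg_right hη'2 hL0)
  have e2 : 8 / δ ^ 2 * (2 * L + η' * L * Real.log (1 / δ)) *
      (1 - δ / 2) ^ K ≤ η / 4 * L := by
    have h1 : 2 * L + η' * L * Real.log (1 / δ) ≤ L * (2 + Real.log (1 / δ)) := by
      have a1 : η' * L * Real.log (1 / δ) ≤ 1 * L * Real.log (1 / δ) := by gcongr
      linarith
    calc 8 / δ ^ 2 * (2 * L + η' * L * Real.log (1 / δ)) *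
      (1 - δ / 2) ^ K ≤ 8 / δ ^ 2 * (L * (2 + Real.log (1 / δ))) *
      (1 - δ / 2) ^ K := by gcongr
      _ = ((1 - δ / 2) ^ K * D) * L := by rw [hD]; ring
      _ ≤ η / 4 * L := mul_le_mul_of_nonneg_right hK.le hL0
  have e3 : 8 / δ ^ 2 * (Real.log A + 1) * (1 - δ / 2) ^ K ≤ 8 / δ ^ 2 * (Real.log A + 1) :=
    mul_le_of_le_one_right (by positivity) hp1
  have e4 : 4 * (2 * L + η' * L * Real.log (1 / δ) + Real.log A + 1) / δ *
      (1 - δ / 2) ^ K * (2 / δ) = 8 / δ ^ 2 * (2 * L + η' * L * Real.log (1 / δ)) *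
      (1 - δ / 2) ^ K + 8 / δ ^ 2 * (Real.log A + 1) * (1 - δ / 2) ^ K := by
    field_simp
    ring
  rw [e4]
  have e5 : C ≤ η / 4 * L := by linarith
  rw [hC] at e5
  have e6 : 2 * (Real.log A + η' * L * Real.log (2 / δ) + Real.log A + 1) * (K * (4 / δ) ^ K) =
      2 * (2 * Real.log A + 1) * G + 2 * (η' * L * Real.log (2 / δ)) * G := by rw [hG]; ring
  rw [e6]
  linarith

end DH31
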