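import Mathlib

/-!
Taylor coefficients, and a quantitative form of the three circles theorem.
-/

open Complex Metric Set Filter Topology

namespace DH31

/-- Taylor coefficient of `f` at `c` -/
noncomputable def tc (f : ℂ → ℂ) (c : ℂ) (n : ℕ) : ℂ := (n.factorial : ℂ)⁻¹ * iteratedDeriv n f c

lemma tc_norm_le {f : ℂ → ℂ} {c : ℂ} {s R M : ℝ} (hs : 0 < s) (hsR : s < R)
    (hf : DifferentiableOn ℂ f (ball c R)) (hM : ∀ z ∈ sphere c s, ‖f z‖ ≤ M) (n : ℕ) :
    ‖tc f c n‖ ≤ M / s ^ n := by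
  have hd : DiffContOnCl ℂ f (ball c s) := by
    apply DifferentiableOn.diffContOnCl
    refine hf.mono ?_
    exact closure_ball_subset_closedBall.trans (closedBall_subset_ball hsR)
  have h1 := Complex.norm_iteratedDeriv_le_of_forall_mem_sphere_norm_le (R := s) (C := M) (f := f)
    n hs hd hM
  unfold tc
  rw [norm_mul, norm_inv, Complex.norm_natCast]
  have h2 : (0 : ℝ) < n.factorial := by positivity
  calc ((n.factorial : ℝ))⁻¹ * ‖iteratedDeriv n f c‖
      ≤ ((n.factorial : ℝ))⁻¹ * (n.factorial * M / s ^ n) := by gcongr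
    _ = M / s ^ n := by field_simp

lemma hasSum_tc {f : ℂ → ℂ} {c z : ℂ} {R : ℝ} (hf : DifferentiableOn ℂ f (ball c R))
    (hz : z ∈ ball c R) : HasSum (fun n => tc f c n * (z - c) ^ n) (f z) := by
  have h := Complex.hasSum_taylorSeries_on_ball hf hz
  convert! h using 2 with n
  unfold tc
  simp only [smul_eq_mul]
  ring

/-- the tail of the Taylor series -/
lemma tail_le {f : ℂ → ℂ} {c z : ℂ} {r s R M : ℝ} (hs : 0 < s) (hr : 0 ≤ r) (hrs : r < s)
    (hsR : s < R) (hf : DifferentiableOn ℂ f (ball c R)) (hM : ∀ z ∈ sphere c s, ‖f z‖ ≤ M)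
    (hz : ‖z - c‖ ≤ r) (K : ℕ) :
    ‖f z - ∑ n ∈ Finset.range K, tc f c n * (z - c) ^ n‖ ≤ M * (r / s) ^ K / (1 - r / s) := by
  have hzR : z ∈ ball c R := by
    rw [mem_ball, dist_eq_norm]; linarith
  have h1 := hasSum_tc hf hzR
  have h2 : HasSum (fun n => tc f c (n + K) * (z - c) ^ (n + K))
      (f z - ∑ n ∈ Finset.range K, tc f c n * (z - c) ^ n) :=
    (hasSum_nat_add_iff' K).2 h1
  have hM0 : 0 ≤ M := by
    have : c + s ∈ sphere c s := by
      rw [mem_sphere, dist_eq_norm]; simp [abs_of_pos hs]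
    exact (norm_nonneg _).trans (hM _ this)
  have hq0 : 0 ≤ r / s := by positivity
  have hq1 : r / s < 1 := by rw [div_lt_one hs]; exact hrs
  have h3 : HasSum (fun n : ℕ => M * (r / s) ^ K * (r / s) ^ n)
      (M * (r / s) ^ K * (1 - r / s)⁻¹) := (hasSum_geometric_of_lt_one hq0 hq1).mul_left _
  rw [← h2.tsum_eq, div_eq_mul_inv, ← h3.tsum_eq]
  refine tsum_of_norm_bounded h3 ?_ |>.trans ?_
  · intro n
    have h4 := tc_norm_le hs hsR hf hM (n + K)
    rw [norm_mul, norm_pow]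
    calc ‖tc f c (n + K)‖ * ‖z - c‖ ^ (n + K) ≤ (M / s ^ (n + K)) * r ^ (n + K) := by gcongr
      _ = M * (r / s) ^ K * (r / s) ^ n := by
        rw [div_pow, div_pow, pow_add, pow_add]
        field_simp
  · rw [h3.tsum_eq]

/-- three circles -/
lemma circle_bound {f : ℂ → ℂ} {c z : ℂ} {r s0 s R m M : ℝ} (hs0 : 0 < s0) (hs : 0 < s)
    (hr : 0 ≤ r) (hrs : r < s) (hsR : s < R) (hs0R : s0 < R) (hf : DifferentiableOn ℂ f (ball c R))
    (hm : ∀ z ∈ sphere c s0, ‖f z‖ ≤ m) (hM : ∀ z ∈ sphere c s, ‖f z‖ ≤ M)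
    (hz : ‖z - c‖ ≤ r) (K : ℕ) :
    ‖f z‖ ≤ m * ∑ n ∈ Finset.range K, (r / s0) ^ n + M * (r / s) ^ K / (1 - r / s) := by
  have h1 := tail_le hs hr hrs hsR hf hM hz K
  have h2 : ‖∑ n ∈ Finset.range K, tc f c n * (z - c) ^ n‖ ≤
      m * ∑ n ∈ Finset.range K, (r / s0) ^ n := by
    rw [Finset.mul_sum]
    refine norm_sum_le_of_le _ fun n _ => ?_
    have h4 := tc_norm_le hs0 hs0R hf hm n
    have hm0 : 0 ≤ m := by
      have : c + s0 ∈ sphere c s0 := by
        rw [mem_sphere, dist_eq_norm]; simp [abs_of_pos hs0]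
      exact (norm_nonneg _).trans (hm _ this)
    rw [norm_mul, norm_pow]
    calc ‖tc f c n‖ * ‖z - c‖ ^ n ≤ (m / s0 ^ n) * r ^ n := by gcongr
      _ = m * (r / s0) ^ n := by
        rw [div_pow]; field_simp
  calc ‖f z‖ = ‖(∑ n ∈ Finset.range K, tc f c n * (z - c) ^ n) +
        (f z - ∑ n ∈ Finset.range K, tc f c n * (z - c) ^ n)‖ := by congr 1; ring
    _ ≤ _ := (norm_add_le _ _).trans (add_le_add h2 h1)

end DH31
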