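import Pool.Agent.H31R2.DH.Circ
import Pool.Agent.Helper924.MW.Lower

/-!
The mollified zeta function and its Dirichlet coefficients.
-/

open Complex Metric Set Filter Topology

namespace DH31

/-- coefficients of `ζ(s) ∑_{m ≤ X} μ(m) m^{-s}` -/
noncomputable def aX (X n : ℕ) : ℂ :=
  ∑ d ∈ n.divisors.filter (· ≤ X), (ArithmeticFunction.moebius d : ℂ)

/-- the mollifier -/
noncomputable def MX (X : ℕ) (s : ℂ) : ℂ :=
  ∑ m ∈ Finset.Icc 1 X, (ArithmeticFunction.moebius m : ℂ) * (m : ℂ) ^ (-s)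

/-- coefficients of the mollifier -/
noncomputable def tX (X n : ℕ) : ℂ := if n ≤ X then (ArithmeticFunction.moebius n : ℂ) else 0

lemma moebius_norm_le (n : ℕ) : ‖(ArithmeticFunction.moebius n : ℂ)‖ ≤ 1 := by
  have h : |ArithmeticFunction.moebius n| ≤ 1 := ArithmeticFunction.abs_moebius_le_one
  rw [Complex.norm_intCast]
  exact_mod_cast h

lemma aX_one {X : ℕ} (hX : 1 ≤ X) : aX X 1 = 1 := by
  unfold aX
  have : (Nat.divisors 1).filter (· ≤ X) = {1} := by
    ext d
    simp only [Nat.divisors_one, Finset.mem_filter, Finset.mem_singleton]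
    constructor
    · exact fun h => h.1
    · rintro rfl; exact ⟨rfl, hX⟩
  rw [this]
  simp

lemma aX_zero {X n : ℕ} (h1 : 1 < n) (hn : n ≤ X) : aX X n = 0 := by
  unfold aX
  have h2 : n.divisors.filter (· ≤ X) = n.divisors := by
    refine Finset.filter_true_of_mem fun d hd => ?_
    exact (Nat.divisor_le hd).trans hn
  rw [h2]
  have h3 := ArithmeticFunction.coe_moebius_mul_coe_zeta (R := ℂ)
  have h4 := congrArg (fun f => f n) h3
  simp only [ArithmeticFunction.coe_mul_zeta_apply] at h4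
  rw [ArithmeticFunction.one_apply_ne (by omega)] at h4
  simpa using h4

lemma aX_norm_le (X n : ℕ) : ‖aX X n‖ ≤ n.divisors.card := by
  unfold aX
  refine (norm_sum_le_of_le _ fun d _ => moebius_norm_le d).trans ?_
  simp only [Finset.sum_const, nsmul_eq_mul, mul_one]
  exact_mod_cast Finset.card_le_card (Finset.filter_subset _ _)

lemma aX_eq (X : ℕ) : LSeries.convolution (1 : ℕ → ℂ) (tX X) = aX X := by
  ext n
  rw [LSeries.convolution_def]
  unfold aX tX
  rw [Finset.sum_filter]
  have := Nat.sum_divisorsAntidiagonal' (n := n) (f := fun a b => (1 : ℕ → ℂ) a *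
    if b ≤ X then (ArithmeticFunction.moebius b : ℂ) else 0)
  beta_reduce
  rw [this]
  simp

lemma term_tX {X n : ℕ} (hn : n ∉ Finset.Icc 1 X) (s : ℂ) : LSeries.term (tX X) s n = 0 := by
  rcases Nat.eq_zero_or_pos n with rfl | h
  · simp
  · rw [Finset.mem_Icc] at hn
    rw [LSeries.term_of_ne_zero (by omega)]
    unfold tX
    rw [if_neg (by omega)]
    simp

lemma LSeriesSummable_tX (X : ℕ) (s : ℂ) : LSeriesSummable (tX X) s :=
  summable_of_ne_finset_zero (s := Finset.Icc 1 X) fun _ hn => term_tX hn s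

lemma LSeries_tX (X : ℕ) (s : ℂ) : LSeries (tX X) s = MX X s := by
  unfold LSeries MX
  rw [tsum_eq_sum (s := Finset.Icc 1 X) fun n hn => term_tX hn s]
  refine Finset.sum_congr rfl fun n hn => ?_
  rw [Finset.mem_Icc] at hn
  rw [LSeries.term_of_ne_zero (by omega)]
  unfold tX
  rw [if_pos hn.2, Complex.cpow_neg]
  rfl

lemma LSeriesSummable_aX (X : ℕ) {s : ℂ} (hs : 1 < s.re) : LSeriesSummable (aX X) s := by
  rw [← aX_eq]
  exact (LSeriesSummable_one_iff.2 hs).convolution (LSeriesSummable_tX X s)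

lemma LSeries_aX (X : ℕ) {s : ℂ} (hs : 1 < s.re) :
    LSeries (aX X) s = riemannZeta s * MX X s := by
  rw [← aX_eq, LSeries_convolution' (LSeriesSummable_one_iff.2 hs) (LSeriesSummable_tX X s),
    LSeries_one_eq_riemannZeta hs, LSeries_tX]

lemma abscissa_aX (X : ℕ) {s : ℂ} (hs : 1 < s.re) :
    LSeries.abscissaOfAbsConv (aX X) < s.re := by
  obtain ⟨x, hx1, hx2⟩ := exists_between hs
  have h1 : LSeriesSummable (aX X) (x : ℂ) := LSeriesSummable_aX X (by simpa using hx1)
  refine (LSeriesSummable.abscissaOfAbsConv_le h1).trans_lt ?_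
  simp only [Complex.ofReal_re]
  exact_mod_cast hx2

lemma aX_map_zero (X : ℕ) : aX X 0 = 0 := by simp [aX]

lemma logMul_iter (f : ℕ → ℂ) (k n : ℕ) :
    (LSeries.logMul^[k] f) n = (Real.log n : ℂ) ^ k * f n := by
  induction k generalizing f with
  | zero => simp
  | succ k ih =>
    rw [Function.iterate_succ, Function.comp_apply, ih]
    unfold LSeries.logMul
    rw [← Complex.natCast_log]
    ring

/-- Taylor coefficients of the mollified zeta function to the right of `1` -/
lemma hasSum_tc_F (X k : ℕ) {c : ℂ} (hc : 1 < c.re) :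
    HasSum (fun n : ℕ => aX X n * (Real.log n : ℂ) ^ k * (n : ℂ) ^ (-c))
      ((-1) ^ k * (k.factorial : ℂ) * tc (fun s => riemannZeta s * MX X s) c k) := by
  have h1 : (fun s => riemannZeta s * MX X s) =ᶠ[𝓝 c] LSeries (aX X) := by
    have : {s : ℂ | 1 < s.re} ∈ 𝓝 c := (isOpen_lt continuous_const Complex.continuous_re).mem_nhds hc
    filter_upwards [this] with s hs
    exact (LSeries_aX X hs).symm
  have h2 : iteratedDeriv k (fun s => riemannZeta s * MX X s) c =
      (-1) ^ k * LSeries (LSeries.logMul^[k] (aX X)) c := by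
    rw [h1.iteratedDeriv_eq k, LSeries_iteratedDeriv k (abscissa_aX X hc)]
  have h3 : (-1) ^ k * (k.factorial : ℂ) * tc (fun s => riemannZeta s * MX X s) c k =
      LSeries (LSeries.logMul^[k] (aX X)) c := by
    unfold tc
    rw [h2]
    have : (k.factorial : ℂ) ≠ 0 := by exact_mod_cast Nat.factorial_ne_zero k
    have h4 : ((-1 : ℂ) ^ k) * (-1) ^ k = 1 := by rw [← mul_pow]; norm_num
    calc (-1) ^ k * (k.factorial : ℂ) * ((k.factorial : ℂ)⁻¹ * ((-1) ^ k *
        LSeries (LSeries.logMul^[k] (aX X)) c)) = ((-1) ^ k * (-1) ^ k) *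
        ((k.factorial : ℂ) * (k.factorial : ℂ)⁻¹) * LSeries (LSeries.logMul^[k] (aX X)) c := by ring
      _ = _ := by rw [h4, mul_inv_cancel₀ this]; ring
  rw [h3]
  have h5 : LSeriesSummable (LSeries.logMul^[k] (aX X)) c := by
    apply LSeriesSummable_of_abscissaOfAbsConv_lt_re
    rw [LSeries.absicssaOfAbsConv_logPowMul]
    exact abscissa_aX X hc
  have h6 := h5.LSeriesHasSum
  unfold LSeriesHasSum at h6
  convert! h6 using 1
  ext n
  rcases Nat.eq_zero_or_pos n with rfl | h
  · simp [aX_map_zero]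
  · rw [LSeries.term_of_ne_zero (by omega), logMul_iter, Complex.cpow_neg]
    ring

end DH31
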