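import Pool.Agent.H31R2.DH.MVd

/-!
Large values of Dirichlet polynomials via powers.
-/

open Complex MeasureTheory Set Filter Topology

namespace DH31

open ArithmeticFunction

lemma term_af_zero {b : ArithmeticFunction ℂ} {Y n : ℕ} (hb : ∀ n, b n ≠ 0 → n ≤ Y)
    (hn : n ∉ Finset.Icc 1 Y) (s : ℂ) : LSeries.term (fun n => b n) s n = 0 := by
  rcases Nat.eq_zero_or_pos n with rfl | h
  · simp
  · rw [Finset.mem_Icc] at hn
    rw [LSeries.term_of_ne_zero (by omega)]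
    have : b n = 0 := by
      by_contra h0
      exact hn ⟨h, hb n h0⟩
    rw [this]
    simp

lemma summable_af {b : ArithmeticFunction ℂ} {Y : ℕ} (hb : ∀ n, b n ≠ 0 → n ≤ Y) (s : ℂ) :
    LSeriesSummable (fun n => b n) s :=
  summable_of_ne_finset_zero (s := Finset.Icc 1 Y) fun _ hn => term_af_zero hb hn s

lemma dp_eq_LSeries {b : ArithmeticFunction ℂ} {Y : ℕ} (hb : ∀ n, b n ≠ 0 → n ≤ Y) (t : ℝ) :
    dp (fun n => b n) Y t = LSeries (fun n => b n) (t * I) := by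
  unfold LSeries dp
  rw [tsum_eq_sum (s := Finset.Icc 1 Y) fun n hn => term_af_zero hb hn _]
  refine Finset.sum_congr rfl fun n hn => ?_
  rw [Finset.mem_Icc] at hn
  rw [LSeries.term_of_ne_zero (by omega), neg_mul, Complex.cpow_neg]
  rfl

lemma pow_support {b : ArithmeticFunction ℂ} {N Y : ℕ} (hb : ∀ n, b n ≠ 0 → N ≤ n ∧ n ≤ Y)
    (m : ℕ) : ∀ n, (b ^ m) n ≠ 0 → N ^ m ≤ n ∧ n ≤ Y ^ m := by
  induction m with
  | zero =>
    intro n hn
    rw [pow_zero] at hn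
    have : n = 1 := by
      by_contra h
      exact hn (ArithmeticFunction.one_apply_ne h)
    subst this
    simp
  | succ m ih =>
    intro n hn
    rw [pow_succ, ArithmeticFunction.mul_apply] at hn
    obtain ⟨⟨d, e⟩, hde, h1⟩ := Finset.exists_ne_zero_of_sum_ne_zero hn
    rw [Nat.mem_divisorsAntidiagonal] at hde
    obtain ⟨h2, h3⟩ := ih d (left_ne_zero_of_mul h1)
    obtain ⟨h4, h5⟩ := hb e (right_ne_zero_of_mul h1)
    rw [← hde.1, pow_succ, pow_succ]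
    exact ⟨Nat.mul_le_mul h2 h4, Nat.mul_le_mul h3 h5⟩

lemma dp_pow {b : ArithmeticFunction ℂ} {N Y : ℕ} (hb : ∀ n, b n ≠ 0 → N ≤ n ∧ n ≤ Y)
    (m : ℕ) (t : ℝ) :
    dp (fun n => (b ^ m) n) (Y ^ m) t = (dp (fun n => b n) Y t) ^ m := by
  have hb' : ∀ n, b n ≠ 0 → n ≤ Y := fun n hn => (hb n hn).2
  rw [dp_eq_LSeries (fun n hn => (pow_support hb m n hn).2), dp_eq_LSeries hb']
  induction m with
  | zero =>
    rw [pow_zero, pow_zero]
    have := LSeries_delta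
    have h1 : (fun n => (1 : ArithmeticFunction ℂ) n) = LSeries.delta := by
      ext n
      unfold LSeries.delta
      rw [ArithmeticFunction.one_apply]
    rw [h1, LSeries_delta]
    rfl
  | succ m ih =>
    rw [pow_succ, pow_succ, ← ih]
    exact ArithmeticFunction.LSeries_mul' (f := b ^ m) (g := b)
      (summable_af (fun n hn => (pow_support hb m n hn).2) _) (summable_af hb' _)

lemma pow_bound {b : ArithmeticFunction ℂ} {σ : ℝ} 
    (hb : ∀ n : ℕ, 1 ≤ n → ‖b n‖ ≤ (n.divisors.card : ℝ) * (n : ℝ) ^ (-σ)) (m : ℕ) :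
    ∀ n : ℕ, 1 ≤ n → ‖(b ^ m) n‖ ≤ (n.divisors.card : ℝ) ^ (2 * m) * (n : ℝ) ^ (-σ) := by
  induction m with
  | zero =>
    intro n hn
    rw [pow_zero]
    by_cases h : n = 1
    · subst h; simp
    · rw [ArithmeticFunction.one_apply_ne h, norm_zero]
      positivity
  | succ m ih =>
    intro n hn
    rw [pow_succ, ArithmeticFunction.mul_apply]
    have h1 : ∀ x ∈ n.divisorsAntidiagonal, ‖(b ^ m) x.1 * b x.2‖ ≤
        (n.divisors.card : ℝ) ^ (2 * m + 1) * (n : ℝ) ^ (-σ) := by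
      rintro ⟨d, e⟩ hx
      have hx' := hx
      rw [Nat.mem_divisorsAntidiagonal] at hx
      have hd : 1 ≤ d := Nat.pos_of_ne_zero fun h => hx.2 (by rw [← hx.1, h, zero_mul])
      have he : 1 ≤ e := Nat.pos_of_ne_zero fun h => hx.2 (by rw [← hx.1, h, mul_zero])
      have e1 := ih d hd
      have e2 := hb e he
      have c1 : (d.divisors.card : ℝ) ≤ n.divisors.card := by
        exact_mod_cast Finset.card_le_card (Nat.divisors_subset_of_dvd hx.2 ⟨e, hx.1.symm⟩)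
      have c2 : (e.divisors.card : ℝ) ≤ n.divisors.card := by
        exact_mod_cast Finset.card_le_card
          (Nat.divisors_subset_of_dvd hx.2 ⟨d, by rw [mul_comm]; exact hx.1.symm⟩)
      have e3 : (n : ℝ) ^ (-σ) = (d : ℝ) ^ (-σ) * (e : ℝ) ^ (-σ) := by
        rw [← hx.1]
        push_cast
        rw [Real.mul_rpow (by positivity) (by positivity)]
      rw [norm_mul, e3]
      calc ‖(b ^ m) d‖ * ‖b e‖ ≤ ((d.divisors.card : ℝ) ^ (2 * m) * (d : ℝ) ^ (-σ)) *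
            ((e.divisors.card : ℝ) * (e : ℝ) ^ (-σ)) := by gcongr
        _ ≤ ((n.divisors.card : ℝ) ^ (2 * m) * (d : ℝ) ^ (-σ)) *
            ((n.divisors.card : ℝ) * (e : ℝ) ^ (-σ)) := by gcongr
        _ = _ := by ring
    refine (norm_sum_le_of_le _ h1).trans ?_
    have hcard : n.divisorsAntidiagonal.card = n.divisors.card := by
      rw [← Nat.map_div_right_divisors, Finset.card_map]
    rw [Finset.sum_const, nsmul_eq_mul, hcard]
    apply le_of_eq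
    ring

theorem large_values {b : ArithmeticFunction ℂ} {N Y m N0 : ℕ} {σ V B : ℝ} (hN : 1 ≤ N)
    (hσ : 0 ≤ σ) (hV : 0 ≤ V) (hs : ∀ n, b n ≠ 0 → N ≤ n ∧ n ≤ Y)
    (hb : ∀ n : ℕ, 1 ≤ n → ‖b n‖ ≤ (n.divisors.card : ℝ) * (n : ℝ) ^ (-σ))
    (hB : ∀ n ∈ Finset.Icc 1 (Y ^ m), (n.divisors.card : ℝ) ^ (4 * m) ≤ B)
    (hB0 : 0 ≤ B)
    (S : Finset ℕ) (hS : S ⊆ Finset.range N0)
    (t : ℕ → ℝ) (ht : ∀ n ∈ S, t n ∈ Icc (n : ℝ) (n + 1))
    (hlarge : ∀ n ∈ S, V ≤ ‖dp (fun n => b n) Y (t n)‖) :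
    (S.card : ℝ) * V ^ (2 * m) ≤
      (2 + Real.log ((Y ^ m : ℕ) : ℝ) ^ 2) * (N0 + 8 * ((Y ^ m : ℕ) : ℝ) *
        (1 + Real.log ((Y ^ m : ℕ) : ℝ))) *
        (((Y ^ m : ℕ) : ℝ) * ((((N ^ m : ℕ) : ℝ)) ^ (-(2 * σ)) * B)) := by
  have h1 := discrete_mv (fun n => (b ^ m) n) (Y ^ m) N0 S hS t ht
  have h2 : (S.card : ℝ) * V ^ (2 * m) ≤ ∑ n ∈ S, ‖dp (fun n => (b ^ m) n) (Y ^ m) (t n)‖ ^ 2 := by
    rw [← nsmul_eq_mul]
    refine Finset.card_nsmul_le_sum _ _ _ fun n hn => ?_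
    rw [dp_pow hs, norm_pow, ← pow_mul, mul_comm m 2]
    gcongr
    exact hlarge n hn
  refine h2.trans (h1.trans ?_)
  have hlogY : 0 ≤ Real.log ((Y ^ m : ℕ) : ℝ) := Real.log_natCast_nonneg _
  gcongr
  -- sum of the squares of the coefficients
  have h3 : ∀ n ∈ Finset.Icc 1 (Y ^ m), ‖(b ^ m) n‖ ^ 2 ≤
      (((N ^ m : ℕ) : ℝ)) ^ (-(2 * σ)) * B := by
    intro n hn
    have hn' := hn
    rw [Finset.mem_Icc] at hn
    by_cases h0 : (b ^ m) n = 0
    · rw [h0, norm_zero]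
      simp only [ne_eq, OfNat.ofNat_ne_zero, not_false_eq_true, zero_pow]
      positivity
    · have h4 := pow_bound hb m n hn.1
      have h5 := (pow_support hs m n h0).1
      have hnr : (1 : ℝ) ≤ n := by exact_mod_cast hn.1
      have hNm : (0 : ℝ) < ((N ^ m : ℕ) : ℝ) := by positivity
      have h6 : ‖(b ^ m) n‖ ^ 2 ≤ ((n.divisors.card : ℝ) ^ (2 * m) * (n : ℝ) ^ (-σ)) ^ 2 := by
        gcongr
      refine h6.trans ?_
      have h9 : ((n : ℝ) ^ (-σ)) ^ 2 = (n : ℝ) ^ (-(2 * σ)) := by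
        rw [← Real.rpow_natCast, ← Real.rpow_mul (by positivity)]
        congr 1
        push_cast; ring
      rw [mul_pow, ← pow_mul, mul_comm (2 * m) 2, ← mul_assoc, show 2 * 2 = 4 by norm_num,
        h9, mul_comm]
      have h7 : (n : ℝ) ^ (-(2 * σ)) ≤ (((N ^ m : ℕ) : ℝ)) ^ (-(2 * σ)) :=
        Real.rpow_le_rpow_of_nonpos hNm (by exact_mod_cast h5) (by linarith)
      have h8 := hB n hn'
      gcongr
  refine (Finset.sum_le_sum h3).trans ?_
  rw [Finset.sum_const, Nat.card_Icc, nsmul_eq_mul]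
  simp

end DH31
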