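import Pool.Agent.H31R2.DH.Detect
import Pool.Agent.H31R2.DH.Pow

/-!
The number of unit intervals containing the height of a good zero.
-/

open Complex Metric MeasureTheory Set Filter Topology

namespace DH31

open ArithmeticFunction

lemma ev_log (c κ : ℝ) (A : ℕ) (hκ : 0 < κ) :
    ∀ᶠ T : ℝ in atTop, c * (Real.log T) ^ A ≤ T ^ κ := by
  have h := isLittleO_log_rpow_rpow_atTop (s := κ) (A : ℝ) hκ
  have h2 := h.bound (show (0 : ℝ) < 1 / (|c| + 1) by positivity)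
  filter_upwards [h2, eventually_ge_atTop 1] with T hT hT1
  have hlog : 0 ≤ Real.log T := Real.log_nonneg hT1
  rw [Real.rpow_natCast, Real.norm_of_nonneg (by positivity), Real.norm_of_nonneg (by positivity)] at hT
  calc c * (Real.log T) ^ A ≤ (|c| + 1) * (Real.log T) ^ A := by
        have := le_abs_self c
        gcongr
        linarith
    _ ≤ (|c| + 1) * (1 / (|c| + 1) * T ^ κ) := by gcongr
    _ = T ^ κ := by field_simp

lemma KK_le {δ η T : ℝ} (hδ : 0 < δ) (hη : 0 < η) (hT : 1 ≤ Real.log T) :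
    (KK δ η T : ℝ) ≤ (6 * η / δ + 2) * Real.log T := by
  unfold KK
  push_cast
  have h1 := (Nat.ceil_lt_add_one (show 0 ≤ 6 * η / δ * Real.log T by positivity)).le
  linarith

/-- the dyadic pieces of the detecting polynomials -/
noncomputable def bk (δ σ : ℝ) (k X Z j : ℕ) : ArithmeticFunction ℂ :=
  ⟨fun n => if n ∈ Finset.Ioc X Z ∧ Nat.log 2 n = j then bc δ σ k X n else 0, by
    simp⟩

lemma bk_apply (δ σ : ℝ) (k X Z j n : ℕ) :
    bk δ σ k X Z j n = if n ∈ Finset.Ioc X Z ∧ Nat.log 2 n = j then bc δ σ k X n else 0 := rfl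

lemma bk_support {δ σ : ℝ} {k X Z j : ℕ} :
    ∀ n, bk δ σ k X Z j n ≠ 0 → 2 ^ j ≤ n ∧ n ≤ 2 ^ (j + 1) := by
  intro n hn
  rw [bk_apply] at hn
  by_cases h : n ∈ Finset.Ioc X Z ∧ Nat.log 2 n = j
  · rw [Finset.mem_Ioc] at h
    obtain ⟨h1, rfl⟩ := h
    exact ⟨Nat.pow_log_le_self 2 (by omega), (Nat.lt_pow_succ_log_self (by norm_num) n).le⟩
  · rw [if_neg h] at hn; exact absurd rfl hn

lemma bc_norm_le {δ σ : ℝ} (hδ : 0 < δ) (hσ : σ ≤ 1) {k X n : ℕ} (hn : 1 ≤ n) :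
    ‖bc δ σ k X n‖ ≤ (n.divisors.card : ℝ) * (n : ℝ) ^ (-σ) := by
  have hn1 : (1 : ℝ) ≤ n := by exact_mod_cast hn
  have hlog : 0 ≤ Real.log n := Real.log_nonneg hn1
  have h2σ : 0 ≤ 1 + δ - σ := by linarith
  unfold bc
  rw [norm_mul, norm_mul, Complex.norm_real, Real.norm_of_nonneg (by positivity),
    Complex.norm_natCast_cpow_of_pos (by omega)]
  have h1 := Real.pow_div_factorial_le_exp ((1 + δ - σ) * Real.log n) (by positivity) k
  have h2 : Real.exp ((1 + δ - σ) * Real.log n) = (n : ℝ) ^ (1 + δ - σ) := by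
    rw [Real.rpow_def_of_pos (by linarith), mul_comm]
  rw [h2] at h1
  have h3 := aX_norm_le X n
  have h4 : (-((1 + δ : ℝ) : ℂ)).re = -(1 + δ) := by
    rw [Complex.neg_re, Complex.ofReal_re]
  rw [h4]
  calc ‖aX X n‖ * (((1 + δ - σ) * Real.log n) ^ k / k.factorial) * (n : ℝ) ^ (-(1 + δ) : ℝ)
      ≤ (n.divisors.card : ℝ) * (n : ℝ) ^ (1 + δ - σ) * (n : ℝ) ^ (-(1 + δ) : ℝ) := by gcongr
    _ = _ := by
      rw [mul_assoc, ← Real.rpow_add (by linarith)]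
      congr 2
      ring

lemma bk_norm_le {δ σ : ℝ} (hδ : 0 < δ) (hσ : σ ≤ 1) {k X Z j : ℕ} :
    ∀ n : ℕ, 1 ≤ n → ‖bk δ σ k X Z j n‖ ≤ (n.divisors.card : ℝ) * (n : ℝ) ^ (-σ) := by
  intro n hn
  rw [bk_apply]
  split_ifs
  · exact bc_norm_le hδ hσ hn
  · rw [norm_zero]; positivity

/-- decomposition into dyadic pieces -/
lemma dyadic {δ σ : ℝ} {k X Z J : ℕ} (hJ : Z < 2 ^ J) (t : ℝ) :
    ∑ n ∈ Finset.Ioc X Z, bc δ σ k X n * (n : ℂ) ^ (-(t : ℂ) * I) =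
      ∑ j ∈ Finset.range J, dp (fun n => bk δ σ k X Z j n) (2 ^ (j + 1)) t := by
  have hmaps : ∀ n ∈ Finset.Ioc X Z, Nat.log 2 n ∈ Finset.range J := by
    intro n hn
    rw [Finset.mem_Ioc] at hn
    rw [Finset.mem_range]
    exact Nat.log_lt_of_lt_pow (by omega) (by omega)
  rw [← Finset.sum_fiberwise_of_maps_to hmaps]
  refine Finset.sum_congr rfl fun j _ => ?_
  unfold dp
  symm
  rw [Finset.sum_filter]
  have h1 : ∀ n ∈ Finset.Icc 1 (2 ^ (j + 1)), bk δ σ k X Z j n * (n : ℂ) ^ (-(t : ℂ) * I) =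
      if n ∈ Finset.Ioc X Z ∧ Nat.log 2 n = j then bc δ σ k X n * (n : ℂ) ^ (-(t : ℂ) * I) else 0 := by
    intro n _
    rw [bk_apply]
    split_ifs <;> simp
  rw [Finset.sum_congr rfl h1, ← Finset.sum_filter, ← Finset.sum_filter]
  refine Finset.sum_congr ?_ fun _ _ => rfl
  ext n
  simp only [Finset.mem_filter, Finset.mem_Icc, Finset.mem_Ioc]
  constructor
  · rintro ⟨_, h2, h3⟩
    exact ⟨h2, h3⟩
  · rintro ⟨h2, h3⟩
    refine ⟨⟨by omega, ?_⟩, h2, h3⟩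
    have := Nat.lt_pow_succ_log_self (show 1 < 2 by norm_num) n
    rw [h3] at this
    exact this.le

/-- count of the large values of one dyadic piece -/
theorem block {κ δ η : ℝ} {q : ℕ} (hκ : 0 < κ) (hκ1 : κ ≤ 1) (hδ : 0 < δ) (hη : 0 < η)
    (hηκ : q * (6 * η / δ) ≤ κ / 2) :
    ∃ C : ℝ, 0 < C ∧ ∃ T0 : ℝ, ∀ T : ℝ, T0 ≤ T → ∀ σ : ℝ, 1 / 2 ≤ σ → σ ≤ 1 → ∀ k j N0 : ℕ,
      (N0 : ℝ) ≤ 2 * T → ∀ S : Finset ℕ, S ⊆ Finset.range N0 → ∀ t : ℕ → ℝ,
      (∀ n ∈ S, t n ∈ Icc (n : ℝ) (n + 1)) →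
      (∀ n ∈ S, 1 / (2 * (q + 1) * (KK δ η T : ℝ) ^ 2) ≤
        ‖dp (fun n => bk δ σ k ⌊T ^ η⌋₊ (2 ^ (q * KK δ η T)) j n) (2 ^ (j + 1)) (t n)‖) →
      (S.card : ℝ) ≤ C * T ^ (2 - 2 * σ + 6 * κ) := by
  -- bound for the power
  set m0 : ℕ := ⌈2 / η⌉₊ + 1 with hm0
  have hm01 : 1 ≤ m0 := by omega
  have hm0r : (1 : ℝ) ≤ m0 := by exact_mod_cast hm01
  obtain ⟨Cd, hCd1, hCd⟩ := div_bound (ε := κ / (4 * m0)) (by positivity)
  have ev1 := ev_log ((2 * (q + 1) * (6 * η / δ + 2) ^ 2) ^ (2 * m0)) κ (4 * m0) hκ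
  have ev2 := ev_log (2 + (m0 + 2 : ℝ) ^ 2) κ 2 hκ
  have ev3 := ev_log (1 + (m0 + 2 : ℝ)) κ 1 hκ
  have ev4 : ∀ᶠ T : ℝ in atTop, Real.exp (2 * q) ≤ T ^ (κ / 2) :=
    (tendsto_rpow_atTop (show 0 < κ / 2 by positivity)).eventually_ge_atTop _
  have ev5 : ∀ᶠ T : ℝ in atTop, 4 ≤ T ^ (η / 2) :=
    (tendsto_rpow_atTop (show 0 < η / 2 by positivity)).eventually_ge_atTop _
  have ev6 : ∀ᶠ T : ℝ in atTop, 1 ≤ Real.log T := Real.tendsto_log_atTop.eventually_ge_atTop _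
  obtain ⟨T0, hT0⟩ := Filter.eventually_atTop.1 (((ev1.and ev2).and (ev3.and ev4)).and
    ((ev5.and ev6).and (eventually_ge_atTop (1 : ℝ))))
  refine ⟨(2 + 8 * 2 ^ m0) * 2 ^ m0 * (Cd ^ (4 * m0) * 2 ^ m0), by positivity, T0, ?_⟩
  intro T hT σ hσ1 hσ2 k j N0 hN0 S hS t ht hlarge
  obtain ⟨⟨⟨e1, e2⟩, ⟨e3, e4⟩⟩, ⟨⟨e5, e6⟩, e7⟩⟩ := hT0 T hT
  set X := ⌊T ^ η⌋₊ with hX
  set K := KK δ η T with hK
  set Z := 2 ^ (q * K) with hZ
  have hTpos : 0 < T := by linarith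
  rcases S.eq_empty_or_nonempty with rfl | ⟨n0, hn0⟩
  · simp only [Finset.card_empty, Nat.cast_zero]
    positivity
  have hK1 : 1 ≤ K := by rw [hK]; unfold KK; omega
  have hK1r : (1 : ℝ) ≤ K := by exact_mod_cast hK1
  have hKle : (K : ℝ) ≤ (6 * η / δ + 2) * Real.log T := KK_le hδ hη e6
  set V : ℝ := 1 / (2 * (q + 1) * (K : ℝ) ^ 2) with hV
  have hVpos : 0 < V := by positivity
  -- there is a nonzero coefficient
  have hne : ∃ n, bk δ σ k X Z j n ≠ 0 := by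
    by_contra hcon
    push Not at hcon
    have h1 := hlarge n0 hn0
    unfold dp at h1
    simp only [hcon, zero_mul, Finset.sum_const_zero, norm_zero] at h1
    linarith
  obtain ⟨n1, hn1⟩ := hne
  have hn1s := bk_support n1 hn1
  have hn1i : X < n1 ∧ n1 ≤ Z := by
    rw [bk_apply] at hn1
    by_contra hcon
    apply hn1
    rw [if_neg]
    rw [Finset.mem_Ioc]
    tauto
  set N : ℕ := 2 ^ j with hN
  have hY : 2 ^ (j + 1) = 2 * N := by rw [pow_succ, hN]; ring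
  have hN1 : 1 ≤ N := Nat.one_le_two_pow
  have hNr : (1 : ℝ) ≤ N := by exact_mod_cast hN1
  -- Z is small
  have hZsmall : (Z : ℝ) ≤ T ^ κ := by
    have h1 : (Z : ℝ) ≤ Real.exp (q * K) := by
      rw [hZ]
      push_cast
      have h2 : (2 : ℝ) ≤ Real.exp 1 := by
        have h3 : (2.7182818283 : ℝ) ≤ Real.exp 1 := Real.exp_one_gt_d9.le
        linarith
      calc (2 : ℝ) ^ (q * K) ≤ (Real.exp 1) ^ (q * K) := by gcongr
        _ = Real.exp (q * K) := by rw [← Real.exp_nat_mul]; push_cast; ring_nf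
    have h5 : (K : ℝ) ≤ 6 * η / δ * Real.log T + 2 := by
      have h1 := (Nat.ceil_lt_add_one (show 0 ≤ 6 * η / δ * Real.log T by positivity)).le
      rw [hK]; unfold KK; push_cast; linarith
    have h6 : q * (K : ℝ) ≤ κ / 2 * Real.log T + 2 * q := by
      have h7 : q * (6 * η / δ) * Real.log T ≤ κ / 2 * Real.log T := by gcongr
      have h8 : q * (K : ℝ) ≤ q * (6 * η / δ * Real.log T + 2) := by gcongr
      linarith
    calc (Z : ℝ) ≤ Real.exp (q * K) := h1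
      _ ≤ Real.exp (κ / 2 * Real.log T + 2 * q) := Real.exp_le_exp.2 h6
      _ = T ^ (κ / 2) * Real.exp (2 * q) := by
        rw [Real.exp_add, Real.rpow_def_of_pos hTpos, mul_comm (κ / 2)]
      _ ≤ T ^ (κ / 2) * T ^ (κ / 2) := by gcongr
      _ = T ^ κ := by rw [← Real.rpow_add hTpos]; congr 1; ring
  -- N is large
  have hNlarge : T ^ (η / 2) ≤ N := by
    have h1 : T ^ η < X + 1 := Nat.lt_floor_add_one _
    have h2 : (X : ℝ) + 1 ≤ 2 * N := by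
      have : X + 1 ≤ 2 * N := by omega
      exact_mod_cast this
    have h3 : T ^ η = T ^ (η / 2) * T ^ (η / 2) := by
      rw [← Real.rpow_add hTpos]; congr 1; ring
    have h4 : 4 * T ^ (η / 2) ≤ T ^ (η / 2) * T ^ (η / 2) := by gcongr
    have h5 : 0 < T ^ (η / 2) := by positivity
    linarith
  have hlogN : η / 2 * Real.log T ≤ Real.log N := by
    rw [← Real.log_rpow hTpos]
    exact Real.log_le_log (by positivity) hNlarge
  have hlogNpos : 0 < Real.log N := lt_of_lt_of_le (by positivity) hlogN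
  -- the power
  set m : ℕ := ⌈Real.log T / Real.log N⌉₊ with hm
  have hm1 : Real.log T / Real.log N ≤ m := Nat.le_ceil _
  have hm2 : (m : ℝ) ≤ Real.log T / Real.log N + 1 :=
    (Nat.ceil_lt_add_one (by positivity)).le
  have hmm0 : m ≤ m0 := by
    have h1 : Real.log T / Real.log N ≤ 2 / η := by
      rw [div_le_div_iff₀ hlogNpos hη]
      linarith
    rw [hm, hm0]
    exact (Nat.ceil_le_ceil h1).trans (by omega)
  have hNm1 : T ≤ (N : ℝ) ^ m := by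
    rw [div_le_iff₀ hlogNpos] at hm1
    calc T = Real.exp (Real.log T) := (Real.exp_log hTpos).symm
      _ ≤ Real.exp (m * Real.log N) := Real.exp_le_exp.2 hm1
      _ = (N : ℝ) ^ m := by rw [Real.exp_nat_mul, Real.exp_log (by linarith)]
  have hNm2 : (N : ℝ) ^ m ≤ T * N := by
    calc (N : ℝ) ^ m = Real.exp (m * Real.log N) := by
          rw [Real.exp_nat_mul, Real.exp_log (by linarith)]
      _ ≤ Real.exp ((Real.log T / Real.log N + 1) * Real.log N) := by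
          apply Real.exp_le_exp.2; gcongr
      _ = T * N := by
          rw [add_mul, one_mul, div_mul_cancel₀ _ hlogNpos.ne', Real.exp_add, Real.exp_log hTpos,
            Real.exp_log (by linarith)]
  have hNZ : (N : ℝ) ≤ T ^ κ := by
    refine le_trans ?_ hZsmall
    have : N ≤ Z := hn1s.1.trans hn1i.2
    exact_mod_cast this
  -- size of Y^m
  set Ym : ℝ := (((2 * N) ^ m : ℕ) : ℝ) with hYm
  have hYm_eq : Ym = 2 ^ m * (N : ℝ) ^ m := by rw [hYm]; push_cast; rw [mul_pow]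
  have hYm1 : 1 ≤ Ym := by
    rw [hYm_eq]
    have h1 : (1 : ℝ) ≤ 2 ^ m := one_le_pow₀ (by norm_num)
    have h2 : (1 : ℝ) ≤ (N : ℝ) ^ m := one_le_pow₀ hNr
    nlinarith
  have h2m : (2 : ℝ) ^ m ≤ 2 ^ m0 := pow_le_pow_right₀ (by norm_num) hmm0
  have hYm2 : Ym ≤ 2 ^ m0 * T ^ (1 + κ) := by
    rw [hYm_eq, Real.rpow_add hTpos, Real.rpow_one]
    calc (2 : ℝ) ^ m * (N : ℝ) ^ m ≤ 2 ^ m0 * (T * N) := by gcongr
      _ ≤ 2 ^ m0 * (T * T ^ κ) := by gcongr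
  have hlogYm : Real.log Ym ≤ (m0 + 2) * Real.log T := by
    calc Real.log Ym ≤ Real.log (2 ^ m0 * T ^ (1 + κ)) := Real.log_le_log (by linarith) hYm2
      _ = m0 * Real.log 2 + (1 + κ) * Real.log T := by
          rw [Real.log_mul (by positivity) (by positivity), Real.log_pow, Real.log_rpow hTpos]
      _ ≤ (m0 + 2) * Real.log T := by
          have h1 : Real.log 2 ≤ 1 := by have := Real.log_two_lt_d9; linarith
          have h2 : (m0 : ℝ) * Real.log 2 ≤ m0 * Real.log T :=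
            mul_le_mul_of_nonneg_left (h1.trans e6) (by positivity)
          nlinarith
  have hlogYm0 : 0 ≤ Real.log Ym := Real.log_nonneg hYm1
  have hP2 : 2 + Real.log Ym ^ 2 ≤ T ^ κ := by
    refine le_trans ?_ e2
    have h1 : Real.log Ym ^ 2 ≤ ((m0 + 2) * Real.log T) ^ 2 := by gcongr
    have h2 : (1 : ℝ) ≤ Real.log T ^ 2 := one_le_pow₀ e6
    rw [mul_pow] at h1
    nlinarith
  have hP3 : 1 + Real.log Ym ≤ T ^ κ := by
    refine le_trans ?_ e3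
    rw [pow_one]
    nlinarith
  -- the divisor bound
  set B : ℝ := Cd ^ (4 * m0) * Ym ^ κ with hB
  have hB0 : 0 ≤ B := by positivity
  have hBn : ∀ n ∈ Finset.Icc 1 ((2 * N) ^ m), (n.divisors.card : ℝ) ^ (4 * m) ≤ B := by
    intro n hn
    rw [Finset.mem_Icc] at hn
    have hnr : (1 : ℝ) ≤ n := by exact_mod_cast hn.1
    have h1 := hCd n hn.1
    have hx1 : 1 ≤ Cd * (n : ℝ) ^ (κ / (4 * m0)) := by
      have : 1 ≤ (n : ℝ) ^ (κ / (4 * m0)) := Real.one_le_rpow hnr (by positivity)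
      nlinarith
    calc (n.divisors.card : ℝ) ^ (4 * m) ≤ (Cd * (n : ℝ) ^ (κ / (4 * m0))) ^ (4 * m) := by gcongr
      _ ≤ (Cd * (n : ℝ) ^ (κ / (4 * m0))) ^ (4 * m0) := pow_le_pow_right₀ hx1 (by omega)
      _ = Cd ^ (4 * m0) * (n : ℝ) ^ κ := by
          rw [mul_pow, ← Real.rpow_natCast ((n : ℝ) ^ (κ / (4 * m0))), ← Real.rpow_mul (by positivity)]
          congr 2
          push_cast
          field_simp
      _ ≤ B := by
          rw [hB]
          have : (n : ℝ) ≤ Ym := by rw [hYm]; exact_mod_cast hn.2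
          gcongr
  -- apply the large values estimate
  have hlv := large_values (b := bk δ σ k X Z j) (N := N) (Y := 2 * N) (m := m) (N0 := N0) (σ := σ)
    (V := V) (B := B) hN1 (by linarith) hVpos.le
    (fun n hn => by
      have := bk_support n hn
      rw [hY] at this
      exact this)
    (bk_norm_le hδ hσ2) hBn hB0 S hS t ht
    (fun n hn => by
      have := hlarge n hn
      rw [hY] at this
      exact this)
  rw [← hYm] at hlv
  -- V
  have hVm : 1 ≤ T ^ κ * V ^ (2 * m) := by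
    have h1 : 1 / V = 2 * (q + 1) * (K : ℝ) ^ 2 := by rw [hV]; field_simp
    have h2 : (1 / V) ^ (2 * m) ≤ T ^ κ := by
      rw [h1]
      have h0 : 1 ≤ 2 * ((q : ℝ) + 1) * (K : ℝ) ^ 2 := by
        have a1 : (0 : ℝ) ≤ q := by positivity
        have a2 : (1 : ℝ) ≤ (K : ℝ) ^ 2 := one_le_pow₀ hK1r
        nlinarith
      have h3 : (2 * ((q : ℝ) + 1) * (K : ℝ) ^ 2) ^ (2 * m) ≤
          (2 * ((q : ℝ) + 1) * (K : ℝ) ^ 2) ^ (2 * m0) :=
        pow_le_pow_right₀ h0 (by omega)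
      refine h3.trans (le_trans ?_ e1)
      calc (2 * ((q : ℝ) + 1) * (K : ℝ) ^ 2) ^ (2 * m0) ≤
            (2 * ((q : ℝ) + 1) * ((6 * η / δ + 2) * Real.log T) ^ 2) ^ (2 * m0) := by gcongr
        _ = (2 * (q + 1) * (6 * η / δ + 2) ^ 2) ^ (2 * m0) * Real.log T ^ (4 * m0) := by
            rw [mul_pow (6 * η / δ + 2), ← mul_assoc, mul_pow, ← pow_mul]
            congr 2
            ring
    rw [one_div, inv_pow] at h2
    have h3 : 0 < V ^ (2 * m) := by positivity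
    rwa [inv_le_iff_one_le_mul₀ h3] at h2
  -- first factor
  have hYB : Ym * ((((N ^ m : ℕ) : ℝ)) ^ (-(2 * σ)) * B) ≤
      2 ^ m0 * T ^ (1 - 2 * σ) * (Cd ^ (4 * m0) * (2 ^ m0 * T ^ (2 * κ))) := by
    have h1 : Ym * (((N ^ m : ℕ) : ℝ)) ^ (-(2 * σ)) ≤ 2 ^ m0 * T ^ (1 - 2 * σ) := by
      rw [hYm_eq]
      push_cast
      have hNm0 : 0 < (N : ℝ) ^ m := by positivity
      have h2 : (N : ℝ) ^ m * ((N : ℝ) ^ m) ^ (-(2 * σ)) = ((N : ℝ) ^ m) ^ (1 - 2 * σ) := by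
        rw [sub_eq_add_neg, Real.rpow_add hNm0, Real.rpow_one]
      calc 2 ^ m * (N : ℝ) ^ m * ((N : ℝ) ^ m) ^ (-(2 * σ))
          = 2 ^ m * ((N : ℝ) ^ m) ^ (1 - 2 * σ) := by rw [mul_assoc, h2]
        _ ≤ 2 ^ m0 * T ^ (1 - 2 * σ) := by
            have h3 := Real.rpow_le_rpow_of_nonpos hTpos hNm1 (show 1 - 2 * σ ≤ 0 by linarith)
            gcongr
    have h4 : B ≤ Cd ^ (4 * m0) * (2 ^ m0 * T ^ (2 * κ)) := by
      rw [hB]
      have h5 : Ym ^ κ ≤ 2 ^ m0 * T ^ (2 * κ) := by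
        calc Ym ^ κ ≤ (2 ^ m0 * T ^ (1 + κ)) ^ κ := by gcongr
          _ = (2 ^ m0) ^ κ * T ^ ((1 + κ) * κ) := by
              rw [Real.mul_rpow (by positivity) (by positivity), ← Real.rpow_mul hTpos.le]
          _ ≤ 2 ^ m0 * T ^ (2 * κ) := by
              have h6 : ((2 : ℝ) ^ m0) ^ κ ≤ 2 ^ m0 := by
                have : (1 : ℝ) ≤ 2 ^ m0 := one_le_pow₀ (by norm_num)
                calc ((2 : ℝ) ^ m0) ^ κ ≤ ((2 : ℝ) ^ m0) ^ (1 : ℝ) :=
                      Real.rpow_le_rpow_of_exponent_le this hκ1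
                  _ = _ := Real.rpow_one _
              have h7 : T ^ ((1 + κ) * κ) ≤ T ^ (2 * κ) :=
                Real.rpow_le_rpow_of_exponent_le e7 (by nlinarith)
              gcongr
      gcongr
    rw [← mul_assoc]
    have h8 : 0 ≤ Ym * (((N ^ m : ℕ) : ℝ)) ^ (-(2 * σ)) := by positivity
    exact mul_le_mul h1 h4 hB0 (by positivity)
  have hmid : (N0 : ℝ) + 8 * Ym * (1 + Real.log Ym) ≤ (2 + 8 * 2 ^ m0) * T ^ (1 + 2 * κ) := by
    have h1 : 8 * Ym * (1 + Real.log Ym) ≤ 8 * (2 ^ m0 * T ^ (1 + κ)) * T ^ κ := by gcongr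
    have h2 : 8 * (2 ^ m0 * T ^ (1 + κ)) * T ^ κ = 8 * 2 ^ m0 * T ^ (1 + 2 * κ) := by
      have : T ^ (1 + 2 * κ) = T ^ (1 + κ) * T ^ κ := by
        rw [← Real.rpow_add hTpos]; congr 1; ring
      rw [this]; ring
    have h3 : T ≤ T ^ (1 + 2 * κ) := by
      calc T = T ^ (1 : ℝ) := (Real.rpow_one T).symm
        _ ≤ _ := Real.rpow_le_rpow_of_exponent_le e7 (by linarith)
    rw [h2] at h1
    linarith
  -- conclusion
  have hcard : (S.card : ℝ) ≤ T ^ κ * ((S.card : ℝ) * V ^ (2 * m)) := by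
    have h1 : (0 : ℝ) ≤ S.card := by positivity
    calc (S.card : ℝ) = S.card * 1 := (mul_one _).symm
      _ ≤ S.card * (T ^ κ * V ^ (2 * m)) := by gcongr
      _ = _ := by ring
  have hfin : (2 + Real.log Ym ^ 2) * (N0 + 8 * Ym * (1 + Real.log Ym)) *
        (Ym * ((((N ^ m : ℕ) : ℝ)) ^ (-(2 * σ)) * B)) ≤
      T ^ κ * ((2 + 8 * 2 ^ m0) * T ^ (1 + 2 * κ)) *
        (2 ^ m0 * T ^ (1 - 2 * σ) * (Cd ^ (4 * m0) * (2 ^ m0 * T ^ (2 * κ)))) := by
    have h0 : 0 ≤ (N0 : ℝ) + 8 * Ym * (1 + Real.log Ym) := by positivity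
    have h00 : 0 ≤ Ym * ((((N ^ m : ℕ) : ℝ)) ^ (-(2 * σ)) * B) := by positivity
    gcongr
  calc (S.card : ℝ) ≤ T ^ κ * ((S.card : ℝ) * V ^ (2 * m)) := hcard
    _ ≤ T ^ κ * (T ^ κ * ((2 + 8 * 2 ^ m0) * T ^ (1 + 2 * κ)) *
        (2 ^ m0 * T ^ (1 - 2 * σ) * (Cd ^ (4 * m0) * (2 ^ m0 * T ^ (2 * κ))))) := by
        exact mul_le_mul_of_nonneg_left (hlv.trans hfin) (by positivity)
    _ = (2 + 8 * 2 ^ m0) * 2 ^ m0 * (Cd ^ (4 * m0) * 2 ^ m0) *
        (T ^ κ * T ^ κ * T ^ (1 + 2 * κ) * T ^ (1 - 2 * σ) * T ^ (2 * κ)) := by ring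
    _ = _ := by
        rw [← Real.rpow_add hTpos, ← Real.rpow_add hTpos, ← Real.rpow_add hTpos,
          ← Real.rpow_add hTpos]
        congr 2
        ring

end DH31
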