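import Pool.Agent.H31R2.DH.CountA

/-!
The number of unit intervals containing the height of a good zero.
-/

open Complex Metric MeasureTheory Set Filter Topology

namespace DH31

theorem count_a {δ ε : ℝ} (hδ : 0 < δ) (hδ1 : δ ≤ 1 / 12) (hε : 0 < ε) :
    ∃ η : ℝ, 0 < η ∧ ∃ C : ℝ, 0 < C ∧ ∃ T0 : ℝ, ∀ T : ℝ, T0 ≤ T → ∀ σ : ℝ, 1 / 2 ≤ σ → σ ≤ 1 →
      ∀ S : Finset ℕ, ∀ ρ : ℕ → ℂ,
      (∀ n ∈ S, riemannZeta (ρ n) = 0 ∧ 3 ≤ (ρ n).im ∧ (ρ n).im ≤ T ∧ σ ≤ (ρ n).re ∧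
        (ρ n).re ≤ 1 ∧ (ρ n).im ∈ Icc (n : ℝ) (n + 1) ∧
        ∀ z ∈ closedBall (⟨1 + δ, (ρ n).im⟩ : ℂ) (1 + δ - (ρ n).re + δ), ‖riemannZeta z‖ ≤ T ^ η) →
      (S.card : ℝ) ≤ C * T ^ (2 * (1 - σ) + ε) := by
  set κ : ℝ := min 1 (ε / 7) with hκdef
  have hκ : 0 < κ := lt_min one_pos (by positivity)
  have hκ1 : κ ≤ 1 := min_le_left _ _
  have hκε : 7 * κ ≤ ε := by
    have : κ ≤ ε / 7 := min_le_right _ _
    linarith
  obtain ⟨q, hdet0⟩ := detect hδ hδ1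
  set η : ℝ := κ * δ / (12 * (q + 1)) with hηdef
  have hη : 0 < η := by positivity
  have hηκ : q * (6 * η / δ) ≤ κ / 2 := by
    have h1 : 6 * η / δ = κ / (2 * (q + 1)) := by
      rw [hηdef]
      field_simp
      norm_num
    rw [h1, mul_div_assoc', div_le_div_iff₀ (by positivity) (by norm_num)]
    have : (0 : ℝ) ≤ q := by positivity
    nlinarith
  obtain ⟨T1, hT1, hdet⟩ := hdet0 η hη
  obtain ⟨C, hC, T2, hblock⟩ := block hκ hκ1 hδ hη hηκ
  have ev1 := ev_log ((q + 1) * (6 * η / δ + 2) ^ 2) κ 2 hκ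
  have ev2 : ∀ᶠ T : ℝ in atTop, 1 ≤ Real.log T := Real.tendsto_log_atTop.eventually_ge_atTop _
  obtain ⟨T3, hT3⟩ := Filter.eventually_atTop.1 (ev1.and ev2)
  refine ⟨η, hη, C, hC, max (max T1 T2) T3, ?_⟩
  intro T hT σ hσ1 hσ2 S ρ hS
  have hTT1 : T1 ≤ T := (le_max_left _ _).trans ((le_max_left _ _).trans hT)
  have hTT2 : T2 ≤ T := (le_max_right _ _).trans ((le_max_left _ _).trans hT)
  obtain ⟨e1, e2⟩ := hT3 T ((le_max_right _ _).trans hT)
  have hT1' : 1 ≤ T := hT1.trans hTT1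
  have hTpos : 0 < T := by linarith
  set K := KK δ η T with hK
  have hK1 : 1 ≤ K := by rw [hK]; unfold KK; omega
  have hK1r : (1 : ℝ) ≤ K := by exact_mod_cast hK1
  have hKle : (K : ℝ) ≤ (6 * η / δ + 2) * Real.log T := KK_le hδ hη e2
  set X := ⌊T ^ η⌋₊ with hX
  set Z := 2 ^ (q * K) with hZ
  have hZJ : Z < 2 ^ ((q + 1) * K) := by
    rw [hZ]
    exact Nat.pow_lt_pow_right (by norm_num) (by nlinarith)
  set N0 : ℕ := ⌊T⌋₊ + 1 with hN0
  have hN0T : (N0 : ℝ) ≤ 2 * T := by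
    rw [hN0]; push_cast
    have := Nat.floor_le hTpos.le
    linarith
  have hSN0 : S ⊆ Finset.range N0 := by
    intro n hn
    obtain ⟨-, -, h3, -, -, h6, -⟩ := hS n hn
    rw [Finset.mem_range, hN0, Nat.lt_succ_iff]
    exact Nat.le_floor (h6.1.trans h3)
  classical
  -- the pieces
  let Skj : ℕ → ℕ → Finset ℕ := fun k j => S.filter fun n =>
    1 / (2 * (q + 1) * (K : ℝ) ^ 2) ≤ ‖dp (fun n => bk δ σ k X Z j n) (2 ^ (j + 1)) (ρ n).im‖
  have hcover : S ⊆ (Finset.range K).biUnion fun k => (Finset.range ((q + 1) * K)).biUnion fun j =>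
      Skj k j := by
    intro n hn
    obtain ⟨h1, h2, h3, h4, h5, h6, h7⟩ := hS n hn
    obtain ⟨k, hk, hdk⟩ := hdet T hTT1 (ρ n) h1 h2 σ hσ1 h4 h5 h7
    have hdk' : 1 / (2 * (K : ℝ)) ≤ ‖∑ j ∈ Finset.range ((q + 1) * K),
        dp (fun n => bk δ σ k X Z j n) (2 ^ (j + 1)) (ρ n).im‖ := by
      rw [← dyadic hZJ]
      exact hdk
    have hex : ∃ j < (q + 1) * K, 1 / (2 * (q + 1) * (K : ℝ) ^ 2) ≤
        ‖dp (fun n => bk δ σ k X Z j n) (2 ^ (j + 1)) (ρ n).im‖ := by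
      by_contra hcon
      push Not at hcon
      have h8 : ‖∑ j ∈ Finset.range ((q + 1) * K),
        dp (fun n => bk δ σ k X Z j n) (2 ^ (j + 1)) (ρ n).im‖ < 1 / (2 * (K : ℝ)) := by
        calc _ ≤ ∑ j ∈ Finset.range ((q + 1) * K),
              ‖dp (fun n => bk δ σ k X Z j n) (2 ^ (j + 1)) (ρ n).im‖ := norm_sum_le _ _
          _ < ∑ j ∈ Finset.range ((q + 1) * K), 1 / (2 * (q + 1) * (K : ℝ) ^ 2) := by
            refine Finset.sum_lt_sum_of_nonempty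
              ⟨0, Finset.mem_range.2 (Nat.mul_pos (by omega) (by omega))⟩ fun j hj => ?_
            exact hcon j (Finset.mem_range.1 hj)
          _ = 1 / (2 * (K : ℝ)) := by
            rw [Finset.sum_const, Finset.card_range, nsmul_eq_mul]
            push_cast
            have : (K : ℝ) ≠ 0 := by positivity
            field_simp
      linarith
    obtain ⟨j, hj, hdj⟩ := hex
    simp only [Finset.mem_biUnion, Finset.mem_range]
    exact ⟨k, hk, j, hj, Finset.mem_filter.2 ⟨hn, hdj⟩⟩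
  have hbd : ∀ k j, ((Skj k j).card : ℝ) ≤ C * T ^ (2 - 2 * σ + 6 * κ) := by
    intro k j
    refine hblock T hTT2 σ hσ1 hσ2 k j N0 hN0T (Skj k j)
      ((Finset.filter_subset _ _).trans hSN0) (fun n => (ρ n).im) ?_ ?_
    · intro n hn
      exact (hS n (Finset.mem_filter.1 hn).1).2.2.2.2.2.1
    · intro n hn
      exact (Finset.mem_filter.1 hn).2
  have hcard : (S.card : ℝ) ≤ (K : ℝ) * (((q + 1) * K : ℕ) * (C * T ^ (2 - 2 * σ + 6 * κ))) := by
    calc (S.card : ℝ) ≤ (((Finset.range K).biUnion fun k => (Finset.range ((q + 1) * K)).biUnion fun j =>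
          Skj k j).card : ℝ) := by exact_mod_cast Finset.card_le_card hcover
      _ ≤ ∑ k ∈ Finset.range K, ∑ j ∈ Finset.range ((q + 1) * K), ((Skj k j).card : ℝ) := by
          have h1 : (((Finset.range K).biUnion fun k => (Finset.range ((q + 1) * K)).biUnion fun j =>
            Skj k j).card) ≤ ∑ k ∈ Finset.range K, ∑ j ∈ Finset.range ((q + 1) * K), (Skj k j).card :=
            (Finset.card_biUnion_le).trans (Finset.sum_le_sum fun k _ => Finset.card_biUnion_le)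
          exact_mod_cast h1
      _ ≤ ∑ k ∈ Finset.range K, ∑ j ∈ Finset.range ((q + 1) * K), C * T ^ (2 - 2 * σ + 6 * κ) :=
          Finset.sum_le_sum fun k _ => Finset.sum_le_sum fun j _ => hbd k j
      _ = _ := by
          rw [Finset.sum_const, Finset.sum_const, Finset.card_range, Finset.card_range,
            nsmul_eq_mul, nsmul_eq_mul]
  have hK2 : (q + 1) * (K : ℝ) ^ 2 ≤ T ^ κ := by
    refine le_trans ?_ e1
    calc (q + 1) * (K : ℝ) ^ 2 ≤ (q + 1) * ((6 * η / δ + 2) * Real.log T) ^ 2 := by gcongr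
      _ = _ := by ring
  calc (S.card : ℝ) ≤ (K : ℝ) * (((q + 1) * K : ℕ) * (C * T ^ (2 - 2 * σ + 6 * κ))) := hcard
    _ = ((q + 1) * (K : ℝ) ^ 2) * (C * T ^ (2 - 2 * σ + 6 * κ)) := by push_cast; ring
    _ ≤ T ^ κ * (C * T ^ (2 - 2 * σ + 6 * κ)) := by gcongr
    _ = C * T ^ (2 - 2 * σ + 7 * κ) := by
        rw [mul_left_comm, ← Real.rpow_add hTpos]
        congr 2
        ring
    _ ≤ C * T ^ (2 * (1 - σ) + ε) := by
        have : 2 - 2 * σ + 7 * κ ≤ 2 * (1 - σ) + ε := by linarith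
        have := Real.rpow_le_rpow_of_exponent_le hT1' this
        gcongr

end DH31
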