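import Pool.Agent.H31R2.DH.BackZeta
import Pool.Agent.H31R2.DH.Circ
import Pool.Agent.H31R2.DH.CountA

/-!
Zeta is small near the line `Re s = 1`.
-/

open Complex Metric MeasureTheory Set Filter Topology

namespace DH31

lemma three_pow_sum (K : ℕ) : ∑ n ∈ Finset.range K, (3:ℝ) ^ n ≤ 3 ^ K := by
  induction K with
  | zero => simp
  | succ k ih =>
    rw [Finset.sum_range_succ, pow_succ]
    have : (0:ℝ) < 3 ^ k := by positivity
    linarith

lemma near_one {η : ℝ} (hη : 0 < η) : ∃ κ : ℝ, 0 < κ ∧ ∃ T0 : ℝ, 2 ≤ T0 ∧ ∀ T : ℝ, T0 ≤ T →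
    ∀ z : ℂ, 1 - κ ≤ z.re → 2 ≤ z.im → z.im ≤ T + 5 → ‖riemannZeta z‖ ≤ T ^ η := by
  set κ : ℝ := Real.exp (-(8 / η)) / 12 with hκ
  have hκ0 : 0 < κ := by positivity
  have he : Real.exp (-(8 / η)) ≤ 1 := Real.exp_le_one_iff.2 (by
    have : 0 < 8 / η := by positivity
    linarith)
  have hκ1 : κ ≤ 1 / 12 := by rw [hκ]; linarith
  obtain ⟨A, hA1, hA⟩ := zeta_bounds (a := 1 + κ) (by linarith)
  have hA0 : 0 < A := by linarith
  have ev1 : ∀ᶠ T : ℝ in atTop, A * Real.exp 2 + 2 ≤ T ^ (η / 2) :=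
    (tendsto_rpow_atTop (by positivity : 0 < η / 2)).eventually_ge_atTop _
  obtain ⟨T1, hT1⟩ := Filter.eventually_atTop.1 ev1
  refine ⟨κ, hκ0, max T1 60, le_max_of_le_right (by norm_num), ?_⟩
  intro T hT z hz1 hz2 hz3
  have hTT1 := hT1 T ((le_max_left _ _).trans hT)
  have hT60 : 60 ≤ T := (le_max_right _ _).trans hT
  have hTpos : 0 < T := by linarith
  have hTη : T ^ η = T ^ (η / 2) * T ^ (η / 2) := by
    rw [← Real.rpow_add hTpos]; congr 1; ring
  have hT2 : 1 ≤ T ^ (η / 2) := Real.one_le_rpow (by linarith) (by positivity)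
  have hexp2 : (1 : ℝ) ≤ Real.exp 2 := Real.one_le_exp (by norm_num)
  by_cases hcase : 1 + κ ≤ z.re
  · refine (hA z hcase).1.trans ?_
    have h0 : A ≤ T ^ (η / 2) := by nlinarith
    calc A ≤ T ^ (η / 2) * 1 := by rw [mul_one]; exact h0
      _ ≤ T ^ (η / 2) * T ^ (η / 2) := by gcongr
      _ = T ^ η := hTη.symm
  · push Not at hcase
    set c : ℂ := ⟨1 + 2 * κ, z.im⟩ with hc
    set L := Real.log T with hL
    have hL0 : 0 < L := Real.log_pos (by linarith)
    set K : ℕ := ⌈η / 4 * L⌉₊ with hK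
    have hK1 : η / 4 * L ≤ K := Nat.le_ceil _
    have hK2 : (K : ℝ) ≤ η / 4 * L + 1 := (Nat.ceil_lt_add_one (by positivity)).le
    have hball : ∀ w ∈ ball c (3 / 4), 1 / 4 ≤ w.re ∧ 1 ≤ w.im ∧ ‖w‖ ≤ T + 8 := by
      intro w hw
      rw [mem_ball, dist_eq_norm] at hw
      have h1 := (Complex.abs_re_le_norm (w - c)).trans hw.le
      have h2 := (Complex.abs_im_le_norm (w - c)).trans hw.le
      simp only [Complex.sub_re, Complex.sub_im, hc] at h1 h2
      have h3 := abs_le.1 h1
      have h4 := abs_le.1 h2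
      refine ⟨by linarith [h3.1], by linarith [h4.1], ?_⟩
      have h5 := Complex.norm_le_abs_re_add_abs_im w
      have h6 : |w.re| ≤ 2 := by rw [abs_le]; constructor <;> linarith [h3.1, h3.2]
      have h7 : |w.im| ≤ T + 6 := by rw [abs_le]; constructor <;> linarith [h4.1, h4.2]
      linarith
    have hcre : c.re = 1 + 2 * κ := rfl
    have key := circle_bound (f := riemannZeta) (c := c) (z := z) (r := 3 * κ) (s0 := κ)
      (s := 1 / 2) (R := 3 / 4) (m := A) (M := T ^ 2) hκ0 (by norm_num) (by positivity)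
      (by linarith) (by norm_num) (by linarith)
      (fun w hw => (zeta_analyticAt (by
        have := (hball w hw).2.1; linarith)).differentiableAt.differentiableWithinAt)
      (fun w hw => (hA w (by
        rw [mem_sphere, dist_eq_norm] at hw
        have h1 := (Complex.abs_re_le_norm (w - c)).trans hw.le
        simp only [Complex.sub_re, hcre] at h1
        have h3 := abs_le.1 h1
        linarith [h3.1])).1)
      (fun w hw => by
        have hwb : w ∈ ball c (3 / 4) := by
          rw [mem_sphere] at hw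
          rw [mem_ball, hw]; norm_num
        obtain ⟨h1, h2, h3⟩ := hball w hwb
        refine (Pool.Agent.H388LH.zeta_growth h1 h2).trans ?_
        nlinarith)
      (by
        have h1 : z - c = ((z.re - (1 + 2 * κ) : ℝ) : ℂ) := by
          apply Complex.ext <;> simp [hc]
        rw [h1, Complex.norm_real, Real.norm_eq_abs, abs_le]
        constructor <;> linarith) K
    refine key.trans ?_
    have e1 : ∑ n ∈ Finset.range K, (3 * κ / κ) ^ n ≤ Real.exp 2 * T ^ (η / 2) := by
      have h1 : 3 * κ / κ = 3 := by field_simp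
      rw [h1]
      refine (three_pow_sum K).trans ?_
      have h2 : (3 : ℝ) ≤ Real.exp 2 := by
        have := Real.add_one_le_exp (2 : ℝ); linarith
      calc (3 : ℝ) ^ K ≤ (Real.exp 2) ^ K := by gcongr
        _ = Real.exp (2 * K) := by rw [← Real.exp_nat_mul]; ring_nf
        _ ≤ Real.exp (2 + η / 2 * L) := Real.exp_le_exp.2 (by linarith)
        _ = Real.exp 2 * T ^ (η / 2) := by
            rw [Real.exp_add, Real.rpow_def_of_pos hTpos, mul_comm (Real.log T)]
    have e2 : T ^ 2 * (3 * κ / (1 / 2)) ^ K / (1 - 3 * κ / (1 / 2)) ≤ 2 := by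
      have h1 : 3 * κ / (1 / 2) = Real.exp (-(8 / η)) / 2 := by rw [hκ]; ring
      have h2 : (3 * κ / (1 / 2)) ^ K ≤ Real.exp (-(2 * L)) := by
        rw [h1]
        calc (Real.exp (-(8 / η)) / 2) ^ K ≤ (Real.exp (-(8 / η))) ^ K := by
              gcongr
              have : 0 < Real.exp (-(8 / η)) := Real.exp_pos _
              linarith
          _ = Real.exp (K * (-(8 / η))) := by rw [← Real.exp_nat_mul]
          _ ≤ Real.exp (-(2 * L)) := by
              apply Real.exp_le_exp.2
              have h3 : η / 4 * L * (8 / η) ≤ K * (8 / η) := by gcongr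
              have h4 : η / 4 * L * (8 / η) = 2 * L := by field_simp; ring
              linarith
      have h3 : 1 / 2 ≤ 1 - 3 * κ / (1 / 2) := by rw [h1]; linarith
      have h4 : T ^ 2 = Real.exp (2 * L) := by
        rw [mul_comm, Real.exp_mul, Real.exp_log hTpos]; norm_num
      have h5 : T ^ 2 * (3 * κ / (1 / 2)) ^ K ≤ 1 := by
        calc T ^ 2 * (3 * κ / (1 / 2)) ^ K ≤ T ^ 2 * Real.exp (-(2 * L)) := by gcongr
          _ = 1 := by rw [h4, ← Real.exp_add]; simp
      rw [div_le_iff₀ (by linarith)]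
      linarith
    calc A * ∑ n ∈ Finset.range K, (3 * κ / κ) ^ n + T ^ 2 * (3 * κ / (1 / 2)) ^ K /
          (1 - 3 * κ / (1 / 2)) ≤ A * (Real.exp 2 * T ^ (η / 2)) + 2 * T ^ (η / 2) := by
          have : (2 : ℝ) ≤ 2 * T ^ (η / 2) := by linarith
          gcongr
          linarith
      _ = (A * Real.exp 2 + 2) * T ^ (η / 2) := by ring
      _ ≤ T ^ (η / 2) * T ^ (η / 2) := by gcongr
      _ = T ^ η := hTη.symm

end DH31
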