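import Pool.Agent.H31R2.DH.Assemble
import Pool.Agent.H31R2.DH.Near1
import Pool.Agent.H31R2.DH.Area

/-!
Zero density bounds imply bounds for the measure of the set of large values.
-/

open Complex Metric MeasureTheory Set Filter Topology

namespace DH31

/-- heights at which zeta is large at some point on or to the right of the line `Re s = σ` -/
def bigS (σ ε T : ℝ) : Set ℝ :=
  {t : ℝ | 0 < t ∧ t ≤ T ∧ ∃ x : ℝ, σ ≤ x ∧ T ^ ε < ‖riemannZeta (x + t * I)‖}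

/-- heights at which zeta is large on the line `Re s = σ` -/
def big (σ ε T : ℝ) : Set ℝ :=
  {t : ℝ | 0 < t ∧ t ≤ T ∧ T ^ ε < ‖riemannZeta (σ + t * I)‖}

lemma unif {a : ℝ → ℝ} (hac : ContinuousOn a (Icc (1 / 2) 1)) {ε : ℝ} (hε : 0 < ε) :
    ∃ ω : ℝ, 0 < ω ∧ ∀ x ∈ Icc (1 / 2 : ℝ) 1, ∀ y ∈ Icc (1 / 2 : ℝ) 1, |x - y| ≤ ω →
      a x ≤ a y + ε := by
  have h := isCompact_Icc.uniformContinuousOn_of_continuous hac
  rw [Metric.uniformContinuousOn_iff] at h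
  obtain ⟨ω, hω, h1⟩ := h ε hε
  refine ⟨ω / 2, by positivity, fun x hx y hy hxy => ?_⟩
  have h2 := h1 x hx y hy (by rw [Real.dist_eq]; linarith)
  rw [Real.dist_eq] at h2
  have := (abs_lt.1 h2).2
  linarith

lemma bdd {a : ℝ → ℝ} (hac : ContinuousOn a (Icc (1 / 2) 1)) :
    ∃ M : ℝ, 0 ≤ M ∧ ∀ x ∈ Icc (1 / 2 : ℝ) 1, a x ≤ M := by
  obtain ⟨M, hM⟩ := (isCompact_Icc.bddAbove_image hac)
  refine ⟨max M 0, le_max_right _ _, fun x hx => ?_⟩
  exact (hM (mem_image_of_mem a hx)).trans (le_max_left _ _)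

/-- the local statement -/
lemma zero_near {δ η : ℝ} (hδ : 0 < δ) (hδ1 : δ ≤ 1 / 12) (hη : 0 < η) :
    ∃ T0 : ℝ, 3 ≤ T0 ∧ ∀ T : ℝ, T0 ≤ T → ∀ t : ℝ, 3 < t → t ≤ T → ∀ σ : ℝ, 1 / 2 ≤ σ → σ ≤ 1 →
      (∃ x : ℝ, σ ≤ x ∧ T ^ η < ‖riemannZeta (x + t * I)‖) →
      ∃ ρ ∈ zeros (σ - 2 * δ) (T + 1), |ρ.im - t| ≤ 1 := by
  obtain ⟨η', hη', T1, h1⟩ := backlund_zeta hδ hδ1 hη
  obtain ⟨A, hA1, hA⟩ := zeta_bounds (a := 1 + δ) (by linarith)
  have ev1 : ∀ᶠ T : ℝ in atTop, A ≤ T ^ η := (tendsto_rpow_atTop hη).eventually_ge_atTop _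
  obtain ⟨T2, hT2⟩ := Filter.eventually_atTop.1 ev1
  refine ⟨max (max T1 T2) 3, le_max_right _ _, ?_⟩
  intro T hT t ht3 htT σ hσ1 hσ2 ⟨x, hx, hbig⟩
  have hTT1 : T1 ≤ T := (le_max_left _ _).trans ((le_max_left _ _).trans hT)
  have hTT2 : T2 ≤ T := (le_max_right _ _).trans ((le_max_left _ _).trans hT)
  by_contra hcon
  push Not at hcon
  by_cases hx1 : 1 + δ ≤ x
  · have h2 := (hA (x + t * I) (by simpa using hx1)).1
    have := hT2 T hTT2
    linarith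
  · push Not at hx1
    have h2 := h1 T hTT1 t ht3.le htT σ hσ1 hσ2 (by
      intro S hS
      have hSe : S = ∅ := by
        rw [Finset.eq_empty_iff_forall_notMem]
        intro z hz
        obtain ⟨h3, h4⟩ := hS z hz
        obtain ⟨h5, h6⟩ := ball_re_im h3
        have h7 := abs_le.1 h6
        have h8 := hcon z ⟨h4, by linarith, by linarith, by linarith⟩
        linarith
      rw [hSe, Finset.sum_empty]
      have : 0 ≤ Real.log T := Real.log_nonneg (by linarith)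
      positivity) (x + t * I) (by
      rw [mem_closedBall, dist_eq_norm]
      have h3 : (x + t * I : ℂ) - ⟨1 + δ, t⟩ = ((x - (1 + δ) : ℝ) : ℂ) := by
        apply Complex.ext <;> simp
      rw [h3, Complex.norm_real, Real.norm_eq_abs, abs_le]
      constructor <;> linarith)
    linarith

lemma order_pos {ρ : ℂ} (h0 : riemannZeta ρ = 0) (hi : 0 < ρ.im) :
    1 ≤ analyticOrderNatAt riemannZeta ρ :=
  H370.Loc.mult_pos' H370.good_zeta hi h0

lemma card_le_cnt {σ T : ℝ} : (((zeros_finite σ T).toFinset.card : ℕ) : ℝ) ≤ cnt (zeros σ T) := by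
  rw [cnt_eq (zeros_finite σ T)]
  push_cast
  rw [Finset.card_eq_sum_ones, Nat.cast_sum]
  refine Finset.sum_le_sum fun ρ hρ => ?_
  rw [Set.Finite.mem_toFinset] at hρ
  exact_mod_cast order_pos hρ.1 hρ.2.2.1

lemma add_rpow_le {T c p M : ℝ} (hT : 1 ≤ T) (hc0 : 0 ≤ c) (hc : c ≤ T) (hp0 : 0 ≤ p) (hp : p ≤ M) :
    (T + c) ^ p ≤ 2 ^ M * T ^ p := by
  calc (T + c) ^ p ≤ (2 * T) ^ p := Real.rpow_le_rpow (by linarith) (by linarith) hp0
    _ = 2 ^ p * T ^ p := Real.mul_rpow (by norm_num) (by linarith)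
    _ ≤ 2 ^ M * T ^ p := by
        gcongr
        norm_num

/-- from zeros to large values -/
theorem forward {a : ℝ → ℝ} (hac : ContinuousOn a (Icc (1 / 2) 1))
    (hlow : ∀ σ ∈ Icc (1 / 2 : ℝ) 1, 2 * (1 - σ) ≤ a σ)
    (H : ∀ ε : ℝ, 0 < ε → ∃ C : ℝ, 0 < C ∧ ∃ T0 : ℝ, ∀ T : ℝ, T0 ≤ T → ∀ σ : ℝ, 1 / 2 ≤ σ → σ ≤ 1 →
      (cnt (zeros σ T) : ℝ) ≤ C * T ^ (a σ + ε)) :
    ∀ ε : ℝ, 0 < ε → ∃ C : ℝ, 0 < C ∧ ∃ T0 : ℝ, ∀ T : ℝ, T0 ≤ T → ∀ σ : ℝ, 1 / 2 ≤ σ → σ ≤ 1 →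
      volume (bigS σ ε T) ≤ ENNReal.ofReal (C * T ^ (a σ + ε)) := by
  classical
  intro ε hε
  obtain ⟨ω, hω, hunif⟩ := unif hac (show 0 < ε / 4 by positivity)
  obtain ⟨M, hM0, hM⟩ := bdd hac
  set δ : ℝ := min (1 / 12) (min (ω / 4) (ε / 8)) with hδdef
  have hδ : 0 < δ := lt_min (by norm_num) (lt_min (by positivity) (by positivity))
  have hδ1 : δ ≤ 1 / 12 := min_le_left _ _
  have hδ2 : δ ≤ ω / 4 := (min_le_right _ _).trans (min_le_left _ _)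
  have hδ3 : δ ≤ ε / 8 := (min_le_right _ _).trans (min_le_right _ _)
  obtain ⟨T1, hT13, h1⟩ := zero_near hδ hδ1 hε
  obtain ⟨C2, hC2, T2, h2⟩ := H (ε / 4) (by positivity)
  refine ⟨3 + 2 * (C2 * 2 ^ (M + ε)), by positivity, max (max T1 T2) 3, ?_⟩
  intro T hT σ hσ1 hσ2
  have hTT1 : T1 ≤ T := (le_max_left _ _).trans ((le_max_left _ _).trans hT)
  have hTT2 : T2 ≤ T := (le_max_right _ _).trans ((le_max_left _ _).trans hT)
  have hT3 : 3 ≤ T := (le_max_right _ _).trans hT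
  have hTpos : 0 < T := by linarith
  have haσ := hlow σ ⟨hσ1, hσ2⟩
  have haσ0 : 0 ≤ a σ := by linarith
  have hone : 1 ≤ T ^ (a σ + ε) := Real.one_le_rpow (by linarith) (by linarith)
  by_cases hcase : σ < 1 / 2 + 2 * δ
  · have h3 : bigS σ ε T ⊆ Ioc 0 T := fun t ht => ⟨ht.1, ht.2.1⟩
    refine (measure_mono h3).trans ?_
    rw [Real.volume_Ioc]
    apply ENNReal.ofReal_le_ofReal
    have h4 : T ≤ T ^ (a σ + ε) := by
      calc T = T ^ (1 : ℝ) := (Real.rpow_one T).symm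
        _ ≤ T ^ (a σ + ε) := Real.rpow_le_rpow_of_exponent_le (by linarith) (by linarith)
    have h5 : (1 : ℝ) ≤ 3 + 2 * (C2 * 2 ^ (M + ε)) := by
      have : 0 ≤ 2 * (C2 * (2:ℝ) ^ (M + ε)) := by positivity
      linarith
    calc T - 0 = 1 * T := by ring
      _ ≤ (3 + 2 * (C2 * 2 ^ (M + ε))) * T ^ (a σ + ε) := by gcongr
  · push Not at hcase
    set Z := (zeros_finite (σ - 2 * δ) (T + 1)).toFinset with hZ
    have hsub : bigS σ ε T ⊆ Ioc 0 3 ∪ ⋃ ρ ∈ Z, Icc (ρ.im - 1) (ρ.im + 1) := by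
      intro t ⟨ht0, htT, hbig⟩
      by_cases ht3 : t ≤ 3
      · exact Or.inl ⟨ht0, ht3⟩
      · push Not at ht3
        obtain ⟨ρ, hρ, hρt⟩ := h1 T hTT1 t ht3 htT σ hσ1 hσ2 hbig
        right
        rw [mem_iUnion₂]
        refine ⟨ρ, by rw [hZ, Set.Finite.mem_toFinset]; exact hρ, ?_⟩
        have := abs_le.1 hρt
        exact ⟨by linarith, by linarith⟩
    have hvol : volume (bigS σ ε T) ≤ ENNReal.ofReal (3 + 2 * Z.card) := by
      calc volume (bigS σ ε T) ≤ volume (Ioc (0:ℝ) 3) + volume (⋃ ρ ∈ Z, Icc (ρ.im - 1) (ρ.im + 1)) :=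
            (measure_mono hsub).trans (measure_union_le _ _)
        _ ≤ ENNReal.ofReal 3 + ∑ ρ ∈ Z, volume (Icc (ρ.im - 1) (ρ.im + 1)) := by
            gcongr
            · rw [Real.volume_Ioc]; simp
            · exact measure_biUnion_finset_le Z _
        _ = ENNReal.ofReal 3 + ∑ ρ ∈ Z, ENNReal.ofReal 2 := by
            congr 1
            refine Finset.sum_congr rfl fun ρ _ => ?_
            rw [Real.volume_Icc]; congr 1; ring
        _ = ENNReal.ofReal (3 + 2 * Z.card) := by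
            rw [Finset.sum_const, nsmul_eq_mul, ENNReal.ofReal_add (by norm_num) (by positivity),
              mul_comm (2:ℝ), ENNReal.ofReal_mul (by positivity), ENNReal.ofReal_natCast]
    refine hvol.trans (ENNReal.ofReal_le_ofReal ?_)
    have hx : σ - 2 * δ ∈ Icc (1 / 2 : ℝ) 1 := ⟨by linarith, by linarith⟩
    have h3 := h2 (T + 1) (by linarith) (σ - 2 * δ) hx.1 hx.2
    have h4 : a (σ - 2 * δ) ≤ a σ + ε / 4 := hunif _ hx _ ⟨hσ1, hσ2⟩ (by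
      rw [abs_le]; constructor <;> linarith)
    have h5 : (Z.card : ℝ) ≤ cnt (zeros (σ - 2 * δ) (T + 1)) := card_le_cnt
    have h6 : (T + 1) ^ (a (σ - 2 * δ) + ε / 4) ≤ 2 ^ (M + ε) * T ^ (a σ + ε) := by
      calc (T + 1) ^ (a (σ - 2 * δ) + ε / 4) ≤ (T + 1) ^ (a σ + ε) :=
            Real.rpow_le_rpow_of_exponent_le (by linarith) (by linarith)
        _ ≤ _ := add_rpow_le (by linarith) (by norm_num) (by linarith) (by linarith)
            (by linarith [hM σ ⟨hσ1, hσ2⟩])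
    calc 3 + 2 * (Z.card : ℝ) ≤ 3 * T ^ (a σ + ε) + 2 * (C2 * (2 ^ (M + ε) * T ^ (a σ + ε))) := by
          have h7 : (Z.card : ℝ) ≤ C2 * (2 ^ (M + ε) * T ^ (a σ + ε)) :=
            h5.trans (h3.trans (by gcongr))
          linarith
      _ = _ := by ring

end DH31
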