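import Pool.Agent.H31R2.DH.LVA

/-!
Bounds for the measure of the set of large values imply zero density bounds.
-/

open Complex Metric MeasureTheory Set Filter Topology

namespace DH31

/-- the region of large values -/
def regU (x0 V H : ℝ) : Set ℂ := {z : ℂ | x0 ≤ z.re ∧ z.re ≤ 1 ∧ 0 < z.im ∧ z.im ≤ H ∧ V < ‖riemannZeta z‖}

lemma regU_meas (x0 V H : ℝ) : MeasurableSet (regU x0 V H) := by
  have h1 : IsOpen {z : ℂ | 0 < z.im ∧ V < ‖riemannZeta z‖} := by
    have h0 : IsOpen {z : ℂ | 0 < z.im} := isOpen_lt continuous_const Complex.continuous_im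
    have hc : ContinuousOn (fun z => ‖riemannZeta z‖) {z : ℂ | 0 < z.im} :=
      fun z hz => (zeta_analyticAt hz).continuousAt.norm.continuousWithinAt
    have : {z : ℂ | 0 < z.im ∧ V < ‖riemannZeta z‖} =
        {z : ℂ | 0 < z.im} ∩ (fun z => ‖riemannZeta z‖) ⁻¹' (Ioi V) := by
      ext z; simp
    rw [this]
    exact hc.isOpen_inter_preimage h0 isOpen_Ioi
  have h2 : IsClosed {z : ℂ | x0 ≤ z.re ∧ z.re ≤ 1 ∧ z.im ≤ H} := by
    have e1 : IsClosed {z : ℂ | x0 ≤ z.re} := isClosed_le continuous_const Complex.continuous_re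
    have e2 : IsClosed {z : ℂ | z.re ≤ 1} := isClosed_le Complex.continuous_re continuous_const
    have e3 : IsClosed {z : ℂ | z.im ≤ H} := isClosed_le Complex.continuous_im continuous_const
    have : {z : ℂ | x0 ≤ z.re ∧ z.re ≤ 1 ∧ z.im ≤ H} =
      {z : ℂ | x0 ≤ z.re} ∩ ({z : ℂ | z.re ≤ 1} ∩ {z : ℂ | z.im ≤ H}) := by
      ext z; simp
    rw [this]
    exact e1.inter (e2.inter e3)
  have : regU x0 V H = {z : ℂ | 0 < z.im ∧ V < ‖riemannZeta z‖} ∩
      {z : ℂ | x0 ≤ z.re ∧ z.re ≤ 1 ∧ z.im ≤ H} := by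
    ext z
    simp only [regU, mem_ofPred_eq, mem_inter_iff]
    tauto
  rw [this]
  exact h1.measurableSet.inter h2.measurableSet

/-- Fubini -/
lemma regU_vol {x0 V H B : ℝ} (hx0 : 0 ≤ x0) (hx1 : x0 ≤ 1)
    (h : ∀ x : ℝ, x0 ≤ x → x ≤ 1 →
      volume {t : ℝ | 0 < t ∧ t ≤ H ∧ V < ‖riemannZeta (x + t * I)‖} ≤ ENNReal.ofReal B) :
    volume (regU x0 V H) ≤ ENNReal.ofReal B := by
  have hm := regU_meas x0 V H
  have h1 : volume (regU x0 V H) =
      (volume : Measure (ℝ × ℝ)) (Complex.measurableEquivRealProd.symm ⁻¹' regU x0 V H) :=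
    (Complex.volume_preserving_equiv_real_prod.symm.measure_preimage hm.nullMeasurableSet).symm
  rw [h1, Measure.volume_eq_prod, Measure.prod_apply
    (Complex.measurableEquivRealProd.symm.measurable hm)]
  have h2 : ∀ x : ℝ, volume (Prod.mk x ⁻¹' (Complex.measurableEquivRealProd.symm ⁻¹' regU x0 V H)) ≤
      (Icc x0 1).indicator (fun _ => ENNReal.ofReal B) x := by
    intro x
    by_cases hx : x ∈ Icc x0 1
    · rw [indicator_of_mem hx]
      refine le_trans (measure_mono ?_) (h x hx.1 hx.2)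
      intro y hy
      have hy' : Complex.measurableEquivRealProd.symm (x, y) ∈ regU x0 V H := hy
      have e1 : Complex.measurableEquivRealProd.symm (x, y) = (x + y * I : ℂ) := by
        apply Complex.ext <;> simp
      rw [e1] at hy'
      obtain ⟨-, -, h3, h4, h5⟩ := hy'
      exact ⟨by simpa using h3, by simpa using h4, h5⟩
    · rw [indicator_of_notMem hx]
      have : Prod.mk x ⁻¹' (Complex.measurableEquivRealProd.symm ⁻¹' regU x0 V H) = ∅ := by
        rw [eq_empty_iff_forall_notMem]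
        intro y hy
        have hy' : Complex.measurableEquivRealProd.symm (x, y) ∈ regU x0 V H := hy
        have e1 : Complex.measurableEquivRealProd.symm (x, y) = (x + y * I : ℂ) := by
          apply Complex.ext <;> simp
        rw [e1] at hy'
        obtain ⟨h3, h4, -⟩ := hy'
        exact hx ⟨by simpa using h3, by simpa using h4⟩
      rw [this, measure_empty]
  calc ∫⁻ x, volume (Prod.mk x ⁻¹' (Complex.measurableEquivRealProd.symm ⁻¹' regU x0 V H))
      ≤ ∫⁻ x, (Icc x0 1).indicator (fun _ => ENNReal.ofReal B) x := lintegral_mono h2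
    _ = ENNReal.ofReal B * volume (Icc x0 1) := by
        rw [lintegral_indicator measurableSet_Icc, setLIntegral_const]
    _ ≤ ENNReal.ofReal B * 1 := by
        gcongr
        rw [Real.volume_Icc]
        rw [← ENNReal.ofReal_one]
        exact ENNReal.ofReal_le_ofReal (by linarith)
    _ = _ := mul_one _

/-- the number of windows with a large value -/
lemma bad_windows {δ η : ℝ} (hδ : 0 < δ) (hδ1 : δ ≤ 1 / 12) (hη : 0 < η) :
    ∃ c : ℝ, 0 < c ∧ ∃ T0 : ℝ, 3 ≤ T0 ∧ ∀ T : ℝ, T0 ≤ T → ∀ σ : ℝ, 1 / 2 ≤ σ → σ ≤ 1 →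
      ∀ S : Finset ℕ, ∀ ρ s : ℕ → ℂ,
      (∀ n ∈ S, 3 ≤ (ρ n).im ∧ (ρ n).im ≤ T ∧ σ ≤ (ρ n).re ∧
        (ρ n).re ≤ 1 ∧ (ρ n).im ∈ Icc (n : ℝ) (n + 1) ∧
        s n ∈ closedBall (⟨1 + δ, (ρ n).im⟩ : ℂ) (1 + δ - (ρ n).re + δ) ∧
        T ^ η < ‖riemannZeta (s n)‖) →
      ENNReal.ofReal (c * S.card) ≤ volume (regU (σ - 2 * δ) (T ^ (η / 2)) (T + 2)) := by
  classical
  obtain ⟨κ, hκ, T1, hT12, h1⟩ := near_one (show 0 < η / 2 by positivity)
  have hpi := Real.pi_pos
  refine ⟨δ ^ 2 / 2 * (Real.pi * η / 2) / 3, by positivity, max T1 60, le_max_of_le_right (by norm_num), ?_⟩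
  intro T hT σ hσ1 hσ2 S ρ s hS
  have hTT1 : T1 ≤ T := (le_max_left _ _).trans hT
  have hT60 : 60 ≤ T := (le_max_right _ _).trans hT
  have hTpos : 0 < T := by linarith
  set L := Real.log T with hL
  have hL0 : 0 < L := Real.log_pos (by linarith)
  have hexp : Real.exp (η / 2 * L) = T ^ (η / 2) := by
    rw [Real.rpow_def_of_pos hTpos, mul_comm]
  have hexp2 : Real.exp (2 * L) = T ^ 2 := by
    rw [mul_comm, Real.exp_mul, Real.exp_log hTpos]; norm_num
  set B : ℕ → Set ℂ := fun n => {z : ℂ | z ∈ ball (s n) δ ∧ Real.exp (η / 2 * L) < ‖riemannZeta z‖}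
    with hB
  -- geometry of the balls
  have hgeo : ∀ n ∈ S, ∀ z ∈ closedBall (s n) δ, σ - 2 * δ ≤ z.re ∧ 2 ≤ z.im ∧ z.im ≤ T + 2 ∧
      (n : ℝ) - 1 < z.im ∧ z.im < n + 2 ∧ ‖z‖ ≤ T + 8 := by
    intro n hn z hz
    obtain ⟨a1, a2, a3, a4, a5, a6, a7⟩ := hS n hn
    obtain ⟨b1, b2⟩ := ball_re_im a6
    have b3 := abs_le.1 b2
    rw [mem_closedBall, dist_eq_norm] at hz
    have c1 := abs_le.1 ((Complex.abs_re_le_norm (z - s n)).trans hz)
    have c2 := abs_le.1 ((Complex.abs_im_le_norm (z - s n)).trans hz)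
    simp only [Complex.sub_re, Complex.sub_im] at c1 c2
    have d1 : (s n).re ≤ 1 + δ + (1 + δ - (ρ n).re + δ) := by
      rw [mem_closedBall, dist_eq_norm] at a6
      have := abs_le.1 ((Complex.abs_re_le_norm (s n - ⟨1 + δ, (ρ n).im⟩)).trans a6)
      simp only [Complex.sub_re] at this
      linarith [this.2]
    refine ⟨by linarith [c1.1], by linarith [c2.1, b3.1], by linarith [c2.2, b3.2],
      by linarith [c2.1, b3.1, a5.1], by linarith [c2.2, b3.2, a5.2], ?_⟩
    have h5 := Complex.norm_le_abs_re_add_abs_im z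
    have h6 : |z.re| ≤ 3 := by rw [abs_le]; constructor <;> linarith [c1.1, c1.2]
    have h7 : |z.im| ≤ T + 3 := by rw [abs_le]; constructor <;> linarith [c2.1, c2.2, b3.1, b3.2]
    linarith
  have hBvol : ∀ n ∈ S, ENNReal.ofReal (δ ^ 2 / 2 * (Real.pi * η / 2)) ≤ volume (B n) := by
    intro n hn
    obtain ⟨a1, a2, a3, a4, a5, a6, a7⟩ := hS n hn
    refine area (c := s n) (L := L) (η := η) (A := 2) hδ hL0 hη (by norm_num)
      (fun z hz => zeta_analyticAt (by linarith [(hgeo n hn z hz).2.1])) ?_ ?_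
    · have h2 : T ^ η = Real.exp (η * L) := by
        rw [Real.rpow_def_of_pos hTpos, mul_comm]
      rw [h2] at a7
      rw [Real.le_log_iff_exp_le]
      · exact a7.le
      · exact (Real.exp_pos _).trans a7
    · intro z hz
      obtain ⟨g1, g2, g3, g4, g5, g6⟩ := hgeo n hn z hz
      have h2 : ‖riemannZeta z‖ ≤ T ^ 2 := by
        refine (Pool.Agent.H388LH.zeta_growth (by linarith) (by linarith)).trans ?_
        nlinarith
      by_cases h0 : ‖riemannZeta z‖ = 0
      · rw [h0, Real.log_zero]; positivity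
      · have h3 : 0 < ‖riemannZeta z‖ := lt_of_le_of_ne (norm_nonneg _) (Ne.symm h0)
        rw [Real.log_le_iff_le_exp h3, hexp2]
        exact h2
  have hBsub : ∀ n ∈ S, B n ⊆ regU (σ - 2 * δ) (T ^ (η / 2)) (T + 2) := by
    intro n hn z hz
    obtain ⟨g1, g2, g3, g4, g5, g6⟩ := hgeo n hn z (ball_subset_closedBall hz.1)
    have hz2 : T ^ (η / 2) < ‖riemannZeta z‖ := by rw [← hexp]; exact hz.2
    refine ⟨g1, ?_, by linarith, g3, hz2⟩
    by_contra hcon
    push Not at hcon
    have := h1 T hTT1 z (by linarith) g2 (by linarith)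
    linarith
  have hBm : ∀ n ∈ S, MeasurableSet (B n) := by
    intro n hn
    have h2 : ContinuousOn (fun z => ‖riemannZeta z‖) (ball (s n) δ) := by
      intro z hz
      have := (hgeo n hn z (ball_subset_closedBall hz)).2.1
      exact (zeta_analyticAt (by linarith)).continuousAt.norm.continuousWithinAt
    have : B n = ball (s n) δ ∩ (fun z => ‖riemannZeta z‖) ⁻¹' (Ioi (Real.exp (η / 2 * L))) := by
      ext z; simp [hB]
    rw [this]
    exact (h2.isOpen_inter_preimage isOpen_ball isOpen_Ioi).measurableSet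
  set U := regU (σ - 2 * δ) (T ^ (η / 2)) (T + 2) with hU
  have hpt : ∀ z : ℂ, ∑ n ∈ S, (B n).indicator (1 : ℂ → ENNReal) z ≤ 3 * U.indicator 1 z := by
    intro z
    have h2 : ∑ n ∈ S, (B n).indicator (1 : ℂ → ENNReal) z =
        ∑ n ∈ S.filter (fun n => z ∈ B n), 1 := by
      rw [Finset.sum_filter]
      refine Finset.sum_congr rfl fun n _ => ?_
      by_cases hz : z ∈ B n
      · rw [indicator_of_mem hz, if_pos hz]; rfl
      · rw [indicator_of_notMem hz, if_neg hz]
    rw [h2, Finset.sum_const, nsmul_eq_mul, mul_one]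
    by_cases hemp : (S.filter (fun n => z ∈ B n)) = ∅
    · rw [hemp]; simp
    · obtain ⟨n0, hn0⟩ := Finset.nonempty_iff_ne_empty.2 hemp
      rw [Finset.mem_filter] at hn0
      rw [indicator_of_mem (hBsub n0 hn0.1 hn0.2)]
      have hz0 := hgeo n0 hn0.1 z (ball_subset_closedBall hn0.2.1)
      set m := ⌊z.im⌋₊ with hm
      have hm1 : (m : ℝ) ≤ z.im := Nat.floor_le (by linarith [hz0.2.1])
      have hm2 : z.im < m + 1 := Nat.lt_floor_add_one _
      have hsub : S.filter (fun n => z ∈ B n) ⊆ Finset.Icc (m - 1) (m + 1) := by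
        intro n hn
        rw [Finset.mem_filter] at hn
        obtain ⟨g1, g2, g3, g4, g5, g6⟩ := hgeo n hn.1 z (ball_subset_closedBall hn.2.1)
        rw [Finset.mem_Icc]
        have e1 : (n : ℝ) < m + 2 := by linarith
        have e2 : (m : ℝ) < n + 2 := by linarith
        have e3 : n < m + 2 := by exact_mod_cast e1
        have e4 : m < n + 2 := by exact_mod_cast e2
        constructor <;> omega
      have hcard : (S.filter (fun n => z ∈ B n)).card ≤ 3 := by
        refine (Finset.card_le_card hsub).trans ?_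
        rw [Nat.card_Icc]; omega
      simp only [Pi.one_apply, mul_one]
      exact_mod_cast hcard
  have hsum : ∑ n ∈ S, volume (B n) ≤ 3 * volume U := by
    calc ∑ n ∈ S, volume (B n) = ∑ n ∈ S, ∫⁻ z, (B n).indicator (1 : ℂ → ENNReal) z := by
          refine Finset.sum_congr rfl fun n hn => ?_
          rw [lintegral_indicator_one (hBm n hn)]
      _ = ∫⁻ z, ∑ n ∈ S, (B n).indicator (1 : ℂ → ENNReal) z := by
          rw [lintegral_finsetSum']
          exact fun n hn => (measurable_one.indicator (hBm n hn)).aemeasurable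
      _ ≤ ∫⁻ z, 3 * U.indicator (1 : ℂ → ENNReal) z := lintegral_mono hpt
      _ = 3 * volume U := by
          rw [lintegral_const_mul' _ _ (by simp), lintegral_indicator_one (regU_meas _ _ _)]
  have h2 : (S.card : ENNReal) * ENNReal.ofReal (δ ^ 2 / 2 * (Real.pi * η / 2)) ≤ 3 * volume U := by
    refine le_trans ?_ hsum
    rw [← nsmul_eq_mul, ← Finset.sum_const]
    exact Finset.sum_le_sum hBvol
  have h3 : ENNReal.ofReal (δ ^ 2 / 2 * (Real.pi * η / 2) / 3 * S.card) =
      (S.card : ENNReal) * ENNReal.ofReal (δ ^ 2 / 2 * (Real.pi * η / 2)) / 3 := by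
    rw [div_mul_eq_mul_div, mul_comm _ (S.card : ℝ), ENNReal.ofReal_div_of_pos (by norm_num),
      ENNReal.ofReal_mul (by positivity), ENNReal.ofReal_natCast]
    congr 1
    simp
  rw [h3]
  refine ENNReal.div_le_of_le_mul ?_
  rw [mul_comm (volume U)]
  exact h2

end DH31
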