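import Pool.Agent.H31R2.DH.LVB

/-!
Bounds for the measure of the set of large values imply zero density bounds: conclusion.
-/

open Complex Metric MeasureTheory Set Filter Topology

namespace DH31

/-- from large values to zeros -/
theorem backward {a : ℝ → ℝ} (hac : ContinuousOn a (Icc (1 / 2) 1))
    (hanti : AntitoneOn a (Icc (1 / 2) 1))
    (hlow : ∀ σ ∈ Icc (1 / 2 : ℝ) 1, 2 * (1 - σ) ≤ a σ)
    (H : ∀ ε : ℝ, 0 < ε → ∃ C : ℝ, 0 < C ∧ ∃ T0 : ℝ, ∀ T : ℝ, T0 ≤ T → ∀ σ : ℝ, 1 / 2 ≤ σ → σ ≤ 1 →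
      volume (big σ ε T) ≤ ENNReal.ofReal (C * T ^ (a σ + ε))) :
    ∀ ε : ℝ, 0 < ε → ∃ C : ℝ, 0 < C ∧ ∃ T0 : ℝ, ∀ T : ℝ, T0 ≤ T → ∀ σ : ℝ, 1 / 2 ≤ σ → σ ≤ 1 →
      (cnt (zeros σ T) : ℝ) ≤ C * T ^ (a σ + ε) := by
  classical
  intro ε hε
  obtain ⟨ω, hω, hunif⟩ := unif hac (show 0 < ε / 8 by positivity)
  obtain ⟨M, hM0, hM⟩ := bdd hac
  set δ : ℝ := min (1 / 12) (min (ω / 4) (ε / 16)) with hδdef
  have hδ : 0 < δ := lt_min (by norm_num) (lt_min (by positivity) (by positivity))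
  have hδ1 : δ ≤ 1 / 12 := min_le_left _ _
  have hδ2 : δ ≤ ω / 4 := (min_le_right _ _).trans (min_le_left _ _)
  have hδ3 : δ ≤ ε / 16 := (min_le_right _ _).trans (min_le_right _ _)
  obtain ⟨η, hη, C₁, hC₁, T₁, h₁⟩ := count_a hδ hδ1 (show 0 < ε / 4 by positivity)
  obtain ⟨c, hc, T₂, hT₂3, h₂⟩ := bad_windows hδ hδ1 hη
  obtain ⟨C₃, hC₃, h₃⟩ := windows_to_count
  set ε₁ : ℝ := min (η / 4) (ε / 8) with hε₁
  have hε₁0 : 0 < ε₁ := lt_min (by positivity) (by positivity)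
  have hε₁1 : ε₁ ≤ η / 4 := min_le_left _ _
  have hε₁2 : ε₁ ≤ ε / 8 := min_le_right _ _
  obtain ⟨C₄, hC₄, T₄, h₄⟩ := H ε₁ hε₁0
  obtain ⟨T₅, h₅⟩ := Filter.eventually_atTop.1 (ev_log 1 (ε / 4) 1 (by positivity))
  set D : ℝ := 2 + C₁ + C₄ * 2 ^ (M + ε) / c with hD
  have hD0 : 0 < D := by positivity
  refine ⟨C₃ + D * C₃, by positivity, max (max T₁ T₂) (max T₄ (max T₅ 3)), ?_⟩
  intro T hT σ hσ1 hσ2
  have hTT₁ : T₁ ≤ T := (le_max_left _ _).trans ((le_max_left _ _).trans hT)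
  have hTT₂ : T₂ ≤ T := (le_max_right _ _).trans ((le_max_left _ _).trans hT)
  have hTT₄ : T₄ ≤ T := (le_max_left _ _).trans ((le_max_right _ _).trans hT)
  have hTT₅ : T₅ ≤ T := (le_max_left _ _).trans ((le_max_right _ _).trans ((le_max_right _ _).trans hT))
  have hT3 : 3 ≤ T := (le_max_right _ _).trans ((le_max_right _ _).trans ((le_max_right _ _).trans hT))
  have hTpos : 0 < T := by linarith
  have haσ := hlow σ ⟨hσ1, hσ2⟩
  have haσ0 : 0 ≤ a σ := by linarith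
  have hlog : Real.log T ≤ T ^ (ε / 4) := by
    have := h₅ T hTT₅
    simpa using this
  have hlog0 : 0 ≤ Real.log T := Real.log_nonneg (by linarith)
  have hone : 1 ≤ T ^ (a σ + ε) := Real.one_le_rpow (by linarith) (by linarith)
  -- it suffices to bound the number of windows
  suffices hkey : ∃ S : Finset ℕ, (∀ ρ ∈ zeros σ T, 3 < ρ.im → ∃ n ∈ S, (n : ℝ) < ρ.im ∧
      ρ.im ≤ n + 1) ∧ (S.card : ℝ) ≤ D * T ^ (a σ + ε / 2) by
    obtain ⟨S, hS1, hS2⟩ := hkey
    have hcnt := h₃ T hT3 (zeros σ T) (fun ρ hρ => ⟨hρ.1, hσ1.trans hρ.2.1, hρ.2.2⟩) S hS1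
    calc (cnt (zeros σ T) : ℝ) ≤ C₃ + (S.card : ℝ) * (C₃ * Real.log T) := hcnt
      _ ≤ C₃ * T ^ (a σ + ε) + (D * T ^ (a σ + ε / 2)) * (C₃ * T ^ (ε / 2)) := by
          have e1 : C₃ ≤ C₃ * T ^ (a σ + ε) := le_mul_of_one_le_right hC₃.le hone
          have e2 : Real.log T ≤ T ^ (ε / 2) :=
            hlog.trans (Real.rpow_le_rpow_of_exponent_le (by linarith) (by linarith))
          gcongr
      _ = C₃ * T ^ (a σ + ε) + D * C₃ * (T ^ (a σ + ε / 2) * T ^ (ε / 2)) := by ring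
      _ = (C₃ + D * C₃) * T ^ (a σ + ε) := by
          rw [← Real.rpow_add hTpos]
          have : a σ + ε / 2 + ε / 2 = a σ + ε := by ring
          rw [this]; ring
  -- windows
  set P : ℕ → Prop := fun n => ∃ ρ ∈ zeros σ T, 3 < ρ.im ∧ (n : ℝ) < ρ.im ∧ ρ.im ≤ n + 1 with hP
  set S : Finset ℕ := (Finset.range (⌊T⌋₊ + 1)).filter P with hS
  refine ⟨S, ?_, ?_⟩
  · intro w hw hw3
    set n : ℕ := ⌈w.im⌉₊ - 1 with hn
    have hceil : 1 ≤ ⌈w.im⌉₊ := Nat.one_le_iff_ne_zero.2 (by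
      intro h; rw [Nat.ceil_eq_zero] at h; linarith)
    have hn1 : ((n : ℕ) : ℝ) + 1 = (⌈w.im⌉₊ : ℝ) := by
      rw [hn]
      have : ((⌈w.im⌉₊ - 1 : ℕ) : ℝ) = (⌈w.im⌉₊ : ℝ) - 1 := by
        push_cast [Nat.cast_sub hceil]; ring
      rw [this]; ring
    have h10 : (n : ℝ) < w.im := by
      have := Nat.ceil_lt_add_one (show 0 ≤ w.im by linarith)
      linarith
    have h11 : w.im ≤ n + 1 := by rw [hn1]; exact Nat.le_ceil _
    refine ⟨n, ?_, h10, h11⟩
    rw [hS, Finset.mem_filter, Finset.mem_range]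
    refine ⟨?_, w, hw, hw3, h10, h11⟩
    have h12 : (n : ℝ) ≤ T := h10.le.trans hw.2.2.2
    have := Nat.le_floor h12
    omega
  · by_cases hcase : σ < 1 / 2 + 2 * δ
    · have h6 : (S.card : ℝ) ≤ T + 1 := by
        have e1 : S.card ≤ ⌊T⌋₊ + 1 := by
          calc S.card ≤ (Finset.range (⌊T⌋₊ + 1)).card := Finset.card_filter_le _ _
            _ = _ := Finset.card_range _
        have e2 : ((⌊T⌋₊ : ℕ) : ℝ) ≤ T := Nat.floor_le hTpos.le
        have e3 : (S.card : ℝ) ≤ (⌊T⌋₊ : ℝ) + 1 := by exact_mod_cast e1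
        linarith
      have h7 : T ≤ T ^ (a σ + ε / 2) := by
        calc T = T ^ (1 : ℝ) := (Real.rpow_one T).symm
          _ ≤ T ^ (a σ + ε / 2) := Real.rpow_le_rpow_of_exponent_le (by linarith) (by linarith)
      have h8 : (2 : ℝ) ≤ D := by
        have : 0 ≤ C₁ + C₄ * 2 ^ (M + ε) / c := by positivity
        rw [hD]; linarith
      calc (S.card : ℝ) ≤ 2 * T := by linarith
        _ ≤ D * T ^ (a σ + ε / 2) := by gcongr
    · push Not at hcase
      have hSP : ∀ n ∈ S, P n := fun n hn => (Finset.mem_filter.1 hn).2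
      choose! ρ hρA hρ3 hρn hρn1 using hSP
      have hre1 : ∀ n ∈ S, (ρ n).re ≤ 1 := by
        intro n hn
        by_contra hcon
        push Not at hcon
        exact riemannZeta_ne_zero_of_one_le_re hcon.le (hρA n hn).1
      set G : ℕ → Prop := fun n => ∀ z ∈ closedBall (⟨1 + δ, (ρ n).im⟩ : ℂ) (1 + δ - (ρ n).re + δ),
        ‖riemannZeta z‖ ≤ T ^ η with hG
      have hgood : ((S.filter G).card : ℝ) ≤ C₁ * T ^ (2 * (1 - σ) + ε / 4) := by
        refine h₁ T hTT₁ σ hσ1 hσ2 (S.filter G) ρ fun n hn => ?_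
        rw [Finset.mem_filter] at hn
        obtain ⟨a1, a2, a3, a4⟩ := hρA n hn.1
        exact ⟨a1, (hρ3 n hn.1).le, a4, a2, hre1 n hn.1, ⟨(hρn n hn.1).le, hρn1 n hn.1⟩, hn.2⟩
      have hbad0 : ∀ n ∈ S.filter (fun n => ¬ G n), ∃ z ∈ closedBall (⟨1 + δ, (ρ n).im⟩ : ℂ)
          (1 + δ - (ρ n).re + δ), T ^ η < ‖riemannZeta z‖ := by
        intro n hn
        have h := (Finset.mem_filter.1 hn).2
        simp only [hG] at h
        push Not at h
        exact h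
      choose! s hs1 hs2 using hbad0
      have hbad := h₂ T hTT₂ σ hσ1 hσ2 (S.filter (fun n => ¬ G n)) ρ s (fun n hn => by
        have hnS := (Finset.mem_filter.1 hn).1
        obtain ⟨a1, a2, a3, a4⟩ := hρA n hnS
        exact ⟨(hρ3 n hnS).le, a4, a2, hre1 n hnS, ⟨(hρn n hnS).le, hρn1 n hnS⟩, hs1 n hn, hs2 n hn⟩)
      have hx : σ - 2 * δ ∈ Icc (1 / 2 : ℝ) 1 := ⟨by linarith, by linarith⟩
      have hvol := regU_vol (x0 := σ - 2 * δ) (V := T ^ (η / 2)) (H := T + 2)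
        (B := C₄ * (2 ^ (M + ε) * T ^ (a σ + ε / 4))) (by linarith [hx.1]) hx.2 (by
          intro x hx1 hx2
          have hxI : x ∈ Icc (1 / 2 : ℝ) 1 := ⟨by linarith [hx.1], hx2⟩
          have e1 := h₄ (T + 2) (by linarith) x hxI.1 hxI.2
          refine le_trans (measure_mono ?_) (e1.trans (ENNReal.ofReal_le_ofReal ?_))
          · rintro t ⟨t1, t2, t3⟩
            refine ⟨t1, t2, lt_of_le_of_lt ?_ t3⟩
            calc (T + 2) ^ ε₁ ≤ (T ^ (2 : ℝ)) ^ ε₁ := by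
                  apply Real.rpow_le_rpow (by linarith) _ hε₁0.le
                  rw [Real.rpow_two]
                  nlinarith
              _ = T ^ (2 * ε₁) := by rw [← Real.rpow_mul hTpos.le]
              _ ≤ T ^ (η / 2) := Real.rpow_le_rpow_of_exponent_le (by linarith) (by linarith)
          · have e2 : a x ≤ a (σ - 2 * δ) := hanti hx hxI hx1
            have e3 : a (σ - 2 * δ) ≤ a σ + ε / 8 := hunif _ hx _ ⟨hσ1, hσ2⟩ (by
              rw [abs_le]; constructor <;> linarith)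
            have e4 : (T + 2) ^ (a x + ε₁) ≤ 2 ^ (M + ε) * T ^ (a σ + ε / 4) := by
              calc (T + 2) ^ (a x + ε₁) ≤ (T + 2) ^ (a σ + ε / 4) :=
                    Real.rpow_le_rpow_of_exponent_le (by linarith) (by linarith)
                _ ≤ _ := add_rpow_le (by linarith) (by norm_num) (by linarith) (by linarith)
                    (by linarith [hM σ ⟨hσ1, hσ2⟩])
            gcongr)
      have hbad2 : ((S.filter (fun n => ¬ G n)).card : ℝ) ≤
          C₄ * 2 ^ (M + ε) / c * T ^ (a σ + ε / 4) := by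
        have e1 := hbad.trans hvol
        rw [ENNReal.ofReal_le_ofReal_iff (by positivity)] at e1
        have e2 : C₄ * 2 ^ (M + ε) / c * T ^ (a σ + ε / 4) =
          C₄ * (2 ^ (M + ε) * T ^ (a σ + ε / 4)) / c := by ring
        rw [e2, le_div_iff₀ hc]
        linarith
      have hcard : (S.card : ℝ) = ((S.filter G).card : ℝ) + ((S.filter (fun n => ¬ G n)).card : ℝ) := by
        have := Finset.card_filter_add_card_filter_not (s := S) G
        rw [← this]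
        push_cast
        ring
      rw [hcard]
      have e3 : T ^ (2 * (1 - σ) + ε / 4) ≤ T ^ (a σ + ε / 2) :=
        Real.rpow_le_rpow_of_exponent_le (by linarith) (by linarith)
      have e4 : T ^ (a σ + ε / 4) ≤ T ^ (a σ + ε / 2) :=
        Real.rpow_le_rpow_of_exponent_le (by linarith) (by linarith)
      have e5 : 0 ≤ T ^ (a σ + ε / 2) := by positivity
      calc ((S.filter G).card : ℝ) + ((S.filter (fun n => ¬ G n)).card : ℝ) ≤
            C₁ * T ^ (a σ + ε / 2) + C₄ * 2 ^ (M + ε) / c * T ^ (a σ + ε / 2) := by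
            refine add_le_add (hgood.trans (by gcongr)) (hbad2.trans (by gcongr))
        _ ≤ D * T ^ (a σ + ε / 2) := by rw [hD]; nlinarith

end DH31
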