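import Pool.Agent.H370R2.MV

/-!
Mean value theorem for Dirichlet polynomials at one point of each unit interval.
-/

open Complex MeasureTheory Set Filter Topology

namespace DH31

/-- Sobolev inequality on a unit interval -/
lemma sob {f f' : ℝ → ℂ} {a x : ℝ} (hf : ∀ t, HasDerivAt f (f' t) t) (hf' : Continuous f')
    (hx : x ∈ Icc a (a + 1)) :
    ‖f x‖ ^ 2 ≤ ∫ t in a..(a + 1), (2 * ‖f t‖ ^ 2 + ‖f' t‖ ^ 2) := by
  have hfc : Continuous f := continuous_iff_continuousAt.2 fun t => (hf t).continuousAt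
  set g : ℝ → ℝ := fun t => ‖f t‖ ^ 2 with hg
  set h : ℝ → ℝ := fun t => 2 * (‖f t‖ * ‖f' t‖) with hh
  have hgc : Continuous g := by fun_prop
  have hhc : Continuous h := by fun_prop
  have hder : ∀ t, HasDerivAt g (2 * inner ℝ (f t) (f' t)) t := fun t => (hf t).norm_sq
  have hdc : Continuous fun t => 2 * inner ℝ (f t) (f' t) := by
    exact continuous_const.mul (hfc.inner hf')
  have hh0 : ∀ t, 0 ≤ h t := fun t => by simp only [hh]; positivity
  have hdle : ∀ t, |2 * inner ℝ (f t) (f' t)| ≤ h t := by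
    intro t
    simp only [hh]
    rw [abs_mul, abs_two]
    gcongr
    exact abs_real_inner_le_norm _ _
  -- comparison of two points
  have hcmp : ∀ y ∈ Icc a (a + 1), g x ≤ g y + ∫ t in a..(a + 1), h t := by
    intro y hy
    have key : ∀ u v : ℝ, a ≤ u → u ≤ v → v ≤ a + 1 → |g v - g u| ≤ ∫ t in a..(a + 1), h t := by
      intro u v hu huv hv
      have h1 : ∫ t in u..v, 2 * inner ℝ (f t) (f' t) = g v - g u :=
        intervalIntegral.integral_eq_sub_of_hasDerivAt (fun t _ => hder t)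
          (hdc.intervalIntegrable _ _)
      rw [← h1]
      calc |∫ t in u..v, 2 * inner ℝ (f t) (f' t)|
          ≤ ∫ t in u..v, |2 * inner ℝ (f t) (f' t)| :=
            intervalIntegral.abs_integral_le_integral_abs huv
        _ ≤ ∫ t in u..v, h t := by
            refine intervalIntegral.integral_mono_on huv
              (hdc.abs.intervalIntegrable _ _) (hhc.intervalIntegrable _ _) fun t _ => hdle t
        _ ≤ ∫ t in a..(a + 1), h t := by
            refine intervalIntegral.integral_mono_interval hu huv hv ?_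
              (hhc.intervalIntegrable _ _)
            exact Filter.Eventually.of_forall fun t => hh0 t
    rcases le_total x y with hxy | hxy
    · have := key x y hx.1 hxy hy.2
      have := (abs_le.1 this).1
      linarith
    · have := key y x hy.1 hxy hx.2
      have := (abs_le.1 this).2
      linarith
  have hint : g x ≤ ∫ y in a..(a + 1), (g y + ∫ t in a..(a + 1), h t) := by
    have h1 : ∫ y in a..(a + 1), g x = g x := by simp
    rw [← h1]
    refine intervalIntegral.integral_mono_on (by linarith)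
      (continuous_const.intervalIntegrable _ _) ?_ hcmp
    exact (hgc.add continuous_const).intervalIntegrable _ _
  rw [intervalIntegral.integral_add (hgc.intervalIntegrable _ _)
    (continuous_const.intervalIntegrable _ _)] at hint
  simp only [intervalIntegral.integral_const, add_sub_cancel_left, one_smul] at hint
  have h2 : (∫ y in a..(a + 1), g y) + ∫ t in a..(a + 1), h t =
      ∫ t in a..(a + 1), (g t + h t) :=
    (intervalIntegral.integral_add (hgc.intervalIntegrable _ _)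
      (hhc.intervalIntegrable _ _)).symm
  rw [h2] at hint
  refine hint.trans ?_
  refine intervalIntegral.integral_mono_on (by linarith)
    ((hgc.add hhc).intervalIntegrable _ _) ?_ fun t _ => ?_
  · apply Continuous.intervalIntegrable
    fun_prop
  · simp only [hg, hh]
    nlinarith [sq_nonneg (‖f t‖ - ‖f' t‖)]

/-- Dirichlet polynomial -/
noncomputable def dp (b : ℕ → ℂ) (X : ℕ) (t : ℝ) : ℂ :=
  ∑ n ∈ Finset.Icc 1 X, b n * (n : ℂ) ^ (-(t : ℂ) * I)

lemma dp_hasDerivAt (b : ℕ → ℂ) (X : ℕ) (t : ℝ) :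
    HasDerivAt (dp b X) (dp (fun n => b n * (-(I * Real.log n))) X t) t := by
  unfold dp
  refine HasDerivAt.fun_sum fun n hn => ?_
  rw [Finset.mem_Icc] at hn
  have hn0 : (n : ℂ) ≠ 0 := by
    have : n ≠ 0 := by omega
    exact_mod_cast this
  have h1 : HasDerivAt (fun z : ℂ => -z * I) (-I) (t : ℂ) := by
    have := ((hasDerivAt_id (t : ℂ)).neg).mul_const I
    simpa using this
  have h2 := ((h1.const_cpow (c := (n : ℂ)) (Or.inl hn0)).const_mul (b n)).comp_ofReal
  refine h2.congr_deriv ?_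
  rw [← Complex.natCast_log]
  ring

lemma dp_continuous (b : ℕ → ℂ) (X : ℕ) : Continuous (dp b X) :=
  continuous_iff_continuousAt.2 fun t => (dp_hasDerivAt b X t).continuousAt

/-- mean value at one point of each of the unit intervals `[n, n+1]`, `n ∈ S` -/
theorem discrete_mv (b : ℕ → ℂ) (X N0 : ℕ) (S : Finset ℕ) (hS : S ⊆ Finset.range N0)
    (t : ℕ → ℝ) (ht : ∀ n ∈ S, t n ∈ Icc (n : ℝ) (n + 1)) :
    ∑ n ∈ S, ‖dp b X (t n)‖ ^ 2 ≤
      (2 + Real.log X ^ 2) * (N0 + 8 * X * (1 + Real.log X)) * ∑ n ∈ Finset.Icc 1 X, ‖b n‖ ^ 2 := by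
  set b' : ℕ → ℂ := fun n => b n * (-(I * Real.log n)) with hb'
  set F : ℝ → ℝ := fun t => 2 * ‖dp b X t‖ ^ 2 + ‖dp b' X t‖ ^ 2 with hF
  have hc1 := dp_continuous b X
  have hc2 := dp_continuous b' X
  have hFc : Continuous F := by fun_prop
  have hF0 : ∀ t, 0 ≤ F t := fun t => by simp only [hF]; positivity
  have h1 : ∑ n ∈ S, ‖dp b X (t n)‖ ^ 2 ≤ ∑ n ∈ Finset.range N0, ∫ u in (n : ℝ)..(n + 1), F u := by
    refine (Finset.sum_le_sum fun n hn => sob (dp_hasDerivAt b X) hc2 (ht n hn)).trans ?_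
    refine Finset.sum_le_sum_of_subset_of_nonneg hS fun n _ _ => ?_
    exact intervalIntegral.integral_nonneg (by linarith) fun u _ => hF0 u
  have h2 : ∑ n ∈ Finset.range N0, ∫ u in (n : ℝ)..(n + 1), F u = ∫ u in (0 : ℝ)..N0, F u := by
    have := intervalIntegral.sum_integral_adjacent_intervals (f := F) (a := fun n : ℕ => (n : ℝ))
      (n := N0) (μ := volume) (fun k _ => hFc.intervalIntegrable _ _)
    simpa using this
  have hN0 : (0 : ℝ) ≤ N0 := by positivity
  have h3 : ∫ u in (0 : ℝ)..N0, F u = 2 * (∫ u in (0 : ℝ)..N0, ‖dp b X u‖ ^ 2) +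
      ∫ u in (0 : ℝ)..N0, ‖dp b' X u‖ ^ 2 := by
    simp only [hF]
    rw [intervalIntegral.integral_add, intervalIntegral.integral_const_mul]
    · apply Continuous.intervalIntegrable; fun_prop
    · apply Continuous.intervalIntegrable; fun_prop
  have h4 := H370.mean_value b X 0 N0 hN0
  have h5 := H370.mean_value b' X 0 N0 hN0
  have h6 : ∑ n ∈ Finset.Icc 1 X, ‖b' n‖ ^ 2 ≤
      Real.log X ^ 2 * ∑ n ∈ Finset.Icc 1 X, ‖b n‖ ^ 2 := by
    rw [Finset.mul_sum]
    refine Finset.sum_le_sum fun n hn => ?_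
    rw [Finset.mem_Icc] at hn
    simp only [hb']
    have hn1 : (1 : ℝ) ≤ n := by exact_mod_cast hn.1
    have hlog : 0 ≤ Real.log n := Real.log_nonneg hn1
    have hlog2 : Real.log n ≤ Real.log X := Real.log_le_log (by linarith) (by exact_mod_cast hn.2)
    rw [norm_mul, norm_neg, norm_mul, Complex.norm_I, one_mul, Complex.norm_real,
      Real.norm_of_nonneg hlog, mul_pow, mul_comm]
    gcongr
  have hlogX : 0 ≤ Real.log X := Real.log_natCast_nonneg X
  rw [h2, h3] at h1
  simp only [sub_zero] at h4 h5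
  have hA : 0 ≤ (N0 : ℝ) + 8 * X * (1 + Real.log X) := by positivity
  have h5' : ∫ u in (0 : ℝ)..N0, ‖dp b' X u‖ ^ 2 ≤ ((N0 : ℝ) + 8 * X * (1 + Real.log X)) *
      (Real.log X ^ 2 * ∑ n ∈ Finset.Icc 1 X, ‖b n‖ ^ 2) := by
    refine le_trans h5 ?_
    gcongr
  have h4' : ∫ u in (0 : ℝ)..N0, ‖dp b X u‖ ^ 2 ≤ ((N0 : ℝ) + 8 * X * (1 + Real.log X)) *
      ∑ n ∈ Finset.Icc 1 X, ‖b n‖ ^ 2 := h4
  calc ∑ n ∈ S, ‖dp b X (t n)‖ ^ 2 ≤ _ := h1
    _ ≤ 2 * (((N0 : ℝ) + 8 * X * (1 + Real.log X)) * ∑ n ∈ Finset.Icc 1 X, ‖b n‖ ^ 2) +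
      ((N0 : ℝ) + 8 * X * (1 + Real.log X)) *
      (Real.log X ^ 2 * ∑ n ∈ Finset.Icc 1 X, ‖b n‖ ^ 2) := by gcongr
    _ = _ := by ring

end DH31
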