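import Pool.Agent.H31R2.DH.LVC
import Pool.Agent.H296R2.LE.Zeta

/-!
A local convexity principle on rectangles.
-/

open Complex Metric MeasureTheory Set Filter Topology

namespace DH31

/-- maximum principle on a rectangle with a Gaussian factor -/
lemma pl_abs {F : ℂ → ℂ} {x0 x1 σ t0 W L η B : ℝ} (h01 : x0 < x1) (h10 : x1 - x0 ≤ 1)
    (hσ : σ ∈ Icc x0 x1) (hW : 0 < W) (hL : 0 ≤ L) (hη : 0 < η) (hB : B ≤ η * W ^ 2)
    (hF : ∀ z : ℂ, z.re ∈ Icc x0 x1 → z.im ∈ Icc (t0 - W) (t0 + W) → DifferentiableAt ℂ F z)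
    (hall : ∀ z : ℂ, z.re ∈ Icc x0 x1 → z.im ∈ Icc (t0 - W) (t0 + W) → ‖F z‖ ≤ Real.exp (B * L))
    (hright : ∀ z : ℂ, z.re = x1 → z.im ∈ Icc (t0 - W) (t0 + W) → ‖F z‖ ≤ Real.exp (η * L))
    (hleft : ∀ z : ℂ, z.re = x0 → z.im ∈ Icc (t0 - W) (t0 + W) →
      ‖F z‖ ≤ Real.exp (((x1 - x0) / 2 + η) * L)) :
    ‖F (σ + t0 * I)‖ ≤ Real.exp (((x1 - σ) / 2 + 2 * η) * L) := by
  set s0 : ℂ := σ + t0 * I with hs0
  have hs0re : s0.re = σ := by simp [hs0]
  have hs0im : s0.im = t0 := by simp [hs0]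
  set P : ℂ → ℂ := fun s => -((L / 2 : ℝ) : ℂ) * ((x1 : ℂ) - s) + ((η * L : ℝ) : ℂ) * (s - s0) ^ 2
    with hP
  have hPre : ∀ s : ℂ, (P s).re = -(L / 2) * (x1 - s.re) +
      η * L * ((s.re - σ) ^ 2 - (s.im - t0) ^ 2) := by
    intro s
    simp only [hP, Complex.add_re, Complex.neg_re, Complex.mul_re, Complex.neg_im, Complex.ofReal_re,
      Complex.ofReal_im, Complex.sub_re, Complex.sub_im, pow_two, hs0re, hs0im]
    ring
  set U : Set ℂ := Ioo x0 x1 ×ℂ Ioo (t0 - W) (t0 + W) with hU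
  have hlt : t0 - W < t0 + W := by linarith
  have hUc : closure U = Icc x0 x1 ×ℂ Icc (t0 - W) (t0 + W) := by
    rw [hU, Complex.closure_reProdIm, closure_Ioo h01.ne, closure_Ioo hlt.ne]
  have hUf : frontier U = Icc x0 x1 ×ℂ {t0 - W, t0 + W} ∪ {x0, x1} ×ℂ Icc (t0 - W) (t0 + W) := by
    rw [hU, Complex.frontier_reProdIm, closure_Ioo h01.ne, closure_Ioo hlt.ne, frontier_Ioo h01,
      frontier_Ioo hlt]
  have hUb : Bornology.IsBounded U :=
    (Metric.isBounded_Ioo _ _).reProdIm (Metric.isBounded_Ioo _ _)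
  have hPd : Differentiable ℂ P := by
    simp only [hP]
    fun_prop
  have hd : DiffContOnCl ℂ (fun s => F s * cexp (P s)) U := by
    apply DifferentiableOn.diffContOnCl
    rw [hUc]
    intro z hz
    exact ((hF z hz.1 hz.2).mul (hPd z).cexp).differentiableWithinAt
  have hsq : ∀ x ∈ Icc x0 x1, (x - σ) ^ 2 ≤ 1 := by
    intro x hx
    have h1 : |x - σ| ≤ 1 := by
      rw [abs_le]; constructor <;> linarith [hx.1, hx.2, hσ.1, hσ.2]
    have := abs_le.1 h1
    nlinarith
  have hfr : ∀ z ∈ frontier U, ‖F z * cexp (P z)‖ ≤ Real.exp (2 * η * L) := by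
    intro z hz
    rw [norm_mul, Complex.norm_exp, hPre]
    rw [hUf] at hz
    rcases hz with ⟨h1, h2⟩ | ⟨h1, h2⟩
    · -- top and bottom
      have h3 : (z.im - t0) ^ 2 = W ^ 2 := by
        rcases h2 with h2 | h2
        · rw [h2]; ring
        · rw [Set.mem_singleton_iff] at h2
          rw [h2]; ring
      have h4 : z.im ∈ Icc (t0 - W) (t0 + W) := by
        rcases h2 with h2 | h2
        · rw [h2]; exact ⟨le_rfl, hlt.le⟩
        · rw [Set.mem_singleton_iff] at h2
          rw [h2]; exact ⟨hlt.le, le_rfl⟩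
      have h5 := hall z h1 h4
      have h6 := hsq z.re h1
      calc ‖F z‖ * Real.exp (-(L / 2) * (x1 - z.re) + η * L * ((z.re - σ) ^ 2 - (z.im - t0) ^ 2)) ≤
          Real.exp (B * L) * Real.exp (-(L / 2) * (x1 - z.re) +
            η * L * ((z.re - σ) ^ 2 - (z.im - t0) ^ 2)) := by gcongr
        _ = Real.exp (B * L + (-(L / 2) * (x1 - z.re) +
            η * L * ((z.re - σ) ^ 2 - W ^ 2))) := by rw [← Real.exp_add, h3]
        _ ≤ Real.exp (2 * η * L) := by
            apply Real.exp_le_exp.2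
            have e1 : 0 ≤ (L / 2) * (x1 - z.re) := mul_nonneg (by positivity) (by
              have h1' : z.re ∈ Icc x0 x1 := h1
              linarith [h1'.2])
            have e2 : B * L ≤ η * W ^ 2 * L := by gcongr
            have e3 : η * L * (z.re - σ) ^ 2 ≤ η * L * 1 := by gcongr
            have e4 : 0 ≤ η * L := by positivity
            nlinarith
    · rcases h1 with h1 | h1
      · -- left
        have h5 := hleft z h1 h2
        calc ‖F z‖ * Real.exp (-(L / 2) * (x1 - z.re) + η * L * ((z.re - σ) ^ 2 - (z.im - t0) ^ 2)) ≤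
            Real.exp (((x1 - x0) / 2 + η) * L) * Real.exp (-(L / 2) * (x1 - z.re) +
            η * L * ((z.re - σ) ^ 2 - (z.im - t0) ^ 2)) := by gcongr
          _ ≤ Real.exp (2 * η * L) := by
            rw [← Real.exp_add, h1]
            apply Real.exp_le_exp.2
            have h6 := hsq x0 ⟨le_rfl, h01.le⟩
            have e3 : η * L * (x0 - σ) ^ 2 ≤ η * L * 1 := by gcongr
            have e4 : 0 ≤ η * L * (z.im - t0) ^ 2 := by positivity
            nlinarith
      · rw [Set.mem_singleton_iff] at h1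
        have h5 := hright z h1 h2
        calc ‖F z‖ * Real.exp (-(L / 2) * (x1 - z.re) + η * L * ((z.re - σ) ^ 2 - (z.im - t0) ^ 2)) ≤
            Real.exp (η * L) * Real.exp (-(L / 2) * (x1 - z.re) +
            η * L * ((z.re - σ) ^ 2 - (z.im - t0) ^ 2)) := by gcongr
          _ ≤ Real.exp (2 * η * L) := by
            rw [← Real.exp_add, h1]
            apply Real.exp_le_exp.2
            have h6 := hsq x1 ⟨h01.le, le_rfl⟩
            have e3 : η * L * (x1 - σ) ^ 2 ≤ η * L * 1 := by gcongr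
            have e4 : 0 ≤ η * L * (z.im - t0) ^ 2 := by positivity
            nlinarith
  have hs0c : s0 ∈ closure U := by
    rw [hUc]
    refine ⟨?_, ?_⟩
    · rw [Set.mem_preimage, hs0re]; exact hσ
    · rw [Set.mem_preimage, hs0im]; constructor <;> linarith
  have h7 := Complex.norm_le_of_forall_mem_frontier_norm_le hUb hd hfr hs0c
  rw [norm_mul, Complex.norm_exp, hPre, hs0re, hs0im] at h7
  have h8 : -(L / 2) * (x1 - σ) + η * L * ((σ - σ) ^ 2 - (t0 - t0) ^ 2) = -((x1 - σ) / 2 * L) := by ring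
  rw [h8] at h7
  calc ‖F s0‖ = ‖F s0‖ * Real.exp (-((x1 - σ) / 2 * L)) * Real.exp ((x1 - σ) / 2 * L) := by
        rw [mul_assoc, ← Real.exp_add]; simp
    _ ≤ Real.exp (2 * η * L) * Real.exp ((x1 - σ) / 2 * L) := by gcongr
    _ = _ := by rw [← Real.exp_add]; congr 1; ring

/-- the local convexity principle for zeta -/
theorem pl_zeta {η : ℝ} (hη : 0 < η) : ∃ W : ℝ, 1 ≤ W ∧ ∃ T0 : ℝ, 1 ≤ T0 ∧ ∀ T : ℝ, T0 ≤ T →
    ∀ σ1 : ℝ, 1 / 2 < σ1 → σ1 ≤ 1 → ∀ σ : ℝ, 1 / 2 ≤ σ → σ ≤ σ1 → ∀ t0 : ℝ, W + 2 ≤ t0 → t0 + W ≤ T →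
    (∀ t' : ℝ, |t' - t0| ≤ W → ‖riemannZeta (σ1 + t' * I)‖ ≤ T ^ η) →
    ‖riemannZeta (σ + t0 * I)‖ ≤ T ^ ((σ1 - σ) / 2 + 4 * η) := by
  obtain ⟨C, hC, hgrow⟩ := Pool.Agent.H296R2.LE.zeta_growth2
  obtain ⟨K, hK, hX⟩ := H345.Chi.XX_size
  have ev1 : ∀ᶠ T : ℝ in atTop, Real.exp K ≤ T ^ η := (tendsto_rpow_atTop hη).eventually_ge_atTop _
  obtain ⟨T1, hT1⟩ := Filter.eventually_atTop.1 ev1
  refine ⟨4 / (2 * η) + 1, by
    have : 0 < 4 / (2 * η) := by positivity
    linarith, max (max T1 C) 2, le_max_of_le_right (by norm_num), ?_⟩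
  intro T hT σ1 h1 h2 σ h3 h4 t0 h5 h6 hgood
  set W : ℝ := 4 / (2 * η) + 1 with hW
  have hW1 : 1 ≤ W := by
    have : 0 < 4 / (2 * η) := by positivity
    linarith
  have hTT1 := hT1 T ((le_max_left _ _).trans ((le_max_left _ _).trans hT))
  have hTC : C ≤ T := (le_max_right _ _).trans ((le_max_left _ _).trans hT)
  have hT2 : 2 ≤ T := (le_max_right _ _).trans hT
  have hTpos : 0 < T := by linarith
  set L := Real.log T with hL
  have hL0 : 0 ≤ L := Real.log_nonneg (by linarith)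
  have hrp : ∀ p : ℝ, T ^ p = Real.exp (p * L) := by
    intro p
    rw [Real.rpow_def_of_pos hTpos, mul_comm]
  have key := pl_abs (F := riemannZeta) (x0 := 1 - σ1) (x1 := σ1) (σ := σ) (t0 := t0) (W := W)
    (L := L) (η := 2 * η) (B := 4) (by linarith) (by linarith) ⟨by linarith, h4⟩ (by linarith) hL0
    (by positivity) (by
      have e1 : 4 ≤ 2 * η * W := by
        rw [hW, mul_add, mul_div_cancel₀ _ (by positivity : (2 * η) ≠ 0)]
        linarith
      have e2 : 2 * η * W ≤ 2 * η * W ^ 2 := by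
        have : W ≤ W ^ 2 := by nlinarith
        gcongr
      linarith)
    (fun z _ hz2 => (zeta_analyticAt (by linarith [hz2.1])).differentiableAt)
    (fun z hz1 hz2 => by
      have hz3 : 1 ≤ z.im := by linarith [hz2.1]
      have hz4 : z.im ≤ T := by linarith [hz2.2]
      refine (hgrow z (by linarith [hz1.1]) (by linarith [hz1.2]) hz3).trans ?_
      rw [← hrp]
      have e1 : T ^ (4 : ℝ) = T * T ^ 3 := by
        have : (4 : ℝ) = ((4 : ℕ) : ℝ) := by norm_num
        rw [this, Real.rpow_natCast]; ring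
      rw [e1]
      gcongr)
    (fun z hz1 hz2 => by
      have e1 : z = (σ1 : ℂ) + (z.im : ℂ) * I := by
        apply Complex.ext <;> simp [hz1]
      have e2 := hgood z.im (by rw [abs_le]; constructor <;> linarith [hz2.1, hz2.2])
      rw [← e1, hrp] at e2
      refine e2.trans (Real.exp_le_exp.2 ?_)
      nlinarith)
    (fun z hz1 hz2 => by
      have hz3 : 1 ≤ z.im := by linarith [hz2.1]
      have hz4 : z.im ≤ T := by linarith [hz2.2]
      have e0 := Pool.Agent.H296R2.LE.zeta_fe' (s := z) (by rw [hz1]; linarith) (by linarith)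
      set w := 1 - (starRingEnd ℂ) z with hw
      have hwre : w.re = σ1 := by simp [hw, hz1]
      have hwim : w.im = z.im := by simp [hw]
      have e1 : w = (σ1 : ℂ) + (z.im : ℂ) * I := by
        apply Complex.ext <;> simp [hwre, hwim]
      have e2 := hgood z.im (by rw [abs_le]; constructor <;> linarith [hz2.1, hz2.2])
      rw [← e1] at e2
      have e3 := (hX w (by rw [hwre]; linarith) (by rw [hwre]; linarith) (by rw [hwim]; exact hz3)).2
      rw [hwre, hwim] at e3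
      have e4 : z.im ^ (σ1 - 1 / 2) ≤ T ^ (σ1 - 1 / 2) :=
        Real.rpow_le_rpow (by linarith) hz4 (by linarith)
      rw [e0, Complex.norm_conj, norm_mul]
      calc ‖H345.XX w‖ * ‖riemannZeta w‖ ≤ (T ^ η * T ^ (σ1 - 1 / 2)) * T ^ η := by
            have e5 : ‖H345.XX w‖ ≤ T ^ η * T ^ (σ1 - 1 / 2) := e3.trans (by gcongr)
            gcongr
        _ = Real.exp (((σ1 - (1 - σ1)) / 2 + 2 * η) * L) := by
            rw [hrp, hrp, ← Real.exp_add, ← Real.exp_add]; congr 1; ring)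
  rw [hrp]
  refine key.trans (Real.exp_le_exp.2 ?_)
  apply le_of_eq
  ring

end DH31
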