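import Pool.Agent.H31R2.DH.PL

/-!
Zero density bounds imply large value estimates of fourth moment strength.
-/

open Complex Metric MeasureTheory Set Filter Topology

namespace DH31

/-- heights in `[1, T]` at which zeta is larger than `V` on the line `Re s = σ` -/
def bigV (σ V T : ℝ) : Set ℝ :=
  {t : ℝ | 1 ≤ t ∧ t ≤ T ∧ V < ‖riemannZeta (σ + t * I)‖}

/-- heights in `[1, T]` at which zeta is larger than `V` somewhere on or to the right of the line
`Re s = σ` -/
def bigW (σ V T : ℝ) : Set ℝ :=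
  {t : ℝ | 1 ≤ t ∧ t ≤ T ∧ ∃ x : ℝ, σ ≤ x ∧ V < ‖riemannZeta (x + t * I)‖}

lemma low_of_slope {a : ℝ → ℝ} (ha1 : 0 ≤ a 1)
    (hsl : AntitoneOn (fun σ => a σ + 2 * σ) (Icc (1 / 2) 1)) :
    ∀ σ ∈ Icc (1 / 2 : ℝ) 1, 2 * (1 - σ) ≤ a σ := by
  intro σ hσ
  have := hsl hσ (show (1 : ℝ) ∈ Icc (1 / 2 : ℝ) 1 by constructor <;> norm_num) hσ.2
  simp only at this
  linarith

lemma anti_of_slope {a : ℝ → ℝ}
    (hsl : AntitoneOn (fun σ => a σ + 2 * σ) (Icc (1 / 2) 1)) :
    AntitoneOn a (Icc (1 / 2) 1) := by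
  intro x hx y hy hxy
  have := hsl hx hy hxy
  simp only at this
  linarith

theorem strong {a : ℝ → ℝ} (hac : ContinuousOn a (Icc (1 / 2) 1)) (ha1 : 0 ≤ a 1)
    (hsl : AntitoneOn (fun σ => a σ + 2 * σ) (Icc (1 / 2) 1))
    (H : ∀ ε : ℝ, 0 < ε → ∃ C : ℝ, 0 < C ∧ ∃ T0 : ℝ, ∀ T : ℝ, T0 ≤ T → ∀ σ : ℝ, 1 / 2 ≤ σ → σ ≤ 1 →
      (cnt (zeros σ T) : ℝ) ≤ C * T ^ (a σ + ε)) :
    ∀ ε : ℝ, 0 < ε → ∃ C : ℝ, 0 < C ∧ ∃ T0 : ℝ, ∀ T : ℝ, T0 ≤ T → ∀ σ : ℝ, 1 / 2 ≤ σ → σ ≤ 1 →
      ∀ V : ℝ, T ^ ε ≤ V →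
      volume (bigW σ V T) ≤ ENNReal.ofReal (C * T ^ (a σ + ε) / V ^ 4) := by
  classical
  intro ε hε
  obtain ⟨M, hM0, hM⟩ := bdd hac
  have hlow := low_of_slope ha1 hsl
  set η : ℝ := min (ε / 64) (1 / 64) with hηdef
  have hη : 0 < η := lt_min (by positivity) (by norm_num)
  have hη1 : 64 * η ≤ ε := by
    have : η ≤ ε / 64 := min_le_left _ _
    linarith
  have hη2 : η ≤ 1 / 64 := min_le_right _ _
  set δ : ℝ := min (1 / 12) η with hδdef
  have hδ : 0 < δ := lt_min (by norm_num) hη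
  have hδ1 : δ ≤ 1 / 12 := min_le_left _ _
  have hδ2 : δ ≤ η := min_le_right _ _
  obtain ⟨W, hW1, T₁, hT₁1, h₁⟩ := pl_zeta hη
  obtain ⟨κ, hκ, T₂, hT₂2, h₂⟩ := near_one hη
  obtain ⟨T₃, hT₃3, h₃⟩ := zero_near hδ hδ1 hη
  obtain ⟨C₄, hC₄, T₄, h₄⟩ := H η hη
  obtain ⟨A, hA1, hA⟩ := zeta_bounds (a := 2) (by norm_num)
  have ev1 : ∀ᶠ T : ℝ in atTop, 6 * (W + 6) + A ≤ T ^ ε := (tendsto_rpow_atTop hε).eventually_ge_atTop _
  have ev2 : ∀ᶠ T : ℝ in atTop, 2 ≤ T ^ η := (tendsto_rpow_atTop hη).eventually_ge_atTop _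
  obtain ⟨T₅, h₅⟩ := Filter.eventually_atTop.1 (ev1.and ev2)
  refine ⟨2 * (W + 1) * (C₄ * 3 ^ (M + 1)), by positivity,
    max (max (max T₁ T₂) (max T₃ T₄)) (max T₅ (W + 10)), ?_⟩
  intro T hT σ hσ1 hσ2 V hV
  have hTT₁ : T₁ ≤ T := (le_max_left _ _).trans ((le_max_left _ _).trans ((le_max_left _ _).trans hT))
  have hTT₂ : T₂ ≤ T := (le_max_right _ _).trans ((le_max_left _ _).trans ((le_max_left _ _).trans hT))
  have hTT₃ : T₃ ≤ T := (le_max_left _ _).trans ((le_max_right _ _).trans ((le_max_left _ _).trans hT))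
  have hTT₄ : T₄ ≤ T := (le_max_right _ _).trans ((le_max_right _ _).trans ((le_max_left _ _).trans hT))
  have hTT₅ := h₅ T ((le_max_left _ _).trans ((le_max_right _ _).trans hT))
  have hTW : W + 10 ≤ T := (le_max_right _ _).trans ((le_max_right _ _).trans hT)
  obtain ⟨hb1, hb2⟩ := hTT₅
  have hT3 : 3 ≤ T := by linarith
  have hTpos : 0 < T := by linarith
  have hTε : 1 ≤ T ^ ε := Real.one_le_rpow (by linarith) hε.le
  have hV0 : 0 < V := by linarith
  set L := Real.log T with hL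
  have hL0 : 0 < L := Real.log_pos (by linarith)
  set v : ℝ := Real.log V / L with hv
  have hVv : V = T ^ v := by
    rw [Real.rpow_def_of_pos hTpos, hv, mul_div_cancel₀ _ hL0.ne', Real.exp_log hV0]
  have hvε : ε ≤ v := by
    rw [hv, le_div_iff₀ hL0]
    calc ε * L = Real.log (T ^ ε) := by rw [Real.log_rpow hTpos]
      _ ≤ Real.log V := Real.log_le_log (by positivity) hV
  set T' : ℝ := 2 * T with hT'
  have hT'pos : 0 < T' := by linarith
  have hT'1 : 1 ≤ T' := by linarith
  -- T' powers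
  have hpow : ∀ p : ℝ, 0 ≤ p → p ≤ 1 / 4 → T' ^ (p + 4 * η) ≤ T ^ (p + 5 * η) := by
    intro p hp0 hp1
    have e1 : T' ≤ T ^ (1 + η) := by
      rw [Real.rpow_add hTpos, Real.rpow_one, hT']
      nlinarith
    calc T' ^ (p + 4 * η) ≤ (T ^ (1 + η)) ^ (p + 4 * η) :=
          Real.rpow_le_rpow hT'pos.le e1 (by positivity)
      _ = T ^ ((1 + η) * (p + 4 * η)) := by rw [← Real.rpow_mul hTpos.le]
      _ ≤ T ^ (p + 5 * η) := by
          apply Real.rpow_le_rpow_of_exponent_le (by linarith)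
          nlinarith
  -- far to the right
  have hright : ∀ x t : ℝ, 2 ≤ x → ‖riemannZeta (x + t * I)‖ ≤ V := by
    intro x t hx
    have := (hA (x + t * I) (by simpa using hx)).1
    linarith
  -- small heights
  have hsmall : ∀ x t : ℝ, σ ≤ x → 1 ≤ t → t ≤ W + 4 → ‖riemannZeta (x + t * I)‖ ≤ V := by
    intro x t hx ht1 ht2
    by_cases hx2 : 2 ≤ x
    · exact hright x t hx2
    · push Not at hx2
      have e1 := Pool.Agent.H388LH.zeta_growth (s := (x : ℂ) + t * I) (by simp; linarith)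
        (by simpa using ht1)
      have e2 : ‖(x : ℂ) + t * I‖ ≤ W + 6 := by
        have := Complex.norm_le_abs_re_add_abs_im ((x : ℂ) + t * I)
        simp only [Complex.add_re, Complex.ofReal_re, Complex.mul_re, Complex.I_re, mul_zero,
          Complex.ofReal_im, Complex.I_im, mul_one, sub_self, add_zero, Complex.add_im,
          Complex.mul_im, zero_add] at this
        rw [abs_of_nonneg (by linarith : 0 ≤ x), abs_of_nonneg (by linarith : 0 ≤ t)] at this
        linarith
      linarith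
  have hT'η : T' ^ η ≤ V := by
    have e1 := hpow 0 le_rfl (by norm_num)
    rw [zero_add, zero_add] at e1
    have e2 : T' ^ η ≤ T' ^ (4 * η) := Real.rpow_le_rpow_of_exponent_le hT'1 (by linarith)
    have e3 : T ^ (5 * η) ≤ V := by
      rw [hVv]
      exact Real.rpow_le_rpow_of_exponent_le (by linarith) (by linarith)
    linarith
  have haσ := hlow σ ⟨hσ1, hσ2⟩
  set σ1 : ℝ := σ + 2 * v - 12 * η with hσ1def
  by_cases hcase : 1 ≤ σ1
  · -- no large values
    have hempty : bigW σ V T = ∅ := by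
      rw [eq_empty_iff_forall_notMem]
      rintro t ⟨ht1, ht2, x, hx, ht3⟩
      by_cases ht4 : t ≤ W + 4
      · linarith [hsmall x t hx ht1 ht4]
      · push Not at ht4
        by_cases hx1 : 1 ≤ x
        · have e1 := h₂ T' (by linarith) (x + t * I) (by simp; linarith) (by simp; linarith)
            (by simp; linarith)
          linarith
        · push Not at hx1
          have e1 := h₁ T' (by linarith) 1 (by norm_num) le_rfl x (by linarith) hx1.le t
            (by linarith) (by linarith)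
            (by
              intro t' ht'
              have := abs_le.1 ht'
              refine h₂ T' (by linarith) _ ?_ ?_ ?_
              · simp; linarith
              · simp; linarith
              · simp; linarith)
          have e2 := hpow ((1 - x) / 2) (by linarith) (by linarith)
          have e3 : T ^ ((1 - x) / 2 + 5 * η) ≤ V := by
            rw [hVv]
            apply Real.rpow_le_rpow_of_exponent_le (by linarith)
            linarith
          linarith
    rw [hempty, measure_empty]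
    exact zero_le
  · push Not at hcase
    set Z := (zeros_finite (σ1 - 2 * δ) (T' + 1)).toFinset with hZ
    have hsub : bigW σ V T ⊆ ⋃ ρ ∈ Z, Icc (ρ.im - (W + 1)) (ρ.im + (W + 1)) := by
      rintro t ⟨ht1, ht2, x, hx, ht3⟩
      by_cases ht4 : t ≤ W + 4
      · linarith [hsmall x t hx ht1 ht4]
      · push Not at ht4
        have hex : ∃ t' : ℝ, |t' - t| ≤ W ∧ ∃ x' : ℝ, σ1 ≤ x' ∧
            T' ^ η < ‖riemannZeta (x' + t' * I)‖ := by
          by_contra hcon
          push Not at hcon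
          by_cases hx1 : σ1 ≤ x
          · have e1 := hcon t (by rw [sub_self, abs_zero]; linarith) x hx1
            linarith
          · push Not at hx1
            have e1 := h₁ T' (by linarith) σ1 (by linarith) hcase.le x (by linarith) hx1.le t
              (by linarith) (by linarith) (fun t' ht' => hcon t' ht' σ1 le_rfl)
            have e2 := hpow ((σ1 - x) / 2) (by linarith) (by linarith)
            have e3 : T ^ ((σ1 - x) / 2 + 5 * η) ≤ V := by
              rw [hVv]
              apply Real.rpow_le_rpow_of_exponent_le (by linarith)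
              linarith
            linarith
        obtain ⟨t', ht'1, ht'2⟩ := hex
        have h6 := abs_le.1 ht'1
        obtain ⟨ρ, hρ, hρt⟩ := h₃ T' (by linarith) t' (by linarith) (by linarith) σ1 (by linarith)
          hcase.le ht'2
        rw [mem_iUnion₂]
        refine ⟨ρ, by rw [hZ, Set.Finite.mem_toFinset]; exact hρ, ?_⟩
        have := abs_le.1 hρt
        exact ⟨by linarith, by linarith⟩
    have hvol : volume (bigW σ V T) ≤ ENNReal.ofReal (2 * (W + 1) * Z.card) := by
      calc volume (bigW σ V T) ≤ volume (⋃ ρ ∈ Z, Icc (ρ.im - (W + 1)) (ρ.im + (W + 1))) :=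
            measure_mono hsub
        _ ≤ ∑ ρ ∈ Z, volume (Icc (ρ.im - (W + 1)) (ρ.im + (W + 1))) :=
            measure_biUnion_finset_le Z _
        _ = ∑ ρ ∈ Z, ENNReal.ofReal (2 * (W + 1)) := by
            refine Finset.sum_congr rfl fun ρ _ => ?_
            rw [Real.volume_Icc]; congr 1; ring
        _ = ENNReal.ofReal (2 * (W + 1) * Z.card) := by
            rw [Finset.sum_const, nsmul_eq_mul,
              mul_comm (2 * (W + 1)), ENNReal.ofReal_mul (p := (Z.card : ℝ)) (q := 2 * (W + 1))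
                (Nat.cast_nonneg _), ENNReal.ofReal_natCast]
    refine hvol.trans (ENNReal.ofReal_le_ofReal ?_)
    have hx : σ1 - 2 * δ ∈ Icc (1 / 2 : ℝ) 1 := ⟨by linarith, by linarith⟩
    have h6 := h₄ (T' + 1) (by linarith) (σ1 - 2 * δ) hx.1 hx.2
    have h7 : a (σ1 - 2 * δ) ≤ a σ - 4 * v + 28 * η := by
      have := hsl ⟨hσ1, hσ2⟩ hx (by linarith)
      simp only at this
      linarith
    have h8 : (Z.card : ℝ) ≤ cnt (zeros (σ1 - 2 * δ) (T' + 1)) := card_le_cnt
    set p : ℝ := a σ - 4 * v + 29 * η with hp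
    have hp0 : 0 ≤ p := by linarith
    have hpM : p ≤ M + 1 := by linarith [hM σ ⟨hσ1, hσ2⟩]
    have h9 : (T' + 1) ^ (a (σ1 - 2 * δ) + η) ≤ 3 ^ (M + 1) * (T ^ (a σ + ε) / V ^ 4) := by
      calc (T' + 1) ^ (a (σ1 - 2 * δ) + η) ≤ (T' + 1) ^ p :=
            Real.rpow_le_rpow_of_exponent_le (by linarith) (by linarith)
        _ ≤ (3 * T) ^ p := Real.rpow_le_rpow (by linarith) (by linarith) hp0
        _ = 3 ^ p * T ^ p := Real.mul_rpow (by norm_num) (by linarith)
        _ ≤ 3 ^ (M + 1) * (T ^ (a σ + ε) / V ^ 4) := by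
            have e1 : (3 : ℝ) ^ p ≤ 3 ^ (M + 1) :=
              Real.rpow_le_rpow_of_exponent_le (by norm_num) hpM
            have e2 : T ^ (a σ + ε) / V ^ 4 = T ^ (a σ + ε - 4 * v) := by
              rw [Real.rpow_sub hTpos, hVv, ← Real.rpow_natCast (T ^ v), ← Real.rpow_mul hTpos.le]
              congr 2
              push_cast
              ring
            have e3 : T ^ p ≤ T ^ (a σ + ε) / V ^ 4 := by
              rw [e2]
              apply Real.rpow_le_rpow_of_exponent_le (by linarith)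
              linarith
            have e4 : 0 ≤ T ^ p := by positivity
            gcongr
    calc 2 * (W + 1) * (Z.card : ℝ) ≤ 2 * (W + 1) * (C₄ * (3 ^ (M + 1) * (T ^ (a σ + ε) / V ^ 4))) := by
          have h10 : (Z.card : ℝ) ≤ C₄ * (3 ^ (M + 1) * (T ^ (a σ + ε) / V ^ 4)) :=
            h8.trans (h6.trans (by gcongr))
          gcongr
      _ = _ := by ring

end DH31
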