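import Pool.Agent.H31R2.DH.Tail

/-!
Large values of zeta and of the partial sum of length `T ^ 2`.
-/

open Complex Metric MeasureTheory Set Filter Topology

namespace DH31

/-- heights in `[1, T]` at which the partial sum of length `⌊T ^ 2⌋` of zeta is large -/
def sumV (σ V T : ℝ) : Set ℝ :=
  {t : ℝ | 1 ≤ t ∧ t ≤ T ∧ V < ‖∑ n ∈ Finset.Icc 1 ⌊T ^ 2⌋₊, (n : ℂ) ^ (-((σ : ℂ) + t * I))‖}

lemma tail_int {N : ℕ} (hN : 1 ≤ N) {s : ℂ} (hs : 0 < s.re) :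
    ‖∫ u in Ioi (N : ℝ), ((Int.fract u : ℝ) : ℂ) * (u : ℂ) ^ (-s - 1)‖ ≤
      (N : ℝ) ^ (-s.re) / s.re := by
  have hN0 : (0 : ℝ) < N := by exact_mod_cast hN
  have h1 : ∫ u in Ioi (N : ℝ), (u : ℝ) ^ (-s.re - 1) = (N : ℝ) ^ (-s.re) / s.re := by
    rw [integral_Ioi_rpow_of_lt (by linarith) hN0]
    have h3 : -s.re - 1 + 1 = -s.re := by ring
    rw [h3, neg_div_neg_eq]
  rw [← h1]
  apply norm_integral_le_of_norm_le
  · exact integrableOn_Ioi_rpow_of_lt (by linarith) hN0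
  · rw [ae_restrict_iff' measurableSet_Ioi]
    refine Filter.Eventually.of_forall (fun u hu => ?_)
    have hu0 : (0:ℝ) < u := lt_trans hN0 hu
    rw [norm_mul, Complex.norm_real, Real.norm_eq_abs, Int.abs_fract,
      Complex.norm_cpow_eq_rpow_re_of_pos hu0]
    have h3 : (-s - 1).re = -s.re - 1 := by simp
    rw [h3]
    calc Int.fract u * u ^ (-s.re - 1) ≤ 1 * u ^ (-s.re - 1) := by
          apply mul_le_mul_of_nonneg_right (Int.fract_lt_one u).le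
          positivity
      _ = u ^ (-s.re - 1) := one_mul _

lemma sum_close {T σ t : ℝ} (hT : 2 ≤ T) (hσ1 : 1 / 2 ≤ σ) (hσ2 : σ ≤ 1) (ht1 : 1 ≤ t) (htT : t ≤ T) :
    ‖riemannZeta (σ + t * I) - ∑ n ∈ Finset.Icc 1 ⌊T ^ 2⌋₊, (n : ℂ) ^ (-((σ : ℂ) + t * I))‖ ≤
      T ^ (2 * (1 - σ)) / t + 6 := by
  set N := ⌊T ^ 2⌋₊ with hN
  set s : ℂ := σ + t * I with hs
  have hsre : s.re = σ := by simp [hs]
  have hsim : s.im = t := by simp [hs]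
  have hT2 : (4 : ℝ) ≤ T ^ 2 := by nlinarith
  have hN1 : 1 ≤ N := by
    rw [hN, Nat.one_le_floor_iff]; linarith
  have hN0 : (0 : ℝ) < N := by exact_mod_cast hN1
  have hNle : (N : ℝ) ≤ T ^ 2 := Nat.floor_le (by positivity)
  have hNge : T ^ 2 / 2 ≤ N := by
    have := Nat.lt_floor_add_one (T ^ 2)
    rw [← hN] at this
    linarith
  have h := ZU.J_a1.zeta_formula N hN1 s (by rw [hsre]; linarith) (by
    intro h; rw [h] at hsim; simp at hsim; linarith)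
  have e1 : riemannZeta s - ∑ n ∈ Finset.Icc 1 N, (n : ℂ) ^ (-s) = (N : ℂ) ^ (1 - s) / (s - 1) -
      s * ∫ u in Ioi (N : ℝ), ((Int.fract u : ℝ) : ℂ) * (u : ℂ) ^ (-s - 1) := by
    rw [h, ZU.DN]; ring
  rw [e1]
  refine (norm_sub_le _ _).trans ?_
  have h1 : ‖(N : ℂ) ^ (1 - s) / (s - 1)‖ ≤ T ^ (2 * (1 - σ)) / t := by
    rw [norm_div]
    have e2 : ‖(N : ℂ) ^ (1 - s)‖ = (N : ℝ) ^ (1 - σ) := by
      rw [Complex.norm_natCast_cpow_of_pos (by omega)]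
      simp [hsre]
    have e3 : t ≤ ‖s - 1‖ := by
      have := Complex.abs_im_le_norm (s - 1)
      simp only [Complex.sub_im, Complex.one_im, sub_zero, hsim] at this
      exact (le_abs_self _).trans this
    have e4 : (N : ℝ) ^ (1 - σ) ≤ T ^ (2 * (1 - σ)) := by
      calc (N : ℝ) ^ (1 - σ) ≤ (T ^ 2) ^ (1 - σ) := Real.rpow_le_rpow hN0.le hNle (by linarith)
        _ = T ^ (2 * (1 - σ)) := by
            rw [← Real.rpow_two, ← Real.rpow_mul (by linarith)]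
    rw [e2]
    have : 0 < t := by linarith
    gcongr
  have h2 : ‖s * ∫ u in Ioi (N : ℝ), ((Int.fract u : ℝ) : ℂ) * (u : ℂ) ^ (-s - 1)‖ ≤ 6 := by
    rw [norm_mul]
    have e2 := tail_int hN1 (s := s) (by rw [hsre]; linarith)
    have e3 : ‖s‖ ≤ 1 + T := by
      have := Complex.norm_le_abs_re_add_abs_im s
      rw [hsre, hsim, abs_of_nonneg (by linarith : 0 ≤ σ), abs_of_nonneg (by linarith : 0 ≤ t)] at this
      linarith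
    have e4 : (N : ℝ) ^ (-s.re) / s.re ≤ 4 / T := by
      rw [hsre]
      have e5 : (N : ℝ) ^ (-σ) ≤ (N : ℝ) ^ (-(1 / 2) : ℝ) :=
        Real.rpow_le_rpow_of_exponent_le (by exact_mod_cast hN1) (by linarith)
      have e6 : (N : ℝ) ^ (-(1 / 2) : ℝ) ≤ 2 / T := by
        rw [Real.rpow_neg hN0.le, ← Real.sqrt_eq_rpow, ← one_div,
          div_le_div_iff₀ (Real.sqrt_pos.2 hN0) (by linarith), one_mul]
        have : T / 2 ≤ Real.sqrt N := by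
          apply Real.le_sqrt_of_sq_le
          nlinarith
        linarith
      calc (N : ℝ) ^ (-σ) / σ ≤ (2 / T) / (1 / 2) := by
            have : 0 < 2 / T := by positivity
            gcongr
            exact e5.trans e6
        _ = 4 / T := by ring
    calc ‖s‖ * ‖∫ u in Ioi (N : ℝ), ((Int.fract u : ℝ) : ℂ) * (u : ℂ) ^ (-s - 1)‖ ≤
          (1 + T) * (4 / T) := by
          have e6 := e2.trans e4
          have : 0 ≤ ‖∫ u in Ioi (N : ℝ), ((Int.fract u : ℝ) : ℂ) * (u : ℂ) ^ (-s - 1)‖ :=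
            norm_nonneg _
          gcongr
      _ ≤ 6 := by
          rw [mul_div_assoc', div_le_iff₀ (by linarith)]
          linarith
  linarith

/-- comparison of two kinds of large values -/
lemma compare {a : ℝ → ℝ} (hlow : ∀ σ ∈ Icc (1 / 2 : ℝ) 1, 2 * (1 - σ) ≤ a σ)
    {F G : ℝ → ℝ → ℝ → ℝ}
    (hFG : ∀ T σ t : ℝ, 2 ≤ T → 1 / 2 ≤ σ → σ ≤ 1 → 1 ≤ t → t ≤ T →
      F T σ t ≤ G T σ t + (T ^ (2 * (1 - σ)) / t + 6))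
    (H : ∀ ε : ℝ, 0 < ε → ∃ C : ℝ, 0 < C ∧ ∃ T0 : ℝ, ∀ T : ℝ, T0 ≤ T → ∀ σ : ℝ, 1 / 2 ≤ σ → σ ≤ 1 →
      volume {t : ℝ | 1 ≤ t ∧ t ≤ T ∧ T ^ ε < G T σ t} ≤ ENNReal.ofReal (C * T ^ (a σ + ε))) :
    ∀ ε : ℝ, 0 < ε → ∃ C : ℝ, 0 < C ∧ ∃ T0 : ℝ, ∀ T : ℝ, T0 ≤ T → ∀ σ : ℝ, 1 / 2 ≤ σ → σ ≤ 1 →
      volume {t : ℝ | 1 ≤ t ∧ t ≤ T ∧ T ^ ε < F T σ t} ≤ ENNReal.ofReal (C * T ^ (a σ + ε)) := by
  intro ε hε
  obtain ⟨C, hC, T₁, h₁⟩ := H (ε / 2) (by positivity)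
  have ev1 : ∀ᶠ T : ℝ in atTop, 8 ≤ T ^ (ε / 2) :=
    (tendsto_rpow_atTop (by positivity : 0 < ε / 2)).eventually_ge_atTop _
  obtain ⟨T₂, h₂⟩ := Filter.eventually_atTop.1 ev1
  refine ⟨C + 1, by positivity, max (max T₁ T₂) 2, ?_⟩
  intro T hT σ hσ1 hσ2
  have hTT₁ : T₁ ≤ T := (le_max_left _ _).trans ((le_max_left _ _).trans hT)
  have hTT₂ := h₂ T ((le_max_right _ _).trans ((le_max_left _ _).trans hT))
  have hT2 : 2 ≤ T := (le_max_right _ _).trans hT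
  have hT1 : 1 ≤ T := by linarith
  have hTpos : 0 < T := by linarith
  have haσ := hlow σ ⟨hσ1, hσ2⟩
  have hsub : {t : ℝ | 1 ≤ t ∧ t ≤ T ∧ T ^ ε < F T σ t} ⊆
      Icc 0 (T ^ (2 * (1 - σ))) ∪ {t : ℝ | 1 ≤ t ∧ t ≤ T ∧ T ^ (ε / 2) < G T σ t} := by
    rintro t ⟨h1, h2, h3⟩
    by_cases ht : t ≤ T ^ (2 * (1 - σ))
    · exact Or.inl ⟨by linarith, ht⟩
    · push Not at ht
      refine Or.inr ⟨h1, h2, ?_⟩
      have h4 := hFG T σ t hT2 hσ1 hσ2 h1 h2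
      have h5 : T ^ (2 * (1 - σ)) / t ≤ 1 := by
        rw [div_le_one (by linarith)]; exact ht.le
      have h6 : T ^ ε = T ^ (ε / 2) * T ^ (ε / 2) := by
        rw [← Real.rpow_add hTpos]; congr 1; ring
      nlinarith
  calc volume {t : ℝ | 1 ≤ t ∧ t ≤ T ∧ T ^ ε < F T σ t} ≤
      volume (Icc (0:ℝ) (T ^ (2 * (1 - σ)))) +
        volume {t : ℝ | 1 ≤ t ∧ t ≤ T ∧ T ^ (ε / 2) < G T σ t} :=
        (measure_mono hsub).trans (measure_union_le _ _)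
    _ ≤ ENNReal.ofReal (T ^ (a σ + ε)) + ENNReal.ofReal (C * T ^ (a σ + ε / 2)) := by
        gcongr
        · rw [Real.volume_Icc, sub_zero]
          apply ENNReal.ofReal_le_ofReal
          exact Real.rpow_le_rpow_of_exponent_le hT1 (by linarith)
        · exact h₁ T hTT₁ σ hσ1 hσ2
    _ = ENNReal.ofReal (T ^ (a σ + ε) + C * T ^ (a σ + ε / 2)) := by
        rw [ENNReal.ofReal_add (by positivity) (by positivity)]
    _ ≤ ENNReal.ofReal ((C + 1) * T ^ (a σ + ε)) := by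
        apply ENNReal.ofReal_le_ofReal
        have : T ^ (a σ + ε / 2) ≤ T ^ (a σ + ε) :=
          Real.rpow_le_rpow_of_exponent_le hT1 (by linarith)
        nlinarith

theorem sums_of_large {a : ℝ → ℝ} (hlow : ∀ σ ∈ Icc (1 / 2 : ℝ) 1, 2 * (1 - σ) ≤ a σ)
    (H : ∀ ε : ℝ, 0 < ε → ∃ C : ℝ, 0 < C ∧ ∃ T0 : ℝ, ∀ T : ℝ, T0 ≤ T → ∀ σ : ℝ, 1 / 2 ≤ σ → σ ≤ 1 →
      volume (bigV σ (T ^ ε) T) ≤ ENNReal.ofReal (C * T ^ (a σ + ε))) :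
    ∀ ε : ℝ, 0 < ε → ∃ C : ℝ, 0 < C ∧ ∃ T0 : ℝ, ∀ T : ℝ, T0 ≤ T → ∀ σ : ℝ, 1 / 2 ≤ σ → σ ≤ 1 →
      volume (sumV σ (T ^ ε) T) ≤ ENNReal.ofReal (C * T ^ (a σ + ε)) :=
  compare (F := fun T σ t => ‖∑ n ∈ Finset.Icc 1 ⌊T ^ 2⌋₊, (n : ℂ) ^ (-((σ : ℂ) + t * I))‖)
    (G := fun _ σ t => ‖riemannZeta (σ + t * I)‖) hlow
    (fun T σ t h1 h2 h3 h4 h5 => by
      have h6 := sum_close h1 h2 h3 h4 h5
      have h7 := norm_sub_norm_le (∑ n ∈ Finset.Icc 1 ⌊T ^ 2⌋₊, (n : ℂ) ^ (-((σ : ℂ) + t * I)))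
        (riemannZeta (σ + t * I))
      rw [norm_sub_rev] at h7
      linarith) H

theorem large_of_sums {a : ℝ → ℝ} (hlow : ∀ σ ∈ Icc (1 / 2 : ℝ) 1, 2 * (1 - σ) ≤ a σ)
    (H : ∀ ε : ℝ, 0 < ε → ∃ C : ℝ, 0 < C ∧ ∃ T0 : ℝ, ∀ T : ℝ, T0 ≤ T → ∀ σ : ℝ, 1 / 2 ≤ σ → σ ≤ 1 →
      volume (sumV σ (T ^ ε) T) ≤ ENNReal.ofReal (C * T ^ (a σ + ε))) :
    ∀ ε : ℝ, 0 < ε → ∃ C : ℝ, 0 < C ∧ ∃ T0 : ℝ, ∀ T : ℝ, T0 ≤ T → ∀ σ : ℝ, 1 / 2 ≤ σ → σ ≤ 1 →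
      volume (bigV σ (T ^ ε) T) ≤ ENNReal.ofReal (C * T ^ (a σ + ε)) :=
  compare (F := fun _ σ t => ‖riemannZeta (σ + t * I)‖)
    (G := fun T σ t => ‖∑ n ∈ Finset.Icc 1 ⌊T ^ 2⌋₊, (n : ℂ) ^ (-((σ : ℂ) + t * I))‖) hlow
    (fun T σ t h1 h2 h3 h4 h5 => by
      have h6 := sum_close h1 h2 h3 h4 h5
      have h7 := norm_sub_norm_le (riemannZeta (σ + t * I))
        (∑ n ∈ Finset.Icc 1 ⌊T ^ 2⌋₊, (n : ℂ) ^ (-((σ : ℂ) + t * I)))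
      linarith) H

end DH31
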