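import Pool.Agent.H31R2.DH.Strong

/-!
Large value estimates and tails of the fourth moment.
-/

open Complex Metric MeasureTheory Set Filter Topology

namespace DH31

lemma bigV_meas (σ V T : ℝ) : MeasurableSet (bigV σ V T) := by
  have h1 : ContinuousOn (fun t : ℝ => ‖riemannZeta (σ + t * I)‖) (Ioi (0 : ℝ)) := by
    intro t ht
    have h2 : ContinuousAt riemannZeta ((σ : ℂ) + t * I) :=
      (zeta_analyticAt (by simpa using ht)).continuousAt
    have h3 : ContinuousAt (fun t : ℝ => (σ : ℂ) + t * I) t := by fun_prop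
    exact (ContinuousAt.comp (f := fun t : ℝ => (σ : ℂ) + t * I) h2 h3).norm.continuousWithinAt
  have h2 : IsOpen (Ioi (0 : ℝ) ∩ (fun t : ℝ => ‖riemannZeta (σ + t * I)‖) ⁻¹' (Ioi V)) :=
    h1.isOpen_inter_preimage isOpen_Ioi isOpen_Ioi
  have h3 : bigV σ V T = Icc 1 T ∩
      (Ioi (0 : ℝ) ∩ (fun t : ℝ => ‖riemannZeta (σ + t * I)‖) ⁻¹' (Ioi V)) := by
    ext t
    simp only [bigV, mem_ofPred_eq, mem_inter_iff, mem_Icc, mem_Ioi, mem_preimage]
    constructor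
    · rintro ⟨a, b, c⟩
      exact ⟨⟨a, b⟩, by linarith, c⟩
    · rintro ⟨⟨a, b⟩, _, c⟩
      exact ⟨a, b, c⟩
  rw [h3]
  exact measurableSet_Icc.inter h2.measurableSet

lemma bigV_sub_bigW (σ V T : ℝ) : bigV σ V T ⊆ bigW σ V T :=
  fun _ ht => ⟨ht.1, ht.2.1, σ, le_rfl, ht.2.2⟩

/-- from large values to tails of the fourth moment -/
theorem tail_of_strong {a : ℝ → ℝ}
    (H : ∀ ε : ℝ, 0 < ε → ∃ C : ℝ, 0 < C ∧ ∃ T0 : ℝ, ∀ T : ℝ, T0 ≤ T → ∀ σ : ℝ, 1 / 2 ≤ σ → σ ≤ 1 →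
      ∀ V : ℝ, T ^ ε ≤ V → volume (bigW σ V T) ≤ ENNReal.ofReal (C * T ^ (a σ + ε) / V ^ 4)) :
    ∀ ε : ℝ, 0 < ε → ∃ C : ℝ, 0 < C ∧ ∃ T0 : ℝ, ∀ T : ℝ, T0 ≤ T → ∀ σ : ℝ, 1 / 2 ≤ σ → σ ≤ 1 →
      ∫⁻ t in bigV σ (T ^ ε) T, ENNReal.ofReal (‖riemannZeta (σ + t * I)‖ ^ 4) ≤
        ENNReal.ofReal (C * T ^ (a σ + ε)) := by
  classical
  intro ε hε
  obtain ⟨C, hC, T₁, h₁⟩ := H (ε / 4) (by positivity)
  set η : ℝ := ε / 8 with hη
  have hη0 : 0 < η := by positivity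
  set J : ℕ := ⌈2 / η⌉₊ with hJ
  have hJ1 : 2 ≤ J * η := by
    have := Nat.le_ceil (2 / η)
    rw [← hJ, div_le_iff₀ hη0] at this
    exact this
  have hJ0 : 0 < J := Nat.ceil_pos.2 (by positivity)
  refine ⟨J * C, by positivity, max T₁ 10, ?_⟩
  intro T hT σ hσ1 hσ2
  have hTT₁ : T₁ ≤ T := (le_max_left _ _).trans hT
  have hT10 : 10 ≤ T := (le_max_right _ _).trans hT
  have hTpos : 0 < T := by linarith
  have hT1 : 1 ≤ T := by linarith
  set V : ℕ → ℝ := fun j => T ^ (ε + j * η) with hV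
  have hV0 : ∀ j, 0 < V j := fun j => Real.rpow_pos_of_pos hTpos _
  have hVε : ∀ j, T ^ (ε / 4) ≤ V j := fun j =>
    Real.rpow_le_rpow_of_exponent_le hT1 (by
      have : 0 ≤ (j : ℝ) * η := by positivity
      linarith)
  have hVs : ∀ j, V (j + 1) ^ 4 = T ^ (ε / 2) * V j ^ 4 := by
    intro j
    have e1 : V (j + 1) = T ^ η * V j := by
      simp only [hV]
      rw [← Real.rpow_add hTpos]
      congr 1
      push_cast
      ring
    rw [e1, mul_pow, ← Real.rpow_natCast (T ^ η), ← Real.rpow_mul hTpos.le]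
    congr 2
    push_cast
    rw [hη]
    ring
  -- pointwise
  have hpt : ∀ t ∈ bigV σ (T ^ ε) T, ENNReal.ofReal (‖riemannZeta (σ + t * I)‖ ^ 4) ≤
      ∑ j ∈ Finset.range J, ENNReal.ofReal (V (j + 1) ^ 4) * (bigV σ (V j) T).indicator 1 t := by
    intro t ht
    obtain ⟨ht1, ht2, ht3⟩ := ht
    set y := ‖riemannZeta (σ + t * I)‖ with hy
    have hy2 : y ≤ T ^ 2 := by
      have e1 := Pool.Agent.H388LH.zeta_growth (s := (σ : ℂ) + t * I) (by simp; linarith)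
        (by simpa using ht1)
      have e2 : ‖(σ : ℂ) + t * I‖ ≤ 1 + T := by
        have := Complex.norm_le_abs_re_add_abs_im ((σ : ℂ) + t * I)
        simp only [Complex.add_re, Complex.ofReal_re, Complex.mul_re, Complex.I_re, mul_zero,
          Complex.ofReal_im, Complex.I_im, mul_one, sub_self, add_zero, Complex.add_im,
          Complex.mul_im, zero_add] at this
        rw [abs_of_nonneg (by linarith : 0 ≤ σ), abs_of_nonneg (by linarith : 0 ≤ t)] at this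
        linarith
      nlinarith
    have hyJ : y ≤ V J := by
      refine hy2.trans ?_
      simp only [hV]
      rw [← Real.rpow_two]
      exact Real.rpow_le_rpow_of_exponent_le hT1 (by linarith)
    have hex : ∃ j, y ≤ V j := ⟨J, hyJ⟩
    set k := Nat.find hex with hk
    have hk1 : y ≤ V k := Nat.find_spec hex
    have hkJ : k ≤ J := Nat.find_min' hex hyJ
    have hk0 : k ≠ 0 := by
      intro h0
      rw [h0] at hk1
      simp only [hV, Nat.cast_zero, zero_mul, add_zero] at hk1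
      linarith
    obtain ⟨i, hi⟩ := Nat.exists_eq_succ_of_ne_zero hk0
    have hi1 : V i < y := by
      have := Nat.find_min hex (m := i) (by rw [← hk, hi]; exact Nat.lt_succ_self i)
      exact not_le.1 this
    have hmem : t ∈ bigV σ (V i) T := ⟨ht1, ht2, hi1⟩
    have hiJ : i ∈ Finset.range J := by
      rw [Finset.mem_range]; omega
    calc ENNReal.ofReal (y ^ 4) ≤ ENNReal.ofReal (V (i + 1) ^ 4) * (bigV σ (V i) T).indicator 1 t := by
          rw [indicator_of_mem hmem, Pi.one_apply, mul_one]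
          apply ENNReal.ofReal_le_ofReal
          have h5 : y ≤ V (i + 1) := by rw [hi] at hk1; exact hk1
          have h6 : 0 ≤ y := norm_nonneg _
          gcongr
      _ ≤ _ := Finset.single_le_sum
          (f := fun j => ENNReal.ofReal (V (j + 1) ^ 4) * (bigV σ (V j) T).indicator 1 t)
          (fun _ _ => zero_le) hiJ
  calc ∫⁻ t in bigV σ (T ^ ε) T, ENNReal.ofReal (‖riemannZeta (σ + t * I)‖ ^ 4) ≤
      ∫⁻ t in bigV σ (T ^ ε) T, ∑ j ∈ Finset.range J,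
        ENNReal.ofReal (V (j + 1) ^ 4) * (bigV σ (V j) T).indicator 1 t :=
        setLIntegral_mono' (bigV_meas _ _ _) hpt
    _ ≤ ∫⁻ t, ∑ j ∈ Finset.range J,
        ENNReal.ofReal (V (j + 1) ^ 4) * (bigV σ (V j) T).indicator 1 t :=
        setLIntegral_le_lintegral _ _
    _ = ∑ j ∈ Finset.range J, ENNReal.ofReal (V (j + 1) ^ 4) * volume (bigV σ (V j) T) := by
        rw [lintegral_finsetSum']
        · refine Finset.sum_congr rfl fun j _ => ?_
          rw [lintegral_const_mul' _ _ ENNReal.ofReal_ne_top, lintegral_indicator_one (bigV_meas _ _ _)]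
        · exact fun j _ => ((measurable_one.indicator (bigV_meas _ _ _)).const_mul _).aemeasurable
    _ ≤ ∑ j ∈ Finset.range J, ENNReal.ofReal (C * T ^ (a σ + ε)) := by
        refine Finset.sum_le_sum fun j _ => ?_
        have h5 := h₁ T hTT₁ σ hσ1 hσ2 (V j) (hVε j)
        calc ENNReal.ofReal (V (j + 1) ^ 4) * volume (bigV σ (V j) T) ≤
            ENNReal.ofReal (V (j + 1) ^ 4) * ENNReal.ofReal (C * T ^ (a σ + ε / 4) / V j ^ 4) := by
              gcongr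
              exact (measure_mono (bigV_sub_bigW _ _ _)).trans h5
          _ = ENNReal.ofReal (V (j + 1) ^ 4 * (C * T ^ (a σ + ε / 4) / V j ^ 4)) := by
              rw [ENNReal.ofReal_mul (by have := hV0 (j + 1); positivity)]
          _ ≤ ENNReal.ofReal (C * T ^ (a σ + ε)) := by
              apply ENNReal.ofReal_le_ofReal
              have hVj := hV0 j
              rw [hVs]
              have e1 : T ^ (ε / 2) * V j ^ 4 * (C * T ^ (a σ + ε / 4) / V j ^ 4) =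
                  C * (T ^ (ε / 2) * T ^ (a σ + ε / 4)) := by
                field_simp
              rw [e1, ← Real.rpow_add hTpos]
              have e2 : T ^ (ε / 2 + (a σ + ε / 4)) ≤ T ^ (a σ + ε) :=
                Real.rpow_le_rpow_of_exponent_le hT1 (by linarith)
              gcongr
    _ = ENNReal.ofReal (J * C * T ^ (a σ + ε)) := by
        rw [Finset.sum_const, Finset.card_range, nsmul_eq_mul, mul_assoc,
          ENNReal.ofReal_mul (p := (J : ℝ)) (Nat.cast_nonneg _), ENNReal.ofReal_natCast]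

/-- Markov -/
theorem large_of_tail {a : ℝ → ℝ}
    (H : ∀ ε : ℝ, 0 < ε → ∃ C : ℝ, 0 < C ∧ ∃ T0 : ℝ, ∀ T : ℝ, T0 ≤ T → ∀ σ : ℝ, 1 / 2 ≤ σ → σ ≤ 1 →
      ∫⁻ t in bigV σ (T ^ ε) T, ENNReal.ofReal (‖riemannZeta (σ + t * I)‖ ^ 4) ≤
        ENNReal.ofReal (C * T ^ (a σ + ε))) :
    ∀ ε : ℝ, 0 < ε → ∃ C : ℝ, 0 < C ∧ ∃ T0 : ℝ, ∀ T : ℝ, T0 ≤ T → ∀ σ : ℝ, 1 / 2 ≤ σ → σ ≤ 1 →
      volume (bigV σ (T ^ ε) T) ≤ ENNReal.ofReal (C * T ^ (a σ + ε)) := by
  intro ε hε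
  obtain ⟨C, hC, T₁, h₁⟩ := H ε hε
  refine ⟨C, hC, max T₁ 1, ?_⟩
  intro T hT σ hσ1 hσ2
  have hT1 : 1 ≤ T := (le_max_right _ _).trans hT
  refine le_trans ?_ (h₁ T ((le_max_left _ _).trans hT) σ hσ1 hσ2)
  have h2 : volume (bigV σ (T ^ ε) T) = ∫⁻ t in bigV σ (T ^ ε) T, 1 := by
    rw [setLIntegral_const, one_mul]
  rw [h2]
  refine setLIntegral_mono' (bigV_meas _ _ _) fun t ht => ?_
  rw [← ENNReal.ofReal_one]
  apply ENNReal.ofReal_le_ofReal
  have h3 : 1 ≤ T ^ ε := Real.one_le_rpow hT1 hε.le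
  have h4 : 1 ≤ ‖riemannZeta (σ + t * I)‖ := by linarith [ht.2.2]
  exact one_le_pow₀ h4

/-- from heights at least one to all heights -/
lemma big_of_bigV {a : ℝ → ℝ}
    (hlow : ∀ σ ∈ Icc (1 / 2 : ℝ) 1, 2 * (1 - σ) ≤ a σ)
    (H : ∀ ε : ℝ, 0 < ε → ∃ C : ℝ, 0 < C ∧ ∃ T0 : ℝ, ∀ T : ℝ, T0 ≤ T → ∀ σ : ℝ, 1 / 2 ≤ σ → σ ≤ 1 →
      volume (bigV σ (T ^ ε) T) ≤ ENNReal.ofReal (C * T ^ (a σ + ε))) :
    ∀ ε : ℝ, 0 < ε → ∃ C : ℝ, 0 < C ∧ ∃ T0 : ℝ, ∀ T : ℝ, T0 ≤ T → ∀ σ : ℝ, 1 / 2 ≤ σ → σ ≤ 1 →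
      volume (big σ ε T) ≤ ENNReal.ofReal (C * T ^ (a σ + ε)) := by
  intro ε hε
  obtain ⟨C, hC, T₁, h₁⟩ := H ε hε
  refine ⟨C + 1, by positivity, max T₁ 1, ?_⟩
  intro T hT σ hσ1 hσ2
  have hT1 : 1 ≤ T := (le_max_right _ _).trans hT
  have hsub : big σ ε T ⊆ Ioc 0 1 ∪ bigV σ (T ^ ε) T := by
    rintro t ⟨h1, h2, h3⟩
    by_cases ht : t ≤ 1
    · exact Or.inl ⟨h1, ht⟩
    · exact Or.inr ⟨(not_le.1 ht).le, h2, h3⟩
  have haσ := hlow σ ⟨hσ1, hσ2⟩
  have hone : 1 ≤ T ^ (a σ + ε) := Real.one_le_rpow hT1 (by linarith)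
  calc volume (big σ ε T) ≤ volume (Ioc (0:ℝ) 1) + volume (bigV σ (T ^ ε) T) :=
        (measure_mono hsub).trans (measure_union_le _ _)
    _ ≤ ENNReal.ofReal 1 + ENNReal.ofReal (C * T ^ (a σ + ε)) := by
        gcongr
        · rw [Real.volume_Ioc]; simp
        · exact h₁ T ((le_max_left _ _).trans hT) σ hσ1 hσ2
    _ = ENNReal.ofReal (1 + C * T ^ (a σ + ε)) := by
        rw [ENNReal.ofReal_add (by norm_num) (by positivity)]
    _ ≤ ENNReal.ofReal ((C + 1) * T ^ (a σ + ε)) := by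
        apply ENNReal.ofReal_le_ofReal
        linarith

end DH31
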